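import Pool.Agent.P.MP_af0a18_lc.Defs

/-!
The notions of the problem, relativised to a transitive class `N` of sets. Relations and
functions are sets of ordered pairs; `pair s t ∈ lt` means that `s` is below `t` in the tree;
for ordinals `a ∈ b` means `a < b`.
-/

namespace Pool.Agent.P.MP_f1f3c4_lc

open ZFSet Pool.Agent.Lib.Forcing Pool.Agent.P.MP_af0a18_lc

/-- `(T, lt)` is a tree of height `ν` and `ht` is its height function: `ht` maps the set of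
predecessors of each node `t` isomorphically onto the ordinal `ht t`, and all levels below `ν`
are nonempty. -/
structure IsTree (ν T lt ht : ZFSet.{0}) : Prop where
  subset : lt ⊆ T.prod T
  trans : ∀ r s t, pair r s ∈ lt → pair s t ∈ lt → pair r t ∈ lt
  func : IsFunc T ν ht
  mono : ∀ s t a b, pair s t ∈ lt → pair s a ∈ ht → pair t b ∈ ht → a ∈ b
  pred : ∀ t b, pair t b ∈ ht → ∀ a ∈ b, ∃! s, pair s t ∈ lt ∧ pair s a ∈ ht
  onto : ∀ a ∈ ν, ∃ t, pair t a ∈ ht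

/-- `N` satisfies `|A| ≤ κ`. -/
def CardLe (N : Set ZFSet.{0}) (A κ : ZFSet.{0}) : Prop := CardLt N A κ ∨ HasCard N A κ

/-- `N` satisfies: `(T, lt)` is a `(ν, ≤ κ)`-Aronszajn tree, that is, a tree of height `ν` with
levels of size at most `κ` in which no chain meets all levels. -/
def Aronszajn (N : Set ZFSet.{0}) (ν κ T lt : ZFSet.{0}) : Prop :=
  ∃ ht ∈ N, IsTree ν T lt ht ∧ (∀ a ∈ ν, CardLe N (T.sep fun t => pair t a ∈ ht) κ) ∧
    ¬ ∃ B ∈ N, B ⊆ T ∧ (∀ s ∈ B, ∀ t ∈ B, pair s t ∈ lt ∨ s = t ∨ pair t s ∈ lt) ∧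
      ∀ a ∈ ν, ∃ t ∈ B, pair t a ∈ ht

/-- `N` satisfies: `T` is the union of the antichains `{t | pair n t ∈ S}`, `n ∈ ω`. -/
def Special (N : Set ZFSet.{0}) (T lt : ZFSet.{0}) : Prop :=
  ∃ S ∈ N, (∀ t ∈ T, ∃ n ∈ omega, pair n t ∈ S) ∧
    ∀ n ∈ omega, ∀ s t, pair n s ∈ S → pair n t ∈ S → pair s t ∉ lt

/-- Some forcing notion of `N` adds no subset of `ω` and makes `T` special. -/
def SpecialisableNoReals (N : Set ZFSet.{0}) (T lt : ZFSet.{0}) : Prop :=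
  ∃ P ∈ N, ∃ le ∈ N, IsForcing P le ∧ P.Nonempty ∧ ∀ H, IsGeneric N P le H →
    (∀ x ∈ genericExt N H, x ⊆ omega → x ∈ N) ∧ Special (genericExt N H) T lt

/-- `κ` is a cardinal of `N` and some `(ν, ≤ κ)`-Aronszajn tree of size `κ` is not special. -/
def StAt (N : Set ZFSet.{0}) (ν κ : ZFSet.{0}) : Prop :=
  κ ∈ N ∧ IsCardinalIn N κ ∧ ∃ T ∈ N, ∃ lt ∈ N,
    Aronszajn N ν κ T lt ∧ HasCard N T κ ∧ ¬ Special N T lt

/-- `κ` is a cardinal of `N` and some `(ν, ≤ κ)`-Aronszajn tree of size `κ` cannot be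
specialised without adding reals. -/
def NoAt (N : Set ZFSet.{0}) (ν κ : ZFSet.{0}) : Prop :=
  κ ∈ N ∧ IsCardinalIn N κ ∧ ∃ T ∈ N, ∃ lt ∈ N,
    Aronszajn N ν κ T lt ∧ HasCard N T κ ∧ ¬ SpecialisableNoReals N T lt

/-- `κ` is the least element of the class `C` of ordinals. -/
def IsLeastOrd (C : ZFSet.{0} → Prop) (κ : ZFSet.{0}) : Prop := C κ ∧ ∀ μ ∈ κ, ¬ C μ

end Pool.Agent.P.MP_f1f3c4_lc
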