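import Pool.Agent.P.MP_f1f3c4_lc.Step

/-!
The specialising forcing is countably distributive.
-/

set_option synthInstance.maxSize 16384
set_option linter.unusedSectionVars false

namespace Pool.Agent.P.MP_f1f3c4_lc

open Pool.Agent.Lib.Typed

variable {N : Set ZFSet.{0}} [ZFC N]
variable {Ω T : Type} [Coded N Ω] [LinearOrder Ω] [Om N Ω] [Coded N T] [PartialOrder T] [DefLe N T]
variable {r : T → Ω}

/-- Planning the levels in advance. -/
theorem plan (hT : Tr N r) (p : Cn N Ω T) {D : ℕ → Cn N Ω T → Prop}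
    (hD : DefF N (fun z : ℕ × Cn N Ω T => D z.1 z.2))
    (hd : ∀ n q, Valid r q → ∃ q', Valid r q' ∧ Le r q' q ∧ D n q')
    (ho : ∀ n q q', Valid r q' → Le r q' q → D n q → D n q') :
    ∃ (a : ℕ → ℕ → Cn N Ω T) (d : ℕ → Ω), DefF N (fun z : ℕ × ℕ => a z.1 z.2) ∧ DefF N d ∧
      a 0 0 = p ∧ (∀ n k, (a n k).1 < d n) ∧ (∀ n, d n < d (n + 1)) ∧
      ∀ n k σ, Valid r (a n k) → Resp r (a n k) σ → ∃ k', Valid r (a (n + 1) k') ∧
        Le r (a (n + 1) k') (a n k) ∧ D n (a (n + 1) k') ∧ d n ≤ (a (n + 1) k').1 ∧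
        Resp r (a (n + 1) k') σ := by
  have hr := hT.def_r
  obtain ⟨d0, hd0⟩ := exists_gt (N := N) p.1
  obtain ⟨s, hs, h0, h1, h2⟩ := dc (N := N)
    (I := fun _ (x : DFun N ℕ (Cn N Ω T) × Ω) => ∀ k, (x.1.app k).1 < x.2)
    (R := fun n x y => x.2 < y.2 ∧ ∀ k σ, Valid r (x.1.app k) → Resp r (x.1.app k) σ →
      ∃ k', Valid r (y.1.app k') ∧ Le r (y.1.app k') (x.1.app k) ∧ D n (y.1.app k') ∧
        x.2 ≤ (y.1.app k').1 ∧ Resp r (y.1.app k') σ)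
    (by simp only [all_eq]; fun_prop) (by simp only [all_eq, imp_eq]; fun_prop)
    (fun n x _ => by
      obtain ⟨b, hb, Hb⟩ := choice (N := N) (R := fun (k : ℕ) (b : DFun N ℕ (Cn N Ω T)) =>
        ∀ σ, Valid r (x.1.app k) → Resp r (x.1.app k) σ → ∃ k', Valid r (b.app k') ∧
          Le r (b.app k') (x.1.app k) ∧ (D n (b.app k') ∧ x.2 ≤ (b.app k').1) ∧
          Resp r (b.app k') σ) (by simp only [all_eq, imp_eq]; fun_prop) (fun k => by
          by_cases h : Valid r (x.1.app k)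
          · obtain ⟨b, hb⟩ := step hT h (D := fun q => D n q ∧ x.2 ≤ q.1) (by fun_prop)
              (fun q hq => by
                obtain ⟨q1, h1, h2, h3⟩ := hd n q hq
                obtain ⟨q2, h4, h5, h6, -⟩ := extend' hT h1 (le_max_left _ x.2) 0
                exact ⟨q2, h4, h6.trans h2, ho n q1 q2 h4 h6 h3, h5 ▸ le_max_right _ _⟩)
            exact ⟨b, fun σ _ => hb σ⟩
          · exact ⟨x.1, fun _ h' => (h h').elim⟩)
      obtain ⟨β, hβ⟩ := Om.bdd (N := N)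
        (fun i => max x.2 ((b i.unpair.1).app i.unpair.2).1) (by fun_prop)
      simp only [max_lt_iff] at hβ
      refine ⟨(⟨fun i => (b i.unpair.1).app i.unpair.2, by fun_prop⟩, β), fun i => (hβ i).2,
        (hβ 0).1, fun k σ h1 h2 => ?_⟩
      obtain ⟨k', h3⟩ := Hb k σ h1 h2
      exact ⟨Nat.pair k k', by simpa [and_assoc] using h3⟩)
    (x0 := (⟨fun _ => p, by fun_prop⟩, d0)) (fun _ => hd0)
  exact ⟨fun n k => (s n).1.app k, fun n => (s n).2, by fun_prop, by fun_prop, by simp [h0],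
    h1, fun n => (h2 n).1, fun n => (h2 n).2⟩

theorem exists_list_of_finite {X : Type} {P : X → Prop} (h : {x | P x}.Finite) :
    ∃ l : List X, ∀ x, x ∈ l ↔ P x :=
  ⟨h.toFinset.toList, fun x => by simp⟩

/-- Countably many dense open sets can be met simultaneously. -/
theorem distrib (hT : Tr N r) {p : Cn N Ω T} (hp : Valid r p) {D : ℕ → Cn N Ω T → Prop}
    (hD : DefF N (fun z : ℕ × Cn N Ω T => D z.1 z.2))
    (hd : ∀ n q, Valid r q → ∃ q', Valid r q' ∧ Le r q' q ∧ D n q')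
    (ho : ∀ n q q', Valid r q' → Le r q' q → D n q → D n q') :
    ∃ q, Valid r q ∧ Le r q p ∧ ∀ n, D n q := by
  have hr := hT.def_r
  obtain ⟨ex, hex⟩ := exists_ex hT
  have := hex.def_ex
  obtain ⟨a, d, ha, hd', a0, a1, a2, a3⟩ := plan hT p hD hd ho
  obtain ⟨δ, d1, d2⟩ := exists_sup hd'
  obtain ⟨j, hj, Hj⟩ := (hT.ctble δ).exists_inj
  obtain ⟨g, hg, Hg⟩ := hT.dom (fun t n => j (ex (d (n + 1)) t)) (by fun_prop)
  obtain ⟨v, hv, Hv⟩ := (ctble_lt (N := N) δ).exists_often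
  obtain ⟨s, hs, h0, h1, h2⟩ := dc (N := N)
    (I := fun n (x : Cn N Ω T × ℕ × Req T) => (∃ k, a n k = x.1) ∧ Valid r x.1 ∧ Resp r x.1 x.2.2)
    (R := fun n x y => Le r y.1 x.1 ∧ D n y.1 ∧ d n ≤ y.1.1 ∧ x.2.1 ≤ y.2.1 ∧
      (∀ z, z ∈ x.2.2 → z ∈ y.2.2) ∧
      (∃ ρ : Req T, (∀ z, z ∈ ρ → z ∈ y.2.2) ∧ (v n < x.1.1 → (x.1.2.2.app (v n)).Mem (δ, ρ)) ∧
        Avoid r δ ρ (x.2.2.map Prod.fst)) ∧
      ∀ u, r u ≤ δ → j u ≤ g n → (∃ c, n ≤ c ∧ c < y.2.1 ∧ Free r x.1 u c) ∧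
        ∀ c, c < y.2.1 → Free r x.1 u c → Free r y.1 u c)
    (by fun_prop) (by simp only [all_eq, imp_eq]; fun_prop)
    (by
      rintro n ⟨_, h, Λ⟩ ⟨⟨k, rfl⟩, h1, h2⟩
      dsimp only at h1 h2 ⊢
      have h3 : (a n k).1 ≤ δ := ((a1 n k).trans (d1 n)).le
      obtain ⟨ρ, h4, h5, h6⟩ : ∃ ρ : Req T, (v n < (a n k).1 →
          ((a n k).2.2.app (v n)).Mem (δ, ρ)) ∧ Resp r (a n k) ρ ∧
          Avoid r δ ρ (Λ.map Prod.fst) := by
        by_cases h : v n < (a n k).1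
        · obtain ⟨ρ, h4, h5, h6⟩ := (h1.2.2 _ h).2.lift hT (h1.2.2 _ h).1 h3 (Λ.map Prod.fst)
          exact ⟨ρ, fun _ => h4, h5, fun z hz e he h7 => h6 z hz e he (h7.mono h3)⟩
        · exact ⟨[], fun h' => (h h').elim, fun _ h => by simp at h, fun _ h => by simp at h⟩
      have h7 : {u | r u ≤ δ ∧ j u ≤ g n}.Finite :=
        Set.Finite.of_finite_image (f := j) ((Set.finite_le_nat (g n)).subset (by
          rintro _ ⟨u, hu, rfl⟩
          exact hu.2)) fun u hu u' hu' h => Hj u u' hu.1 hu'.1 h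
      choose c hc1 hc2 using fun u => h1.2.1 u n
      obtain ⟨b, hb⟩ := (h7.image c).bddAbove
      obtain ⟨σ, hσ⟩ := exists_list_of_finite (P := fun z : T × ℕ => (r z.1 ≤ δ ∧ j z.1 ≤ g n) ∧
        z.2 < max h (b + 1) ∧ Free r (a n k) z.1 z.2)
        ((h7.prod (Set.finite_lt_nat (max h (b + 1)))).subset fun z hz => ⟨hz.1, hz.2.1⟩)
      obtain ⟨k', k1, k2, k3, k4, k5⟩ := a3 n k ((Λ ++ ρ) ++ σ) h1 (fun z hz => by
        rcases List.mem_append.1 hz with hz | hz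
        · rcases List.mem_append.1 hz with hz | hz
          exacts [h2 z hz, h5 z hz]
        · exact ((hσ z).1 hz).2.2)
      refine ⟨(a (n + 1) k', max h (b + 1), Λ ++ ρ), ⟨⟨k', rfl⟩, k1,
        fun z hz => k5 z (List.mem_append_left _ hz)⟩, k2, k3, k4, le_max_left _ _,
        fun z hz => List.mem_append_left _ hz,
        ⟨ρ, fun z hz => List.mem_append_right _ hz, h4, h6⟩, fun u h8 h9 =>
        ⟨⟨c u, hc1 u, ?_, hc2 u⟩, fun c' h10 h11 => k5 (u, c') (List.mem_append_right _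
          ((hσ _).2 ⟨⟨h8, h9⟩, h10, h11⟩))⟩⟩
      have := hb ⟨u, ⟨h8, h9⟩, rfl⟩
      dsimp only
      omega)
    (x0 := (p, 0, [])) ⟨⟨0, a0⟩, hp, fun _ h => by simp at h⟩
  have m1 : ∀ n n', n ≤ n' → Le r (s n').1 (s n).1 ∧ (s n).2.1 ≤ (s n').2.1 ∧
      ∀ z, z ∈ (s n).2.2 → z ∈ (s n').2.2 := by
    intro n n' h
    induction h with
    | refl => exact ⟨Le.refl _, le_rfl, fun _ h => h⟩
    | step _ ih => exact ⟨(h2 _).1.trans ih.1, ih.2.1.trans (h2 _).2.2.2.1,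
        fun z hz => (h2 _).2.2.2.2.1 z (ih.2.2 z hz)⟩
  have m2 : ∀ n, (s n).1.1 < d n := fun n => by
    obtain ⟨k, hk⟩ := (h1 n).1
    exact hk ▸ a1 n k
  have m3 : ∀ γ, γ < δ → ∀ m, ∃ n, m ≤ n ∧ γ < (s n).1.1 := fun γ hγ m => by
    obtain ⟨n, hn⟩ := d2 γ hγ
    exact ⟨max m (n + 2), le_max_left _ _, ((hn.trans_lt (a2 n)).trans_le
      (h2 (n + 1)).2.2.1).trans_le (m1 _ _ (le_max_right _ _)).1.1⟩
  obtain ⟨w, hw, Hw⟩ := choice (N := N) (R := fun (γ : Ω) (n : ℕ) => γ < δ → γ < (s n).1.1)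
    (by simp only [imp_eq]; fun_prop) (fun γ => by
      by_cases h : γ < δ
      · exact (m3 γ h 0).imp fun _ h _ => h.2
      · exact ⟨0, fun h' => (h h').elim⟩)
  let q : Cn N Ω T := (δ, ⟨fun t => (s (w (r t))).1.2.1.app t, by fun_prop⟩,
    ⟨fun γ => (s (w γ)).1.2.2.app γ, by fun_prop⟩)
  have q1 : ∀ n, Le r q (s n).1 := fun n => by
    have h3 := (m2 n).trans (d1 n)
    refine ⟨h3.le, fun t ht => ?_, fun γ hγ => ?_⟩
    · rcases le_total n (w (r t)) with h | h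
      exacts [(m1 _ _ h).1.2.1 t ht, ((m1 _ _ h).1.2.1 t (Hw _ (ht.trans h3))).symm]
    · rcases le_total n (w γ) with h | h
      exacts [(m1 _ _ h).1.2.2 γ hγ, ((m1 _ _ h).1.2.2 γ (Hw _ (hγ.trans h3))).symm]
  have q2 : ∀ t c m, (∀ n, m ≤ n → Free r (s n).1 t c) → Free r q t c := fun t c m h u hu h3 => by
    obtain ⟨n, h4, h5⟩ := m3 _ h3 m
    rw [(q1 n).2.1 u h5]
    exact h n h4 u hu h5
  have q3 : Valid r q := by
    refine ⟨fun u t hut ht => ?_, fun t B => ?_, fun γ hγ => ?_⟩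
    · obtain ⟨n, -, h3⟩ := m3 _ ht 0
      rw [(q1 n).2.1 t h3, (q1 n).2.1 u ((hT.mono hut.le).trans_lt h3)]
      exact (h1 n).2.1.1 u t hut h3
    · by_cases h3 : ∀ n, r (ex (d (n + 1)) t) ≤ δ
      · obtain ⟨m, hm⟩ := Hg t
        obtain ⟨c, h4, h5, h6⟩ := ((h2 (max m B)).2.2.2.2.2.2 _ (h3 _) (hm _ (le_max_left _ _))).1
        refine ⟨c, (le_max_right _ _).trans h4, q2 t c (max m B) fun n hn => ?_⟩
        induction hn with
        | refl => exact hex.free hT ((m2 _).trans (a2 _)).le h6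
        | @step n hn ih =>
          exact hex.free hT (m2 _).le (((h2 n).2.2.2.2.2.2 _ (h3 n)
            (hm n ((le_max_left _ _).trans hn))).2 c
            (h5.trans_le (m1 _ _ (Nat.succ_le_succ hn)).2.1) (ih.of_node_le (hex.le _ _)))
      · push Not at h3
        obtain ⟨n, hn⟩ := h3
        obtain ⟨c, h4, h5⟩ := (h1 (n + 2)).2.1.2.1 t B
        refine ⟨c, h4, fun u hu h6 => ?_⟩
        have h7 : r u < (s (n + 2)).1.1 := lt_of_lt_of_le (not_le.1 fun h =>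
          absurd (hn.trans_le (hT.mono (hex.min _ _ _ hu h))) (not_lt.2 h6.le)) (h2 (n + 1)).2.2.1
        rw [(q1 _).2.1 u h7]
        exact h5 u hu h7
    · obtain ⟨n0, -, h3⟩ := m3 γ hγ 0
      refine ⟨by rw [(q1 n0).2.2 γ h3]; exact ((h1 n0).2.1.2.2 γ h3).1, fun E => ?_⟩
      choose ρ k1 k2 k3 using fun n => (h2 n).2.2.2.2.2.1
      obtain ⟨m, hm⟩ := exists_avoid hT (γ := δ) (ρ := ρ) (fun n n' hn z hz z' hz' =>
        k3 n' z' hz' _ (List.mem_map_of_mem ((m1 _ _ hn).2.2 z (k1 n z hz)))) E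
      obtain ⟨n, hn, rfl⟩ := Hv γ hγ (max m n0)
      have h4 := h3.trans_le (m1 _ _ ((le_max_right _ _).trans hn)).1.1
      refine ⟨ρ n, by rw [(q1 n).2.2 _ h4]; exact k2 n h4, fun z hz => q2 _ _ (n + 1)
        fun n' hn' => (h1 n').2.2 z ((m1 _ _ hn').2.2 z (k1 n z hz)),
        hm n ((le_max_left _ _).trans hn)⟩
  exact ⟨q, q3, by simpa [h0] using q1 0, fun n => ho n _ _ q3 (q1 (n + 1)) (h2 n).2.1⟩

theorem exists_valid (hT : Tr N r) : ∃ p : Cn N Ω T, Valid r p := by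
  have := Om.wf (N := N) (Ω := Ω)
  obtain ⟨a, -, ha⟩ := (wellFounded_lt (α := Ω)).has_min Set.univ
    (Set.nonempty_iff_univ_nonempty.1 (Om.ne N))
  exact ⟨(a, ⟨fun _ => 0, by fun_prop⟩, ⟨fun _ => ⟨fun _ => True, by fun_prop⟩, by fun_prop⟩),
    fun _ _ _ h => (ha _ trivial h).elim, fun _ B => ⟨B, le_rfl, fun _ _ h => (ha _ trivial h).elim⟩,
    fun _ h => (ha _ trivial h).elim⟩

end Pool.Agent.P.MP_f1f3c4_lc
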