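import Pool.Agent.Lib.Typed.Force
import Pool.Agent.P.MP_f1f3c4_lc.Limit
import Pool.Agent.P.MP_f1f3c4_lc.Defs

/-!
If the bounding number is above `ℵ₁`, every Aronszajn tree of size `ℵ₁` can be specialised
without adding reals.
-/

set_option synthInstance.maxSize 16384
set_option linter.unusedSectionVars false

namespace Pool.Agent.P.MP_f1f3c4_lc

open ZFSet Pool.Agent.Lib.Forcing Pool.Agent.Lib.Typed Pool.Agent.P.MP_af0a18_lc

variable {N : Set ZFSet.{0}} [ZFC N]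

/-- Every family of `Ω` many functions from `ℕ` to `ℕ` is eventually dominated. -/
def Dom (N : Set ZFSet.{0}) [ZFC N] (Ω : Type) [Coded N Ω] : Prop :=
  ∀ φ : Ω → ℕ → ℕ, DefF N (fun z : Ω × ℕ => φ z.1 z.2) →
    ∃ g : ℕ → ℕ, DefF N g ∧ ∀ t, ∃ m, ∀ n, m ≤ n → φ t n ≤ g n

section
variable {Ω T : Type} [Coded N Ω] [LinearOrder Ω] [Om N Ω] [Coded N T] [PartialOrder T] [DefLe N T]

theorem exists_tr (hdom : Dom N Ω) {h : T → Ω} (hh : DefF N h) (mono : StrictMono h)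
    (pred : ∀ t a, a < h t → ∃ s, s < t ∧ h s = a)
    (uniq : ∀ s s' t, s < t → s' < t → h s = h s' → s = s')
    {e : Ω → T} (he : DefF N e) (onto : ∀ t, ∃ a, e a = t)
    (nob : ∀ C : T → Prop, DefF N C → (∀ s t, C s → C t → s ≤ t ∨ t ≤ s) →
      ∃ a, ∀ t, C t → h t ≠ a) : ∃ r : T → Ω, Tr N r := by
  have := Om.wf (N := N) (Ω := Ω)
  have uniq' : ∀ s s' t, s ≤ t → s' ≤ t → h s = h s' → s = s' := by
    intro s s' t h1 h2 h3
    rcases h1.eq_or_lt with rfl | h1 <;> rcases h2.eq_or_lt with rfl | h2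
    exacts [rfl, absurd h3 (mono h2).ne', absurd h3 (mono h1).ne, uniq _ _ _ h1 h2 h3]
  have lin : ∀ s s' t : T, s ≤ t → s' ≤ t → h s ≤ h s' → s ≤ s' := by
    intro s s' t h1 h2 h3
    rcases h3.eq_or_lt with h3 | h3
    · exact (uniq' _ _ _ h1 h2 h3).le
    · obtain ⟨u, h4, h5⟩ := pred s' _ h3
      exact uniq' _ _ _ (h4.le.trans h2) h1 h5 ▸ h4.le
  have lin' : ∀ s s' t : T, s ≤ t → s' ≤ t → s ≤ s' ∨ s' ≤ s := fun s s' t h1 h2 =>
    (le_total (h s) (h s')).imp (lin _ _ _ h1 h2) (lin _ _ _ h2 h1)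
  have hc : ∀ C : T → Prop, DefF N C → (∀ s t, C s → C t → s ≤ t ∨ t ≤ s) → ∀ a,
      Ctble N (fun t => C t ∧ h t ≤ a) := by
    intro C hC h1 a
    obtain ⟨f, hf, H⟩ := choice (N := N) (R := fun (b : Ω) (t : T) =>
      (∃ t, C t ∧ h t = b) → C t ∧ h t = b) (by simp only [imp_eq]; fun_prop) (fun b => by
        by_cases h : ∃ t, C t ∧ h t = b
        · exact h.imp fun _ h _ => h
        · exact ⟨e b, fun h' => (h h').elim⟩)
    refine ((Om.ctble (N := N) a).image hf).mono fun t ht => ⟨h t, ht.2, ?_⟩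
    obtain ⟨h2, h3⟩ := H _ ⟨t, ht.1, rfl⟩
    rcases h1 _ _ h2 ht.1 with h4 | h4
    exacts [uniq' _ _ _ h4 le_rfl h3, uniq' _ _ _ le_rfl h4 h3]
  obtain ⟨r, hr, Hr⟩ := choice (N := N) (R := fun (t : T) (a : Ω) =>
    t ≤ e a ∧ ∀ b, b < a → ¬ t ≤ e b) (by simp only [all_eq, imp_eq]; fun_prop) (fun t => by
      obtain ⟨a, h1, h2⟩ := (wellFounded_lt (α := Ω)).has_min {a | t ≤ e a}
        ((onto t).imp fun _ h => h.ge)
      exact ⟨a, h1, fun b hb h => h2 b h hb⟩)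
  refine ⟨r, mono.wellFoundedLT, lin', hr,
    fun s t hst => not_lt.1 fun h => (Hr s).2 _ h (hst.trans (Hr t).1), fun γ => ?_,
    fun C hC h1 => ?_, fun φ hφ => ?_⟩
  · refine ((Om.ctble (N := N) γ).biUnion (R := fun a t => t ≤ e a) (by fun_prop) fun a =>
      (hc (fun t => t ≤ e a) (by fun_prop) (fun s t => lin' s t _) (h (e a))).mono
        fun t ht => ⟨ht, mono.monotone ht⟩).mono fun t ht => ⟨r t, ht, (Hr t).1⟩
  · obtain ⟨a, ha⟩ := nob (fun s => ∃ t, C t ∧ s ≤ t) (by fun_prop) (by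
      rintro s s' ⟨t, h2, h3⟩ ⟨t', h4, h5⟩
      rcases h1 t t' h2 h4 with h6 | h6
      exacts [lin' _ _ _ (h3.trans h6) h5, lin' _ _ _ h3 (h5.trans h6)])
    obtain ⟨γ, hγ⟩ := (hc C hC h1 a).bdd hr
    refine ⟨γ, fun t ht => hγ t ⟨ht, not_lt.1 fun h2 => ?_⟩⟩
    obtain ⟨s, h3, h4⟩ := pred t a h2
    exact ha s ⟨t, ht, h3.le⟩ h4
  · obtain ⟨g, hg, H⟩ := hdom (fun a n => φ (e a) n) (by fun_prop)
    refine ⟨g, hg, fun t => ?_⟩
    obtain ⟨a, rfl⟩ := onto t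
    exact H a

theorem Tr.specialise {r : T → Ω} (hT : Tr N r) {lt : ZFSet.{0}} (h1 : lt ⊆ (car N T).prod (car N T))
    (h2 : ∀ s t : T, pair (cd N s) (cd N t) ∈ lt → s < t) :
    SpecialisableNoReals N (car N T) lt := by
  have hr := hT.def_r
  obtain ⟨P, le, h⟩ := exists_TF (M := N) (V := (Valid r : Cn N Ω T → Prop)) (L := Le r)
    (by fun_prop) (by fun_prop) Le.refl fun _ _ _ => Le.trans
  obtain ⟨p0, hp0⟩ := exists_valid hT
  refine ⟨P, h.memP, le, h.memL, h.forcing, ⟨_, (h.hP _).2 ⟨p0, hp0, rfl⟩⟩, fun H hH =>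
    ⟨fun x => h.no_reals hH (by fun_prop) fun p hp D => distrib hT hp, ?_⟩⟩
  obtain ⟨S, hS, h3, h4⟩ := h.eval hH
    (R := fun (z : ℕ × T) p => r z.2 < p.1 ∧ p.2.1.app z.2 = z.1) (by fun_prop)
  refine ⟨S, hS, fun z hz => ?_, fun n hn s t h5 h6 h7 => ?_⟩
  · obtain ⟨t, rfl⟩ := mem_car.1 hz
    obtain ⟨q, h5, h6⟩ := h.meets hH (R := fun q => r t < q.1) (by fun_prop) fun p hp => by
      obtain ⟨b, hb⟩ := exists_gt (N := N) (r t)
      obtain ⟨q, h5, h6, h7, -⟩ := extend' hT hp (le_max_left _ b) 0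
      exact ⟨q, h5, h7, h6 ▸ hb.trans_le (le_max_right _ _)⟩
    exact ⟨_, car_nat (N := N) ▸ cd_mem_car _, (h4 (q.2.1.app t, t)).2 ⟨q, h5, h6, rfl⟩⟩
  · obtain ⟨n, rfl⟩ := mem_car.1 ((car_nat (N := N)).ge hn)
    obtain ⟨s, rfl⟩ := mem_car.1 (pair_mem_prod.1 (h1 h7)).1
    obtain ⟨t, rfl⟩ := mem_car.1 (pair_mem_prod.1 (h1 h7)).2
    obtain ⟨p, h8, h9, h10⟩ := (h4 (n, s)).1 h5
    obtain ⟨q, h11, h12, h13⟩ := (h4 (n, t)).1 h6
    obtain ⟨u, h14, h15, h16⟩ := h.directed hH h8 h11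
    refine (h.valid hH h14).1 s t (h2 s t h7) (h12.trans_le h16.1) ?_
    rw [h15.2.1 s h9, h16.2.1 t h12, h10, h13]

end

theorem specialisable {ν κ T lt : ZFSet.{0}} [InM N ν] [hν : Fact ν.IsOrdinal] [Om N (El ν)]
    (hdom : Dom N (El ν)) (hT : T ∈ N) (hlt : lt ∈ N) (hA : Aronszajn N ν κ T lt)
    (hs : Surj N ν T) : SpecialisableNoReals N T lt := by
  have := InM.mk hT
  obtain ⟨ht, hht, tr, -, nob⟩ := hA
  have h1 : DefF N (In N ht : El T × El ν → Prop) := DefF.isIn hht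
  have h2 : DefF N (In N lt : El T × El T → Prop) := DefF.isIn hlt
  obtain ⟨h, hh, H⟩ := choice (N := N) (R := fun (t : El T) (a : El ν) => In N ht (t, a)) h1
    (fun t => by
      obtain ⟨a, ha, -⟩ := tr.func.2 _ t.val_mem
      obtain ⟨a, rfl⟩ := El.exists_val (pair_mem_prod.1 (tr.func.1 ha)).2
      exact ⟨a, ha⟩)
  have H' : ∀ (t : El T) (a : El ν), pair t.val a.val ∈ ht → h t = a := fun t a h =>
    El.val_inj (fn_of_isFunc tr.func _ _ (H t) _ h)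
  have mono : ∀ s t : El T, In N lt (s, t) → h s < h t := fun s t hst =>
    El.lt_iff.2 (tr.mono _ _ _ _ hst (H s) (H t))
  let : PartialOrder (El T) :=
    { le := fun s t => s = t ∨ In N lt (s, t)
      lt := fun s t => In N lt (s, t)
      le_refl := fun _ => Or.inl rfl
      le_trans := by
        rintro r s t (rfl | h3) (rfl | h4)
        exacts [Or.inl rfl, Or.inr h4, Or.inr h3, Or.inr (tr.trans _ _ _ h3 h4)]
      lt_iff_le_not_ge := fun s t => ⟨fun h3 => ⟨Or.inr h3, by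
        rintro (rfl | h4)
        exacts [lt_irrefl _ (mono _ _ h3), lt_asymm (mono _ _ h3) (mono _ _ h4)]⟩,
        fun h3 => h3.1.resolve_left fun h4 => h3.2 (Or.inl h4.symm)⟩
      le_antisymm := by
        rintro s t (rfl | h3) (h4 | h4)
        exacts [rfl, rfl, h4.symm, (lt_asymm (mono _ _ h3) (mono _ _ h4)).elim] }
  have : DefLe N (El T) := ⟨(by fun_prop : DefF N fun z : El T × El T =>
    z.1 = z.2 ∨ In N lt (z.1, z.2))⟩
  obtain ⟨a0⟩ := Om.ne (Ω := El ν) N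
  obtain ⟨t0, ht0⟩ := tr.onto _ a0.val_mem
  obtain ⟨t0, -⟩ := El.exists_val (pair_mem_prod.1 (tr.func.1 ht0)).1
  have : Nonempty (El T) := ⟨t0⟩
  obtain ⟨e, he, He⟩ := exists_fun_of_surj (M := N) (A := El ν) (B := El T) car_el.ge hs
  obtain ⟨r, hr⟩ := exists_tr hdom hh mono (fun t a ha => by
      obtain ⟨s, ⟨h3, h4⟩, -⟩ := tr.pred _ _ (H t) _ (El.lt_iff.1 ha)
      obtain ⟨s, rfl⟩ := El.exists_val (pair_mem_prod.1 (tr.subset h3)).1
      exact ⟨s, h3, H' _ _ h4⟩)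
    (fun s s' t h3 h4 h5 => El.val_inj ((tr.pred _ _ (H t) _ (El.lt_iff.1 (mono _ _ h3))).unique
      ⟨h3, H s⟩ ⟨h4, h5 ▸ H s'⟩)) he (fun t => (He t t.val_mem).imp fun _ h => h.2)
    (fun C hC h3 => by
      by_contra hcon
      push Not at hcon
      refine nob ⟨cd N (⟨C, hC⟩ : DSet N (El T)), cd_mem _,
        (cd_dset_subset _).trans car_el.le, fun s hs t ht => ?_, fun a ha => ?_⟩
      · obtain ⟨s, h4, rfl⟩ := mem_cd_dset.1 hs
        obtain ⟨t, h5, rfl⟩ := mem_cd_dset.1 ht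
        rcases h3 s t h4 h5 with (rfl | h6) | rfl | h6
        exacts [Or.inr (Or.inl rfl), Or.inl h6, Or.inr (Or.inl rfl), Or.inr (Or.inr h6)]
      · obtain ⟨a, rfl⟩ := El.exists_val ha
        obtain ⟨t, h4, rfl⟩ := hcon a
        exact ⟨_, cd_mem_dset.2 h4, H t⟩)
  have h3 := hr.specialise (lt := lt) (by rw [car_el]; exact tr.subset) fun _ _ h => h
  rwa [car_el] at h3

end Pool.Agent.P.MP_f1f3c4_lc
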