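import Mathlib.Order.Lattice.Nat
import Pool.Agent.Lib.Typed.Omega1

/-!
The specialising forcing for a wide Aronszajn tree of size `ℵ₁`: conditions, promises and the
extension lemma.
-/

set_option synthInstance.maxSize 16384

namespace Pool.Agent.P.MP_f1f3c4_lc

open Pool.Agent.Lib.Typed

variable {N : Set ZFSet.{0}} [ZFC N]

section
variable {W : Type} [Coded N W]

@[fun_prop] theorem defF_sInf {P : W → ℕ → Prop} (hP : DefF N (fun z : W × ℕ => P z.1 z.2)) :
    DefF N (fun w => sInf (setOf (P w))) :=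
  DefF.of_rel (fun w c => (P w c ∧ ¬ ∃ c', c' < c ∧ P w c') ∨ ((¬ ∃ c', P w c') ∧ c = 0))
    (by fun_prop) fun w c => by
    by_cases h : ∃ c', P w c'
    · constructor
      · rintro rfl
        exact Or.inl ⟨Nat.sInf_mem h, fun ⟨c', h1, h2⟩ => Nat.notMem_of_lt_sInf h1 h2⟩
      · rintro (⟨h1, h2⟩ | ⟨h1, -⟩)
        · exact le_antisymm (Nat.sInf_le h1) (not_lt.1 fun h3 => h2 ⟨_, h3, Nat.sInf_mem h⟩)
        · exact (h1 h).elim
    · have : setOf (P w) = ∅ := Set.eq_empty_of_forall_notMem fun c hc => h ⟨c, hc⟩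
      rw [this, Nat.sInf_empty]
      exact ⟨fun h' => Or.inr ⟨h, h'.symm⟩, fun h' => h'.elim (fun h' => (h ⟨c, h'.1⟩).elim)
        fun h' => h'.2.symm⟩

/-- The increasing enumeration of an unbounded set of natural numbers. -/
noncomputable def en (P : ℕ → Prop) (n : ℕ) : ℕ :=
  Nat.rec (sInf (setOf P)) (fun _ x => sInf (setOf fun c => P c ∧ x < c)) n

@[fun_prop] theorem defF_en {P : W → ℕ → Prop} {n : W → ℕ}
    (hP : DefF N (fun z : W × ℕ => P z.1 z.2)) (hn : DefF N n) :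
    DefF N (fun w => en (P w) (n w)) :=
  (DefF.natRec (a := fun w => sInf (setOf (P w)))
    (s := fun w _ x => sInf (setOf fun c => P w c ∧ x < c)) (by fun_prop) (by fun_prop)).comp
    (DefF.id.prodMk hn)

theorem en_spec {P : ℕ → Prop} (h : ∀ B, ∃ c, B ≤ c ∧ P c) :
    StrictMono (en P) ∧ ∀ n, P (en P n) := by
  have h1 : ∀ x, (setOf fun c => P c ∧ x < c).Nonempty := fun x =>
    (h (x + 1)).imp fun _ h => ⟨h.2, h.1⟩
  refine ⟨strictMono_nat_of_lt_succ fun n => (Nat.sInf_mem (h1 _)).2, fun n => ?_⟩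
  cases n with
  | zero => exact Nat.sInf_mem (s := setOf P) ((h 0).imp fun _ h => h.2)
  | succ n => exact (Nat.sInf_mem (h1 _)).1

/-- The order of `T` is definable. -/
class DefLe (N : Set ZFSet.{0}) [ZFC N] (T : Type) [Coded N T] [PartialOrder T] : Prop where
  def_le : DefF N (fun z : T × T => z.1 ≤ z.2)

variable {T : Type} [Coded N T] [PartialOrder T] [h : DefLe N T]

@[fun_prop] theorem defF_le {f g : W → T} (hf : DefF N f) (hg : DefF N g) :
    DefF N (fun w => f w ≤ g w) := h.def_le.comp (hf.prodMk hg)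

@[fun_prop] theorem defF_lt {f g : W → T} (hf : DefF N f) (hg : DefF N g) :
    DefF N (fun w => f w < g w) :=
  ((defF_le hf hg).and (defF_le hg hf).not).congr_iff fun _ => lt_iff_le_not_ge.symm

end

variable {Ω T : Type} [Coded N Ω] [LinearOrder Ω] [Om N Ω] [Coded N T] [PartialOrder T] [DefLe N T]

/-- A tree `T` without long chains, written as an increasing union of the countable initial
parts `{t | r t < γ}`, in a model where any family of functions indexed by `T` is bounded. -/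
structure Tr (N : Set ZFSet.{0}) [ZFC N] {Ω T : Type} [Coded N Ω] [LinearOrder Ω] [Coded N T]
    [PartialOrder T] (r : T → Ω) : Prop where
  wf : WellFoundedLT T
  lin : ∀ s s' t : T, s ≤ t → s' ≤ t → s ≤ s' ∨ s' ≤ s
  def_r : DefF N r
  mono : Monotone r
  ctble : ∀ γ, Ctble N (fun t => r t ≤ γ)
  nobranch : ∀ C : T → Prop, DefF N C → (∀ s t, C s → C t → s ≤ t ∨ t ≤ s) →
    ∃ γ, ∀ t, C t → r t < γ
  dom : ∀ φ : T → ℕ → ℕ, DefF N (fun z : T × ℕ => φ z.1 z.2) →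
    ∃ g : ℕ → ℕ, DefF N g ∧ ∀ t, ∃ m, ∀ n, m ≤ n → φ t n ≤ g n

/-- Requirements: finite lists of pairs (node, colour to be avoided below the node). -/
abbrev Req (T : Type) := List (T × ℕ)

/-- Promises. -/
abbrev Prom (N : Set ZFSet.{0}) [ZFC N] (Ω T : Type) [Coded N Ω] [Coded N T] :=
  DSet N (Ω × Req T)

/-- Potential conditions: level, colouring, promises. -/
abbrev Cn (N : Set ZFSet.{0}) [ZFC N] (Ω T : Type) [Coded N Ω] [Coded N T] :=
  Ω × DFun N T ℕ × DFun N Ω (Prom N Ω T)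

variable (r : T → Ω)

/-- The two nodes leave the initial part of level `γ` at the same node. -/
def Same (γ : Ω) (t t' : T) : Prop := ∃ s, s ≤ t ∧ s ≤ t' ∧ γ ≤ r s

/-- The colour `c` is not used below `t`. -/
def Free (p : Cn N Ω T) (t : T) (c : ℕ) : Prop := ∀ s, s ≤ t → r s < p.1 → p.2.1.app s ≠ c

/-- The condition respects the requirement. -/
def Resp (p : Cn N Ω T) (ρ : Req T) : Prop := ∀ z, z ∈ ρ → Free r p z.1 z.2

/-- The requirement avoids the nodes of `E` above level `γ`. -/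
def Avoid (γ : Ω) (ρ : Req T) (E : List T) : Prop := ∀ z, z ∈ ρ → ∀ e, e ∈ E → ¬ Same r γ z.1 e

/-- Every member of `K` extends to all higher levels. -/
def IsProm (K : Prom N Ω T) : Prop :=
  ∀ γ ρ, K.Mem (γ, ρ) → ∀ β, γ ≤ β → ∃ ρ', K.Mem (β, ρ') ∧
    ∀ z', z' ∈ ρ' → ∃ z, z ∈ ρ ∧ z.2 = z'.2 ∧ Same r γ z.1 z'.1

/-- The condition keeps the promise. -/
def Kept (p : Cn N Ω T) (K : Prom N Ω T) : Prop :=
  ∀ E, ∃ ρ, K.Mem (p.1, ρ) ∧ Resp r p ρ ∧ Avoid r p.1 ρ E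

/-- Conditions. -/
def Valid (p : Cn N Ω T) : Prop :=
  (∀ s t, s < t → r t < p.1 → p.2.1.app s ≠ p.2.1.app t) ∧ (∀ t B, ∃ c, B ≤ c ∧ Free r p t c) ∧
    ∀ γ, γ < p.1 → IsProm r (p.2.2.app γ) ∧ Kept r p (p.2.2.app γ)

/-- The order of the forcing. -/
def Le (q p : Cn N Ω T) : Prop :=
  p.1 ≤ q.1 ∧ (∀ s, r s < p.1 → q.2.1.app s = p.2.1.app s) ∧
    ∀ γ, γ < p.1 → q.2.2.app γ = p.2.2.app γ

variable {r}

section
variable {W : Type} [Coded N W]

@[fun_prop] theorem defF_same (hr : DefF N r) {γ : W → Ω} {t t' : W → T} (h1 : DefF N γ)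
    (h2 : DefF N t) (h3 : DefF N t') : DefF N (fun w => Same r (γ w) (t w) (t' w)) := by
  unfold Same; fun_prop

@[fun_prop] theorem defF_free (hr : DefF N r) {p : W → Cn N Ω T} {t : W → T} {c : W → ℕ}
    (h1 : DefF N p) (h2 : DefF N t) (h3 : DefF N c) :
    DefF N (fun w => Free r (p w) (t w) (c w)) := by
  unfold Free; simp only [all_eq, imp_eq]; fun_prop

@[fun_prop] theorem defF_resp (hr : DefF N r) {p : W → Cn N Ω T} {ρ : W → Req T}
    (h1 : DefF N p) (h2 : DefF N ρ) : DefF N (fun w => Resp r (p w) (ρ w)) := by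
  unfold Resp; simp only [all_eq, imp_eq]; fun_prop

@[fun_prop] theorem defF_avoid (hr : DefF N r) {γ : W → Ω} {ρ : W → Req T} {E : W → List T}
    (h1 : DefF N γ) (h2 : DefF N ρ) (h3 : DefF N E) :
    DefF N (fun w => Avoid r (γ w) (ρ w) (E w)) := by
  unfold Avoid; simp only [all_eq, imp_eq]; fun_prop

@[fun_prop] theorem defF_isProm (hr : DefF N r) {K : W → Prom N Ω T} (h1 : DefF N K) :
    DefF N (fun w => IsProm r (K w)) := by
  unfold IsProm; simp only [all_eq, imp_eq]; fun_prop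

@[fun_prop] theorem defF_kept (hr : DefF N r) {p : W → Cn N Ω T} {K : W → Prom N Ω T}
    (h1 : DefF N p) (h2 : DefF N K) : DefF N (fun w => Kept r (p w) (K w)) := by
  unfold Kept; simp only [all_eq]; fun_prop

@[fun_prop] theorem defF_valid (hr : DefF N r) {p : W → Cn N Ω T} (h1 : DefF N p) :
    DefF N (fun w => Valid r (p w)) := by
  unfold Valid; simp only [all_eq, imp_eq]; fun_prop

@[fun_prop] theorem defF_Le (hr : DefF N r) {q p : W → Cn N Ω T} (h1 : DefF N q)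
    (h2 : DefF N p) : DefF N (fun w => Le r (q w) (p w)) := by
  unfold Le; simp only [all_eq, imp_eq]; fun_prop

end

omit [Om N Ω] [DefLe N T]

theorem Le.refl (p : Cn N Ω T) : Le r p p := ⟨le_rfl, fun _ _ => rfl, fun _ _ => rfl⟩

theorem Le.trans {o q p : Cn N Ω T} (h : Le r o q) (h' : Le r q p) : Le r o p :=
  ⟨h'.1.trans h.1, fun s hs => (h.2.1 s (hs.trans_le h'.1)).trans (h'.2.1 s hs),
    fun s hs => (h.2.2 s (hs.trans_le h'.1)).trans (h'.2.2 s hs)⟩

omit [Coded N Ω] [Coded N T] in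
theorem Same.symm {γ : Ω} {t t' : T} (h : Same r γ t t') : Same r γ t' t :=
  h.imp fun _ h => ⟨h.2.1, h.1, h.2.2⟩

omit [Coded N Ω] [Coded N T] in
theorem Same.mono {γ γ' : Ω} {t t' : T} (h : Same r γ t t') (hγ : γ' ≤ γ) : Same r γ' t t' :=
  h.imp fun _ h => ⟨h.1, h.2.1, hγ.trans h.2.2⟩

theorem Same.trans (hT : Tr N r) {γ : Ω} {a b c : T} (h : Same r γ a b) (h' : Same r γ b c) :
    Same r γ a c := by
  obtain ⟨s, h1, h2, h3⟩ := h
  obtain ⟨s', h4, h5, h6⟩ := h'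
  rcases hT.lin s s' b h2 h4 with h | h
  exacts [⟨s, h1, h.trans h5, h3⟩, ⟨s', h.trans h1, h5, h6⟩]

theorem Same.le_of_lt (hT : Tr N r) {γ : Ω} {a b s : T} (h : Same r γ a b) (hs : s ≤ b)
    (hγ : r s < γ) : s ≤ a := by
  obtain ⟨s', h1, h2, h3⟩ := h
  rcases hT.lin s s' b hs h2 with h | h
  · exact h.trans h1
  · exact absurd (h3.trans (hT.mono h)) (not_le.2 hγ)

theorem Free.of_same (hT : Tr N r) {p : Cn N Ω T} {γ : Ω} {a b : T} {c : ℕ} (h : Free r p a c)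
    (hab : Same r γ a b) (hγ : p.1 ≤ γ) : Free r p b c :=
  fun s hs h' => h s (hab.le_of_lt hT hs (h'.trans_le hγ)) h'

theorem free_eq (hT : Tr N r) {p : Cn N Ω T} {a b : T} (hab : Same r p.1 a b) :
    Free r p a = Free r p b :=
  funext fun _ => propext ⟨fun h => h.of_same hT hab le_rfl, fun h => h.of_same hT hab.symm le_rfl⟩

theorem Free.of_le {p q : Cn N Ω T} {a : T} {c : ℕ} (h : Free r q a c) (hqp : Le r q p) :
    Free r p a c :=
  fun s hs h' => hqp.2.1 s h' ▸ h s hs (h'.trans_le hqp.1)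

/-- Among infinitely many pairwise disjoint requirements one avoids a given finite set. -/
theorem exists_avoid (hT : Tr N r) {γ : Ω} {ρ : ℕ → Req T}
    (h : ∀ n n', n < n' → ∀ z ∈ ρ n, ∀ z' ∈ ρ n', ¬ Same r γ z'.1 z.1) (E : List T) :
    ∃ m, ∀ n, m ≤ n → Avoid r γ (ρ n) E := by
  induction E with
  | nil => exact ⟨0, fun _ _ _ _ _ h => by simp at h⟩
  | cons e E ih =>
    obtain ⟨m, hm⟩ := ih
    by_cases h1 : ∃ n, ∃ z ∈ ρ n, Same r γ z.1 e
    · obtain ⟨n, z, h1, h2⟩ := h1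
      refine ⟨max m (n + 1), fun k hk z' hz' e' he' h3 => ?_⟩
      rcases List.mem_cons.1 he' with rfl | he'
      · exact h n k (by omega) z h1 z' hz' (h3.trans hT h2.symm)
      · exact hm k (by omega) z' hz' e' he' h3
    · refine ⟨m, fun k hk z' hz' e' he' h3 => ?_⟩
      rcases List.mem_cons.1 he' with rfl | he'
      · exact h1 ⟨k, z', hz', h3⟩
      · exact hm k hk z' hz' e' he' h3

/-- A kept promise has members on every higher level. -/
theorem Kept.lift (hT : Tr N r) {p : Cn N Ω T} {K : Prom N Ω T} (h : Kept r p K)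
    (hK : IsProm r K) {β : Ω} (hβ : p.1 ≤ β) (E : List T) :
    ∃ ρ, K.Mem (β, ρ) ∧ Resp r p ρ ∧ Avoid r p.1 ρ E := by
  obtain ⟨ρ, h1, h2, h3⟩ := h E
  obtain ⟨ρ', h4, h5⟩ := hK _ _ h1 β hβ
  refine ⟨ρ', h4, fun z' hz' => ?_, fun z' hz' e he h6 => ?_⟩
  · obtain ⟨z, hz, h6, h7⟩ := h5 z' hz'
    exact h6 ▸ (h2 z hz).of_same hT h7 le_rfl
  · obtain ⟨z, hz, -, h7⟩ := h5 z' hz'
    exact h3 z hz e he (h7.trans hT h6)

theorem exists_colour_bound (ρ : Req T) : ∃ b, ∀ z ∈ ρ, z.2 < b := by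
  induction ρ with
  | nil => exact ⟨0, fun _ h => by simp at h⟩
  | cons a ρ ih =>
    obtain ⟨b, hb⟩ := ih
    refine ⟨max b (a.2 + 1), fun z hz => ?_⟩
    rcases List.mem_cons.1 hz with rfl | hz
    · omega
    · have := hb z hz; omega

variable [Om N Ω] [DefLe N T]

/-- The extension lemma: extend to level `β`, use only colours at least `m` on the new nodes,
and add the promise `K`. -/
theorem extend (hT : Tr N r) {p : Cn N Ω T} (hp : Valid r p) {β : Ω} (hβ : p.1 ≤ β) (m : ℕ)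
    {K : Prom N Ω T} (hK : IsProm r K)
    (hK' : ∀ E, ∃ ρ, K.Mem (β, ρ) ∧ Resp r p ρ ∧ Avoid r β ρ E ∧ ∀ z ∈ ρ, z.2 < m) :
    ∃ q, Valid r q ∧ q.1 = β ∧ Le r q p ∧ (∀ s, p.1 ≤ r s → m ≤ q.2.1.app s) ∧
      ∀ γ, p.1 ≤ γ → q.2.2.app γ = K := by
  classical
  have hr := hT.def_r
  obtain ⟨g, hg, Hg⟩ := (ctble_lt (N := N) p.1).exists_often
  have step : ∀ n (L : List T), ∃ ρ : Req T, (g n < p.1 → (p.2.2.app (g n)).Mem (β, ρ)) ∧
      Resp r p ρ ∧ Avoid r p.1 ρ L := by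
    intro n L
    by_cases h : g n < p.1
    · obtain ⟨ρ, h1⟩ := (hp.2.2 _ h).2.lift hT (hp.2.2 _ h).1 hβ L
      exact ⟨ρ, fun _ => h1.1, h1.2⟩
    · exact ⟨[], fun h' => (h h').elim, fun _ h => by simp at h, fun _ h => by simp at h⟩
  obtain ⟨ρ0, h0⟩ := step 0 []
  obtain ⟨s, hs, -, h1, h2⟩ := dc (N := N)
    (I := fun n (x : Req T × List T) => (g n < p.1 → (p.2.2.app (g n)).Mem (β, x.1)) ∧
      Resp r p x.1 ∧ ∀ z, z ∈ x.1 → z.1 ∈ x.2)
    (R := fun _ x y => (∀ e, e ∈ x.2 → e ∈ y.2) ∧ Avoid r p.1 y.1 x.2)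
    (by simp only [all_eq, imp_eq]; fun_prop) (by simp only [all_eq, imp_eq]; fun_prop)
    (fun n x _ => by
      obtain ⟨ρ, h1, h2, h3⟩ := step (n + 1) x.2
      exact ⟨(ρ, ρ.map Prod.fst ++ x.2), ⟨h1, h2, fun z hz => List.mem_append_left _
        (List.mem_map_of_mem hz)⟩, fun e he => List.mem_append_right _ he, h3⟩)
    (x0 := (ρ0, ρ0.map Prod.fst)) ⟨h0.1, h0.2.1, fun z hz => List.mem_map_of_mem hz⟩
  have h3 : ∀ n n', n ≤ n' → ∀ e ∈ (s n).2, e ∈ (s n').2 := by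
    intro n n' h
    induction h with
    | refl => exact fun _ h => h
    | step _ ih => exact fun e he => (h2 _).1 e (ih e he)
  have h4 : ∀ n n', n < n' → ∀ z ∈ (s n).1, ∀ z' ∈ (s n').1, ¬ Same r p.1 z'.1 z.1 := by
    intro n n' h z hz z' hz'
    obtain ⟨k, rfl⟩ : ∃ k, n' = k + 1 := ⟨n' - 1, by omega⟩
    exact (h2 k).2 z' hz' _ (h3 n k (by omega) _ ((h1 n).2.2 z hz))
  obtain ⟨b, hb, Hb⟩ := choice (N := N)
    (R := fun (t : T) (b : ℕ) => ∀ n z, z ∈ (s n).1 → Same r p.1 z.1 t → z.2 < b)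
    (by simp only [all_eq, imp_eq]; fun_prop) (fun t => by
      by_cases h : ∃ n, ∃ z ∈ (s n).1, Same r p.1 z.1 t
      · obtain ⟨n, z, hz, h⟩ := h
        obtain ⟨b, hb⟩ := exists_colour_bound (s n).1
        refine ⟨b, fun n' z' hz' h' => ?_⟩
        rcases lt_trichotomy n n' with hn | rfl | hn
        · exact (h4 n n' hn z hz z' hz' (h'.trans hT h.symm)).elim
        · exact hb z' hz'
        · exact (h4 n' n hn z' hz' z hz (h.trans hT h'.symm)).elim
      · exact ⟨0, fun n z hz h' => (h ⟨n, z, hz, h'⟩).elim⟩)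
  obtain ⟨j, hj, Hj⟩ := (hT.ctble β).exists_inj
  have hf := p.2.1.def_app
  have hP := p.2.2.def_app
  let q : Cn N Ω T := (β, ⟨fun t => if r t < p.1 then p.2.1.app t else
      en (Free r p t) (2 * Nat.pair (j t) (b t + m)), by fun_prop⟩,
    ⟨fun γ => if γ < p.1 then p.2.2.app γ else K, by fun_prop⟩)
  have hen : ∀ t, StrictMono (en (Free r p t)) ∧ ∀ n, Free r p t (en (Free r p t) n) :=
    fun t => en_spec (hp.2.1 t)
  have q1 : ∀ t, r t < p.1 → q.2.1.app t = p.2.1.app t := fun t ht => if_pos ht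
  have q2 : ∀ t, p.1 ≤ r t → q.2.1.app t = en (Free r p t) (2 * Nat.pair (j t) (b t + m)) :=
    fun t ht => if_neg (not_lt.2 ht)
  have q3 : ∀ t, p.1 ≤ r t → b t + m ≤ q.2.1.app t := fun t ht => by
    rw [q2 t ht]
    have h1 := (hen t).1.le_apply (x := 2 * Nat.pair (j t) (b t + m))
    have h2 := Nat.right_le_pair (j t) (b t + m)
    omega
  have q4 : ∀ t c, Free r p t c → (∀ s, s ≤ t → p.1 ≤ r s → c < b s + m) → Free r q t c := by
    intro t c h h' s hs _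
    rcases lt_or_ge (r s) p.1 with h5 | h5
    · rw [q1 s h5]; exact h s hs h5
    · exact ((h' s hs h5).trans_le (q3 s h5)).ne'
  refine ⟨q, ⟨fun s t hst ht => ?_, fun t B => ?_, fun γ hγ => ?_⟩, rfl,
    ⟨hβ, q1, fun γ hγ => if_pos hγ⟩, fun s hs => by have := q3 s hs; omega,
    fun γ hγ => if_neg (not_lt.2 hγ)⟩
  · rcases lt_or_ge (r t) p.1 with h5 | h5
    · rw [q1 t h5, q1 s ((hT.mono hst.le).trans_lt h5)]
      exact hp.1 s t hst h5
    · rw [q2 t h5]
      rcases lt_or_ge (r s) p.1 with h6 | h6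
      · rw [q1 s h6]
        exact (hen t).2 _ s hst.le h6
      · rw [q2 s h6, free_eq hT ⟨s, le_rfl, hst.le, h6⟩]
        intro h
        have h7 := (hen t).1.injective h
        have h8 := (Nat.pair_eq_pair.1 (by omega :
          Nat.pair (j s) (b s + m) = Nat.pair (j t) (b t + m))).1
        exact hst.ne (Hj s t ((hT.mono hst.le).trans ht.le) ht.le h8)
  · refine ⟨en (Free r p t) (2 * B + 1), ?_, fun s hs _ => ?_⟩
    · have h1 := (hen t).1.le_apply (x := 2 * B + 1)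
      omega
    · rcases lt_or_ge (r s) p.1 with h6 | h6
      · rw [q1 s h6]
        exact (hen t).2 _ s hs h6
      · rw [q2 s h6, free_eq hT ⟨s, le_rfl, hs, h6⟩]
        intro h
        have h7 := (hen t).1.injective h
        omega
  · rcases lt_or_ge γ p.1 with h5 | h5
    · have h6 : q.2.2.app γ = p.2.2.app γ := if_pos h5
      rw [h6]
      refine ⟨(hp.2.2 γ h5).1, fun E => ?_⟩
      obtain ⟨k, hk⟩ := exists_avoid hT h4 E
      obtain ⟨n, hn, rfl⟩ := Hg γ h5 k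
      refine ⟨(s n).1, (h1 n).1 h5, fun z hz => q4 _ _ ((h1 n).2.1 z hz) fun t ht h7 => ?_,
        fun z hz e he h => hk n hn z hz e he (h.mono hβ)⟩
      have := Hb t n z hz ⟨t, ht, le_rfl, h7⟩
      omega
    · have h6 : q.2.2.app γ = K := if_neg (not_lt.2 h5)
      rw [h6]
      refine ⟨hK, fun E => ?_⟩
      obtain ⟨ρ, h7, h8, h9, h10⟩ := hK' E
      refine ⟨ρ, h7, fun z hz => q4 _ _ (h8 z hz) fun t _ _ => ?_, h9⟩
      have := h10 z hz
      omega

/-- Extension without a new promise. -/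
theorem extend' (hT : Tr N r) {p : Cn N Ω T} (hp : Valid r p) {β : Ω} (hβ : p.1 ≤ β) (m : ℕ) :
    ∃ q, Valid r q ∧ q.1 = β ∧ Le r q p ∧ ∀ s, p.1 ≤ r s → m ≤ q.2.1.app s := by
  obtain ⟨q, h⟩ := extend hT hp hβ m (K := ⟨fun z => z.2 = [], by fun_prop⟩)
    (fun γ ρ _ β _ => ⟨[], rfl, fun _ h => by simp at h⟩)
    (fun E => ⟨[], rfl, fun _ h => by simp at h, fun _ h => by simp at h, fun _ h => by simp at h⟩)
  exact ⟨q, h.1, h.2.1, h.2.2.1, h.2.2.2.1⟩

omit [Om N Ω] [DefLe N T] in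
theorem Free.of_large {p q : Cn N Ω T} {m : ℕ} (hqp : Le r q p)
    (hm : ∀ s, p.1 ≤ r s → m ≤ q.2.1.app s) {t : T} {c : ℕ} (h : Free r p t c) (hc : c < m) :
    Free r q t c := by
  intro s hs _
  rcases lt_or_ge (r s) p.1 with h5 | h5
  · rw [hqp.2.1 s h5]; exact h s hs h5
  · exact (hc.trans_le (hm s h5)).ne'

end Pool.Agent.P.MP_f1f3c4_lc
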