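import Mathlib.Order.Zorn
import Mathlib.Data.Set.Card
import Mathlib.Data.Set.Countable
import Mathlib.Data.Set.Finite.Lattice
import Mathlib.Data.List.GetD

/-!
The finite support iteration of Hechler forcing along a well order `K`, written as one poset.
A condition is a finite set of constraints on a point `x : K → ℕ → ℕ`.
-/

set_option linter.unusedSectionVars false

namespace Pool.Agent.P.MP_f1f3c4_lc

/-- Points. -/
abbrev Pt (K : Type) := K → ℕ → ℕ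

/-- Constraints: coordinate, stem, name for a function to be dominated. -/
abbrev Atom (K : Type) := K × List ℕ × (Pt K → ℕ → ℕ)

variable {K : Type} [LinearOrder K] [WellFoundedLT K]

/-- The point satisfies the constraint. -/
def Sat1 (a : Atom K) (x : Pt K) : Prop :=
  ∀ n, (n < a.2.1.length → x a.1 n = a.2.1.getD n 0) ∧ (a.2.1.length ≤ n → a.2.2 x n ≤ x a.1 n)

/-- The points that satisfy all constraints. -/
def sem (p : Set (Atom K)) : Set (Pt K) := {x | ∀ a ∈ p, Sat1 a x}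

/-- The name depends only on the coordinates below `b`. -/
def Dep (b : K) (f : Pt K → ℕ → ℕ) : Prop := ∀ x y, (∀ c, c < b → x c = y c) → f x = f y

/-- The stems agree on common coordinates. -/
def Agr (p q : Set (Atom K)) : Prop := ∀ a ∈ p, ∀ a' ∈ q, a.1 = a'.1 → a.2.1 = a'.2.1

/-- Conditions, relative to a notion of name. -/
def CdP (Q : K → (Pt K → ℕ → ℕ) → Prop) (p : Set (Atom K)) : Prop :=
  p.Finite ∧ Agr p p ∧ ∀ a ∈ p, Q a.1 a.2.2

/-- Names: every value is decided densely often. -/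
noncomputable def Nm : K → (Pt K → ℕ → ℕ) → Prop :=
  (wellFounded_lt (α := K)).fix fun b IH f => Dep b f ∧ ∀ n r,
    CdP (fun c g => ∃ h : c < b, IH c h g) r → ∃ r', CdP (fun c g => ∃ h : c < b, IH c h g) r' ∧
      sem r' ⊆ sem r ∧ ∀ x ∈ sem r', ∀ y ∈ sem r', f x n = f y n

/-- Conditions. -/
def Cd (p : Set (Atom K)) : Prop := CdP Nm p

/-- Restriction to the coordinates below `b`. -/
def res (p : Set (Atom K)) (b : K) : Set (Atom K) := {a ∈ p | a.1 < b}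

theorem nm_iff {b : K} {f : Pt K → ℕ → ℕ} : Nm b f ↔ Dep b f ∧ ∀ n r, Cd r → (∀ a ∈ r, a.1 < b) →
    ∃ r', Cd r' ∧ (∀ a ∈ r', a.1 < b) ∧ sem r' ⊆ sem r ∧
      ∀ x ∈ sem r', ∀ y ∈ sem r', f x n = f y n := by
  have h : ∀ r, CdP (fun c g => ∃ _ : c < b, Nm c g) r ↔ Cd r ∧ ∀ a ∈ r, a.1 < b := fun r =>
    ⟨fun h => ⟨⟨h.1, h.2.1, fun a ha => (h.2.2 a ha).2⟩, fun a ha => (h.2.2 a ha).1⟩,
      fun h => ⟨h.1.1, h.1.2.1, fun a ha => ⟨h.2 a ha, h.1.2.2 a ha⟩⟩⟩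
  rw [Nm, WellFounded.fix_eq]
  refine and_congr Iff.rfl (forall_congr' fun n => forall_congr' fun r => ?_)
  change (CdP (fun c g => ∃ _ : c < b, Nm c g) r → ∃ r', CdP (fun c g => ∃ _ : c < b, Nm c g) r' ∧
    _) ↔ _
  simp only [h, and_imp, and_assoc]

theorem Nm.dep {b : K} {f : Pt K → ℕ → ℕ} (h : Nm b f) : Dep b f := (nm_iff.1 h).1

theorem nm_zero (b : K) : Nm b (fun _ _ => 0) :=
  nm_iff.2 ⟨fun _ _ _ => rfl, fun _ r h h' => ⟨r, h, h', subset_rfl, fun _ _ _ _ => rfl⟩⟩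

theorem sem_mono {p q : Set (Atom K)} (h : p ⊆ q) : sem q ⊆ sem p := fun _ hx a ha => hx a (h ha)

theorem sem_union {p q : Set (Atom K)} : sem (p ∪ q) = sem p ∩ sem q :=
  Set.ext fun _ => ⟨fun h => ⟨fun a ha => h a (Or.inl ha), fun a ha => h a (Or.inr ha)⟩,
    fun h a ha => ha.elim (h.1 a) (h.2 a)⟩

theorem Cd.subset {p q : Set (Atom K)} (h : Cd q) (hpq : p ⊆ q) : Cd p :=
  ⟨h.1.subset hpq, fun a ha a' ha' => h.2.1 a (hpq ha) a' (hpq ha'), fun a ha => h.2.2 a (hpq ha)⟩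

theorem Cd.res {p : Set (Atom K)} (h : Cd p) (b : K) : Cd (res p b) := h.subset fun _ h => h.1

theorem Cd.union {p q : Set (Atom K)} (hp : Cd p) (hq : Cd q) (h : Agr p q) : Cd (p ∪ q) := by
  refine ⟨hp.1.union hq.1, ?_, fun a ha => ha.elim (hp.2.2 a) (hq.2.2 a)⟩
  rintro a (ha | ha) a' (ha' | ha') h'
  exacts [hp.2.1 a ha a' ha' h', h a ha a' ha' h', (h a' ha' a ha h'.symm).symm,
    hq.2.1 a ha a' ha' h']

theorem cd_empty : Cd (∅ : Set (Atom K)) :=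
  ⟨Set.finite_empty, fun _ h => h.elim, fun _ h => h.elim⟩

theorem cd_single {a : Atom K} (h : Nm a.1 a.2.2) : Cd {a} :=
  ⟨Set.finite_singleton _, fun _ h _ h' _ => by rw [h, h'], fun _ h' => h' ▸ h⟩

theorem Sat1.congr {a : Atom K} {x y : Pt K} (h : Sat1 a x) (ha : Dep a.1 a.2.2)
    (hxy : ∀ c, c ≤ a.1 → x c = y c) : Sat1 a y := by
  intro n
  rw [← hxy _ le_rfl, ← ha x y fun c hc => hxy c hc.le]
  exact h n

theorem exists_point {r : Set (Atom K)} (hr : Cd r) (B : K → Prop) (hB : ∀ c c', c' ≤ c → B c → B c')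
    {x : Pt K} (hx : ∀ a ∈ r, B a.1 → Sat1 a x) : ∃ y ∈ sem r, ∀ c, B c → x c = y c := by
  classical
  have h1 : ∀ (c : K) (y : Pt K) (n : ℕ), ∃ z, ∀ a ∈ r, a.1 = c →
      (n < a.2.1.length → z = a.2.1.getD n 0) ∧ (a.2.1.length ≤ n → a.2.2 y n ≤ z) := by
    intro c y n
    by_cases h : ∃ a ∈ r, a.1 = c ∧ n < a.2.1.length
    · obtain ⟨a, h1, h2, h3⟩ := h
      refine ⟨a.2.1.getD n 0, fun a' h4 h5 => ?_⟩
      rw [hr.2.1 a' h4 a h1 (h5.trans h2.symm)]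
      exact ⟨fun _ => rfl, fun h => absurd h3 (not_lt.2 h)⟩
    · obtain ⟨z, hz⟩ := (hr.1.image fun a => a.2.2 y n).bddAbove
      exact ⟨z, fun a h1 h2 => ⟨fun h3 => (h ⟨a, h1, h2, h3⟩).elim, fun _ => hz ⟨a, h1, rfl⟩⟩⟩
  choose G hG using h1
  let y : Pt K := (wellFounded_lt (α := K)).fix fun c IH =>
    if B c then x c else G c fun c' => if h : c' < c then IH c' h else fun _ => 0
  have hy : ∀ c, y c = if B c then x c else G c fun c' => if c' < c then y c' else fun _ => 0 :=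
    fun c => WellFounded.fix_eq _ _ c
  have h2 : ∀ c, B c → x c = y c := fun c hc => by rw [hy, if_pos hc]
  refine ⟨y, fun a ha => ?_, h2⟩
  by_cases h : B a.1
  · exact (hx a ha h).congr (hr.2.2 a ha).dep fun c hc => h2 c (hB _ _ hc h)
  · intro n
    have h3 := hG a.1 (fun c' => if c' < a.1 then y c' else fun _ => 0) n a ha rfl
    rw [(hr.2.2 a ha).dep _ y fun c hc => if_pos hc] at h3
    rw [hy a.1, if_neg h]
    exact h3

theorem Cd.nonempty {r : Set (Atom K)} (hr : Cd r) : ∃ y, y ∈ sem r :=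
  (exists_point hr (fun _ => False) (fun _ _ _ h => h) (x := fun _ _ => 0)
    fun _ _ h => h.elim).imp fun _ h => h.1

theorem exists_point_res {r : Set (Atom K)} (hr : Cd r) {b : K} {x : Pt K}
    (hx : x ∈ sem (res r b)) : ∃ y ∈ sem r, ∀ c, c < b → x c = y c :=
  exists_point hr (· < b) (fun _ _ h h' => h.trans_lt h') fun a h h' => hx a ⟨h, h'⟩

theorem sem_res_subset {r q : Set (Atom K)} (hr : Cd r) (hq : Cd q) {b : K}
    (hb : ∀ a ∈ q, a.1 < b) (h : sem r ⊆ sem q) : sem (res r b) ⊆ sem q := by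
  intro x hx a ha
  obtain ⟨y, h1, h2⟩ := exists_point_res hr hx
  exact (h h1 a ha).congr (hq.2.2 a ha).dep fun c hc => (h2 c (hc.trans_lt (hb a ha))).symm

/-- Finitely many values of names can be decided without changing the upper part. -/
theorem decide_values {b : K} {F : Set ((Pt K → ℕ → ℕ) × ℕ)} (hF : F.Finite)
    (hN : ∀ z ∈ F, Nm b z.1) {r : Set (Atom K)} (hr : Cd r) :
    ∃ r', Cd r' ∧ sem r' ⊆ sem r ∧ (∀ a, b ≤ a.1 → (a ∈ r' ↔ a ∈ r)) ∧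
      ∀ z ∈ F, ∀ x ∈ sem (res r' b), ∀ y ∈ sem (res r' b), z.1 x z.2 = z.1 y z.2 := by
  have h1 : ∃ r0, Cd r0 ∧ (∀ a ∈ r0, a.1 < b) ∧ sem r0 ⊆ sem (res r b) ∧
      ∀ z ∈ F, ∀ x ∈ sem r0, ∀ y ∈ sem r0, z.1 x z.2 = z.1 y z.2 := by
    induction F, hF using Set.Finite.induction_on with
    | empty => exact ⟨_, hr.res b, fun _ h => h.2, subset_rfl, fun _ h => h.elim⟩
    | @insert z F _ _ ih =>
      obtain ⟨r0, h1, h2, h3, h4⟩ := ih fun z hz => hN z (Or.inr hz)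
      obtain ⟨r1, k1, k2, k3, k4⟩ := (nm_iff.1 (hN z (Or.inl rfl))).2 z.2 r0 h1 h2
      refine ⟨r1, k1, k2, k3.trans h3, ?_⟩
      rintro w (rfl | hw)
      exacts [k4, fun x hx y hy => h4 w hw x (k3 hx) y (k3 hy)]
  obtain ⟨r0, h1, h2, h3, h4⟩ := h1
  refine ⟨r0 ∪ {a ∈ r | b ≤ a.1}, h1.union (hr.subset fun _ h => h.1) fun a ha a' ha' h =>
    absurd (h ▸ h2 a ha) (not_lt.2 ha'.2), fun x hx a ha => ?_, fun a ha => ?_, fun z hz x hx y hy =>
    h4 z hz x (fun a ha => hx a ⟨Or.inl ha, h2 a ha⟩) y fun a ha => hy a ⟨Or.inl ha, h2 a ha⟩⟩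
  · rcases lt_or_ge a.1 b with h | h
    exacts [h3 (fun a ha => hx a (Or.inl ha)) a ⟨ha, h⟩, hx a (Or.inr ⟨ha, h⟩)]
  · exact ⟨fun h => h.elim (fun h => absurd (h2 a h) (not_lt.2 ha)) fun h => h.1,
      fun h => Or.inr ⟨h, ha⟩⟩

/-- The stem of `r` at `b` is `s`. -/
def Stem (r : Set (Atom K)) (b : K) (s : List ℕ) : Prop := ∃ f, (b, s, f) ∈ r

theorem Stem.eq {r : Set (Atom K)} {b : K} {s : List ℕ} (h : Stem r b s) {x : Pt K}
    (hx : x ∈ sem r) {n : ℕ} (hn : n < s.length) : x b n = s.getD n 0 :=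
  h.elim fun _ h => (hx _ h n).1 hn

theorem Cd.insert {r : Set (Atom K)} (hr : Cd r) {b : K} {s : List ℕ} (h : Stem r b s)
    {f : Pt K → ℕ → ℕ} (hf : Nm b f) : Cd ({(b, s, f)} ∪ r) := by
  obtain ⟨g, hg⟩ := h
  exact (cd_single hf).union hr fun a ha a' ha' h => by
    rw [ha] at h ⊢
    exact hr.2.1 _ hg a' ha' h

theorem exists_stem {r : Set (Atom K)} (hr : Cd r) (b : K) :
    ∃ r' s, Cd r' ∧ sem r' ⊆ sem r ∧ Stem r' b s := by
  by_cases h : ∃ a ∈ r, a.1 = b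
  · obtain ⟨a, h, rfl⟩ := h
    exact ⟨r, a.2.1, hr, subset_rfl, a.2.2, h⟩
  · exact ⟨{(b, [], fun _ _ => 0)} ∪ r, [], (cd_single (nm_zero b)).union hr fun a ha a' ha' h' =>
      (h ⟨a', ha', by rw [← h', ha]⟩).elim, sem_mono Set.subset_union_right, _, Or.inl rfl⟩

theorem extend_stem {P : ℕ → Prop} (hP : ∀ m, ∃ j, m ≤ j ∧ P j) {r : Set (Atom K)} (hr : Cd r)
    {b : K} {s : List ℕ} (hs : Stem r b s) :
    ∃ r' j, Cd r' ∧ sem r' ⊆ sem r ∧ P j ∧ Stem r' b (s ++ [j]) := by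
  obtain ⟨r1, h1, h2, h3, h4⟩ := decide_values (b := b)
    ((hr.1.subset fun _ h => h.1 : {a ∈ r | a.1 = b}.Finite).image fun a => (a.2.2, s.length))
    (by rintro _ ⟨a, ⟨h1, rfl⟩, rfl⟩; exact hr.2.2 a h1) hr
  obtain ⟨x0, hx0⟩ := (h1.res b).nonempty
  obtain ⟨m, hm⟩ := (hr.1.image fun a => a.2.2 x0 s.length).bddAbove
  obtain ⟨j, h5, h6⟩ := hP m
  obtain ⟨g, hg⟩ := hs
  refine ⟨{a ∈ r1 | a.1 ≠ b} ∪ (fun a => (b, s ++ [j], a.2.2)) '' {a ∈ r | a.1 = b}, j,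
    (h1.subset fun _ h => h.1).union ⟨(hr.1.subset fun _ h => h.1).image _, ?_, ?_⟩ ?_,
    fun x hx => h2 fun a ha => ?_, h6, g, Or.inr ⟨_, ⟨hg, rfl⟩, rfl⟩⟩
  · rintro _ ⟨a, -, rfl⟩ _ ⟨a', -, rfl⟩ _
    rfl
  · rintro _ ⟨a, ⟨h7, rfl⟩, rfl⟩
    exact hr.2.2 a h7
  · rintro a ha _ ⟨a', -, rfl⟩ h
    exact (ha.2 h).elim
  · by_cases h : a.1 = b
    swap
    · exact hx a (Or.inl ⟨ha, h⟩)
    have h7 := (h3 a h.ge).1 ha
    have h8 := hx _ (Or.inr ⟨a, ⟨h7, h⟩, rfl⟩)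
    have h9 := h4 _ ⟨a, ⟨h7, h⟩, rfl⟩ x (fun a ha => hx a (Or.inl ⟨ha.1, ha.2.ne⟩)) x0 hx0
    have h10 := hm ⟨a, h7, rfl⟩
    intro n
    have h11 := h8 n
    rw [hr.2.1 a h7 _ hg h, h]
    simp only [List.length_append, List.length_singleton] at h9 h10 h11 ⊢
    refine ⟨fun hn => ?_, fun hn => ?_⟩
    · rw [h11.1 (by omega), List.getD_append _ _ _ _ hn]
    · rcases hn.eq_or_lt with rfl | hn
      · rw [h11.1 (by omega), List.getD_append_right _ _ _ _ le_rfl]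
        simp only [Nat.sub_self, List.getD_cons_zero]
        omega
      · exact h11.2 hn

theorem extend_stems {P : ℕ → Prop} (hP : ∀ m, ∃ j, m ≤ j ∧ P j) {r : Set (Atom K)} (hr : Cd r)
    {b : K} {s : List ℕ} (hs : Stem r b s) (k : ℕ) :
    ∃ r' s', Cd r' ∧ sem r' ⊆ sem r ∧ Stem r' b s' ∧ s'.length = s.length + k ∧
      ∀ x ∈ sem r', ∀ n, s.length ≤ n → n < s.length + k → P (x b n) := by
  induction k with
  | zero => exact ⟨r, s, hr, subset_rfl, hs, rfl, fun _ _ _ h h' => by omega⟩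
  | succ k ih =>
    obtain ⟨r1, s1, h1, h2, h3, h4, h5⟩ := ih
    obtain ⟨r2, j, k1, k2, k3, k4⟩ := extend_stem hP h1 h3
    refine ⟨r2, _, k1, k2.trans h2, k4, by simp [h4, add_assoc], fun x hx n h6 h7 => ?_⟩
    rcases (by omega : n = s.length + k ∨ n < s.length + k) with rfl | h
    · rw [k4.eq hx (by simp [h4]), List.getD_append_right _ _ _ _ h4.le, h4]
      simpa using k3
    · exact h5 x (k2 hx) n h6 h

theorem long_stem {r : Set (Atom K)} (hr : Cd r) (b : K) (k : ℕ) :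
    ∃ r' s, Cd r' ∧ sem r' ⊆ sem r ∧ Stem r' b s ∧ k ≤ s.length := by
  obtain ⟨r1, s, h1, h2, h3⟩ := exists_stem hr b
  obtain ⟨r2, s', k1, k2, k3, k4, -⟩ :=
    extend_stems (P := fun _ => True) (fun m => ⟨m, le_rfl, trivial⟩) h1 h3 k
  exact ⟨r2, s', k1, k2.trans h2, k3, by omega⟩

theorem decide_atom {r : Set (Atom K)} (hr : Cd r) {a : Atom K} (ha : Nm a.1 a.2.2) :
    ∃ r', Cd r' ∧ sem r' ⊆ sem r ∧ ((∀ x ∈ sem r', Sat1 a x) ∨ ∀ x ∈ sem r', ¬ Sat1 a x) := by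
  obtain ⟨r1, s, h1, h2, ⟨g, h3⟩, h4⟩ := long_stem hr a.1 a.2.1.length
  obtain ⟨r2, k1, k2, k3, k4⟩ := decide_values (b := a.1)
    ((Set.finite_lt_nat s.length).image fun n => (a.2.2, n)) (by rintro _ ⟨n, -, rfl⟩; exact ha) h1
  have h5 : Stem r2 a.1 s := ⟨g, (k3 (a.1, s, g) le_rfl).2 h3⟩
  by_cases h : ∃ x ∈ sem r2, Sat1 a x
  · obtain ⟨x0, h6, h7⟩ := h
    refine ⟨_, k1.insert h5 ha, ((sem_mono Set.subset_union_right).trans k2).trans h2,
      Or.inl fun x hx n => ?_⟩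
    have h8 : x ∈ sem r2 := sem_mono Set.subset_union_right hx
    rcases lt_or_ge n s.length with hn | hn
    · have h9 : a.2.2 x n = a.2.2 x0 n := k4 (a.2.2, n) ⟨n, hn, rfl⟩ x
        (sem_mono (fun _ h => h.1) h8) x0 (sem_mono (fun _ h => h.1) h6)
      rw [h5.eq h8 hn, ← h5.eq h6 hn, h9]
      exact h7 n
    · exact ⟨fun h => by omega, fun _ => (hx _ (Or.inl rfl) n).2 hn⟩
  · exact ⟨r2, k1, k2.trans h2, Or.inr fun x hx h' => h ⟨x, hx, h'⟩⟩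

theorem decide_cond {r q : Set (Atom K)} (hr : Cd r) (hq : Cd q) :
    ∃ r', Cd r' ∧ sem r' ⊆ sem r ∧ (sem r' ⊆ sem q ∨ ∀ x ∈ sem r', x ∉ sem q) := by
  have h : ∀ F : Set (Atom K), F.Finite → F ⊆ q →
      ∃ r', Cd r' ∧ sem r' ⊆ sem r ∧ (sem r' ⊆ sem F ∨ ∀ x ∈ sem r', x ∉ sem F) := by
    intro F hF
    induction F, hF using Set.Finite.induction_on with
    | empty => exact fun _ => ⟨r, hr, subset_rfl, Or.inl fun _ _ _ h => h.elim⟩
    | @insert a F _ _ ih =>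
      intro h
      obtain ⟨r1, h1, h2, h3⟩ := ih fun _ h' => h (Or.inr h')
      obtain ⟨r2, k1, k2, k3⟩ := decide_atom h1 (hq.2.2 a (h (Or.inl rfl)))
      refine ⟨r2, k1, k2.trans h2, ?_⟩
      rcases k3 with k3 | k3
      · rcases h3 with h3 | h3
        · exact Or.inl fun x hx a' ha' => ha'.elim (fun h => h ▸ k3 x hx) (h3 (k2 hx) a')
        · exact Or.inr fun x hx h' => h3 x (k2 hx) fun a' ha' => h' a' (Or.inr ha')
      · exact Or.inr fun x hx h' => k3 x hx (h' a (Or.inl rfl))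
  exact h q hq.1 subset_rfl

/-- The first condition of a predense sequence that a point satisfies is densely decided. -/
theorem decide_first {q : ℕ → Set (Atom K)} (hq : ∀ i, Cd (q i)) {r : Set (Atom K)} (hr : Cd r)
    {i : ℕ} (hi : sem r ⊆ sem (q i)) :
    ∃ r' j, Cd r' ∧ sem r' ⊆ sem r ∧ sem r' ⊆ sem (q j) ∧
      ∀ j', j' < j → ∀ x ∈ sem r', x ∉ sem (q j') := by
  have h : ∀ k, ∃ r', Cd r' ∧ sem r' ⊆ sem r ∧
      ∀ j, j < k → (sem r' ⊆ sem (q j) ∨ ∀ x ∈ sem r', x ∉ sem (q j)) := by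
    intro k
    induction k with
    | zero => exact ⟨r, hr, subset_rfl, fun _ h => by omega⟩
    | succ k ih =>
      obtain ⟨r1, h1, h2, h3⟩ := ih
      obtain ⟨r2, k1, k2, k3⟩ := decide_cond h1 (hq k)
      refine ⟨r2, k1, k2.trans h2, fun j hj => ?_⟩
      rcases (Nat.le_of_lt_succ hj).eq_or_lt with rfl | h
      exacts [k3, (h3 j h).imp k2.trans fun h x hx => h x (k2 hx)]
  classical
  obtain ⟨r', h1, h2, h3⟩ := h i
  have h4 : ∃ j, sem r' ⊆ sem (q j) := ⟨i, h2.trans hi⟩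
  exact ⟨r', Nat.find h4, h1, h2, Nat.find_spec h4, fun j hj =>
    (h3 j (hj.trans_le (Nat.find_min' h4 (h2.trans hi)))).resolve_left (Nat.find_min h4 hj)⟩

theorem countable_of_conflict {I A Y : Type} [Countable Y] (φ : I → Set (A × Y))
    (h1 : ∀ i, (φ i).Finite) (h2 : ∀ i a y y', (a, y) ∈ φ i → (a, y') ∈ φ i → y = y')
    (h : ∀ i j, i ≠ j → ∃ a y y', (a, y) ∈ φ i ∧ (a, y') ∈ φ j ∧ y ≠ y') : Countable I := by
  have key : ∀ n m : ℕ, ∀ s : Set (A × Y), s.Finite → n ≤ s.ncard + m →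
      {i | (φ i).ncard ≤ n ∧ s ⊆ φ i}.Countable := by
    intro n m
    induction m with
    | zero =>
      intro s hs hn
      refine Set.Subsingleton.countable fun i hi j hj => ?_
      by_contra hij
      obtain ⟨a, y, y', h3, h4, h5⟩ := h i j hij
      rw [← Set.eq_of_subset_of_ncard_le hi.2 (hi.1.trans hn) (h1 i)] at h3
      exact h5 (h2 j a y y' (hj.2 h3) h4)
    | succ m ih =>
      intro s hs hn
      rcases Set.eq_empty_or_nonempty {i | (φ i).ncard ≤ n ∧ s ⊆ φ i} with h0 | ⟨i0, h0⟩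
      · rw [h0]; exact Set.countable_empty
      have h3 : ({i0} ∪ ⋃ z ∈ φ i0, ⋃ y, ⋃ _ : (z.1, y) ∉ s,
          {i | (φ i).ncard ≤ n ∧ insert (z.1, y) s ⊆ φ i}).Countable := by
        refine (Set.countable_singleton _).union ((h1 i0).countable.biUnion fun z _ =>
          Set.countable_iUnion fun y => Set.countable_iUnion fun hy => ih _ (hs.insert _) ?_)
        rw [Set.ncard_insert_of_notMem hy hs]
        omega
      refine h3.mono fun i hi => ?_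
      by_cases hii : i0 = i
      · exact Or.inl hii.symm
      obtain ⟨a, y, y', h4, h5, h6⟩ := h i0 i hii
      simp only [Set.mem_union, Set.mem_iUnion]
      exact Or.inr ⟨(a, y), h4, y', fun h7 => h6 (h2 i0 a y y' h4 (h0.2 h7)), hi.1,
        Set.insert_subset h5 hi.2⟩
  refine Set.countable_univ_iff.1 ((Set.countable_iUnion fun n =>
    key n n ∅ Set.finite_empty (by simp)).mono fun i _ => ?_)
  exact Set.mem_iUnion.2 ⟨(φ i).ncard, le_rfl, Set.empty_subset _⟩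

theorem countable_of_not_agr {I : Type} (p : I → Set (Atom K)) (hp : ∀ i, Cd (p i))
    (h : ∀ i j, i ≠ j → ¬ Agr (p i) (p j)) : Countable I := by
  refine countable_of_conflict (fun i => (fun a => (a.1, a.2.1)) '' p i)
    (fun i => (hp i).1.image _) ?_ fun i j hij => ?_
  · rintro i c s s' ⟨a, h1, h2⟩ ⟨a', h3, h4⟩
    obtain ⟨rfl, rfl⟩ := Prod.mk.inj h2
    obtain ⟨h5, rfl⟩ := Prod.mk.inj h4
    exact (hp i).2.1 a h1 a' h3 h5.symm
  · have := h i j hij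
    unfold Agr at this
    push Not at this
    obtain ⟨a, h1, a', h2, h3, h4⟩ := this
    exact ⟨a.1, _, _, ⟨a, h1, rfl⟩, ⟨a', h2, by rw [h3]⟩, h4⟩

/-- Compatibility. -/
def Cmp (p q : Set (Atom K)) : Prop := ∃ r, Cd r ∧ sem r ⊆ sem p ∧ sem r ⊆ sem q

theorem Agr.cmp {p q : Set (Atom K)} (h : Agr p q) (hp : Cd p) (hq : Cd q) : Cmp p q :=
  ⟨_, hp.union hq h, sem_mono Set.subset_union_left, sem_mono Set.subset_union_right⟩

theorem exists_predense {D : Set (Atom K) → Prop}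
    (h : ∀ p, Cd p → ∃ r, Cd r ∧ D r ∧ sem r ⊆ sem p) :
    ∃ q : ℕ → Set (Atom K), (∀ i, Cd (q i) ∧ D (q i)) ∧ ∀ p, Cd p → ∃ i, Cmp p (q i) := by
  obtain ⟨A, hA⟩ := zorn_subset {A : Set (Set (Atom K)) | (∀ p ∈ A, Cd p ∧ D p) ∧
      A.Pairwise fun p q => ¬ Cmp p q} (by
    intro c hc hch
    refine ⟨⋃₀ c, ⟨fun p ⟨A, hA, hp⟩ => (hc hA).1 p hp, ?_⟩,
      fun A hA => Set.subset_sUnion_of_mem hA⟩
    rintro p ⟨A, hA, hp⟩ q ⟨B, hB, hq⟩ hpq
    rcases hch.total hA hB with h | h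
    exacts [(hc hB).2 (h hp) hq hpq, (hc hA).2 hp (h hq) hpq])
  have h1 : ∀ p, Cd p → ∃ r ∈ A, Cmp p r := by
    intro p hp
    obtain ⟨r, h1, h2, h3⟩ := h p hp
    by_contra hcon
    push Not at hcon
    have h4 : ∀ a ∈ A, ¬ Cmp r a := fun a ha ⟨s, hs, h1, h2⟩ => hcon a ha ⟨s, hs, h1.trans h3, h2⟩
    have h5 : insert r A ⊆ A := hA.le_of_ge ⟨fun p hp => hp.elim (fun h => h ▸ ⟨h1, h2⟩)
      (hA.prop.1 p), hA.prop.2.insert fun a ha _ =>
        ⟨h4 a ha, fun ⟨s, hs, h2, h3⟩ => h4 a ha ⟨s, hs, h3, h2⟩⟩⟩ (Set.subset_insert _ _)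
    exact h4 r (h5 (Set.mem_insert _ _)) ⟨r, h1, subset_rfl, subset_rfl⟩
  have h2 : A.Countable := countable_of_not_agr (fun p : A => p.1) (fun p => (hA.prop.1 _ p.2).1)
    fun p q hpq h => hA.prop.2 p.2 q.2 (fun h => hpq (Subtype.ext h))
      (h.cmp (hA.prop.1 _ p.2).1 (hA.prop.1 _ q.2).1)
  obtain ⟨r, hr, -⟩ := h1 ∅ cd_empty
  obtain ⟨q, rfl⟩ := h2.exists_eq_range ⟨r, hr⟩
  refine ⟨q, fun i => hA.prop.1 _ ⟨i, rfl⟩, fun p hp => ?_⟩
  obtain ⟨_, ⟨i, rfl⟩, h⟩ := h1 p hp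
  exact ⟨i, h⟩

/-- A dominating real appears at a late coordinate. -/
theorem dominate {I : Type} (hK : ∀ g : I × ℕ × ℕ → K, ∃ b, ∀ z, g z < b) [Nonempty K]
    {W : I → ℕ → ℕ → Set (Atom K) → Prop}
    (h : ∀ α n p, Cd p → ∃ r, Cd r ∧ (∃ k, W α n k r) ∧ sem r ⊆ sem p) :
    ∃ b : K, ∀ α p, Cd p → ∃ q m, Cd q ∧ sem q ⊆ sem p ∧ ∀ n, m ≤ n → ∀ j r, Cd r →
      sem r ⊆ sem q → (∀ x ∈ sem r, x b n = j) →
      ∃ r' q' k, Cd r' ∧ Cd q' ∧ sem r' ⊆ sem r ∧ sem r' ⊆ sem q' ∧ k ≤ j ∧ W α n k q' := by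
  classical
  choose q h1 h2 using fun α n => exists_predense (h α n)
  choose v hv using fun α n i => (h1 α n i).2
  choose c hc using fun z : I × ℕ × ℕ => ((h1 z.1 z.2.1 z.2.2).1.1.image Prod.fst).bddAbove
  obtain ⟨b, hb⟩ := hK c
  have h3 : ∀ α n i, ∀ a ∈ q α n i, a.1 < b := fun α n i a ha =>
    (hc (α, n, i) ⟨a, ha, rfl⟩).trans_lt (hb _)
  let f : I → Pt K → ℕ → ℕ := fun α x n =>
    if h : ∃ i, x ∈ sem (q α n i) then v α n (Nat.find h) else 0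
  have h4 : ∀ α n r, Cd r → ∃ r' i, Cd r' ∧ sem r' ⊆ sem r ∧ sem r' ⊆ sem (q α n i) ∧
      ∀ x ∈ sem r', f α x n = v α n i := by
    intro α n r hr
    obtain ⟨i, r1, k1, k2, k3⟩ := h2 α n r hr
    obtain ⟨r2, j, l1, l2, l3, l4⟩ := decide_first (fun i => (h1 α n i).1) k1 k3
    refine ⟨r2, j, l1, l2.trans k2, l3, fun x hx => ?_⟩
    have h5 : ∃ i, x ∈ sem (q α n i) := ⟨j, l3 hx⟩
    simp only [f, dif_pos h5]
    rw [(Nat.find_eq_iff h5).2 ⟨l3 hx, fun j' hj => l4 j' hj x hx⟩]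
  have h5 : ∀ α, Dep b (f α) := by
    intro α x y hxy
    funext n
    have h6 : ∀ i, x ∈ sem (q α n i) ↔ y ∈ sem (q α n i) := fun i =>
      forall₂_congr fun a ha => ⟨fun h => h.congr ((h1 α n i).1.2.2 a ha).dep fun c hc =>
        hxy c (hc.trans_lt (h3 α n i a ha)), fun h => h.congr ((h1 α n i).1.2.2 a ha).dep
          fun c hc => (hxy c (hc.trans_lt (h3 α n i a ha))).symm⟩
    simp only [f, h6]
  have h6 : ∀ α, Nm b (f α) := fun α => nm_iff.2 ⟨h5 α, fun n r hr hb => by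
    obtain ⟨r', i, k1, k2, -, k3⟩ := h4 α n r hr
    have h6 : ∀ x ∈ sem (res r' b), f α x n = v α n i := fun x hx => by
      obtain ⟨y, h6, h7⟩ := exists_point_res k1 hx
      rw [h5 α x y h7, k3 y h6]
    exact ⟨res r' b, k1.res b, fun _ h => h.2, sem_res_subset k1 hr hb k2,
      fun x hx y hy => (h6 x hx).trans (h6 y hy).symm⟩⟩
  refine ⟨b, fun α p hp => ?_⟩
  obtain ⟨p1, s, k1, k2, k3⟩ := exists_stem hp b
  refine ⟨_, s.length, k1.insert k3 (h6 α), (sem_mono Set.subset_union_right).trans k2,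
    fun n hn j r hr h7 h8 => ?_⟩
  obtain ⟨r', i, l1, l2, l3, l4⟩ := h4 α n r hr
  obtain ⟨x, hx⟩ := l1.nonempty
  refine ⟨r', _, _, l1, (h1 α n i).1, l2, l3, ?_, hv α n i⟩
  rw [← l4 x hx, ← h8 x (l2 hx)]
  exact (h7 (l2 hx) _ (Or.inl rfl) n).2 hn

end Pool.Agent.P.MP_f1f3c4_lc
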