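import Mathlib.Order.Lattice.Nat
import Mathlib.Algebra.BigOperators.Intervals
import Mathlib.Algebra.Order.BigOperators.Group.Finset
import Pool.Agent.Lib.Typed.Force
import Pool.Agent.P.MP_f1f3c4_lc.Hechler

/-!
The facts about the iteration that are needed, proved in the universe and written so that they
transfer to an elementary submodel.
-/

set_option synthInstance.maxSize 16384
set_option linter.unusedSectionVars false

namespace Pool.Agent.P.MP_f1f3c4_lc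

open ZFSet Pool.Agent.Lib.Forcing Pool.Agent.Lib.Typed Pool.Agent.P.MP_af0a18_lc

/-- A coherent family of finite-to-one functions. -/
theorem exists_coherent {Ω : Type} [LinearOrder Ω] [WellFoundedLT Ω]
    (hc : ∀ α : Ω, ∃ a : ℕ → Ω, ∀ ξ, ξ ≤ α → ∃ n, a n = ξ) :
    ∃ e : Ω → Ω → ℕ, (∀ α k, {ξ | ξ < α ∧ e α ξ < k}.Finite) ∧
      ∀ α β, β < α → {ξ | ξ < β ∧ e β ξ ≠ e α ξ}.Finite := by
  classical
  choose a ha using hc
  let n : Ω → Ω → ℕ := fun α ξ => sInf {n | ξ ≤ a α n ∧ a α n < α}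
  let e : Ω → Ω → ℕ := (wellFounded_lt (α := Ω)).fix fun α IH ξ =>
    max (n α ξ) (if h : a α (n α ξ) < α then IH _ h ξ else 0)
  have hn : ∀ α ξ, ξ < α → ξ ≤ a α (n α ξ) ∧ a α (n α ξ) < α := fun α ξ h =>
    Nat.sInf_mem (s := {n | ξ ≤ a α n ∧ a α n < α})
      ((ha α ξ h.le).imp fun _ h' => ⟨h'.ge, h'.trans_lt h⟩)
  have he : ∀ α ξ, ξ < α → e α ξ = max (n α ξ) (e (a α (n α ξ)) ξ) := fun α ξ h => by
    have h1 : e α = fun ξ => max (n α ξ)
      (if _ : a α (n α ξ) < α then e (a α (n α ξ)) ξ else 0) := WellFounded.fix_eq _ _ α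
    rw [h1]
    exact congrArg _ (dif_pos (hn α ξ h).2)
  have h1 : ∀ α k, {ξ | ξ < α ∧ e α ξ < k}.Finite := by
    intro α
    induction α using WellFoundedLT.induction with
    | ind α ih =>
      intro k
      refine (((Set.finite_lt_nat k).subset fun i h => h.1 :
        {i | i < k ∧ a α i < α}.Finite).biUnion fun i hi =>
          (ih _ hi.2 k).insert (a α i)).subset fun ξ hξ => ?_
      have h2 := hξ.2
      rw [he α ξ hξ.1, max_lt_iff] at h2
      exact Set.mem_biUnion (x := n α ξ) ⟨h2.1, (hn α ξ hξ.1).2⟩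
        ((hn α ξ hξ.1).1.eq_or_lt.imp_right fun h => ⟨h, h2.2⟩)
  refine ⟨e, h1, fun α => ?_⟩
  induction α using WellFoundedLT.induction with
  | ind α ih =>
    intro β hβ
    obtain ⟨m, hm⟩ := ha α β hβ.le
    have h2 : ∀ γ, γ < α → {ξ | ξ < γ ∧ ξ < β ∧ e β ξ ≠ e γ ξ}.Finite := fun γ hγ => by
      rcases lt_trichotomy β γ with h | rfl | h
      · exact (ih γ hγ β h).subset fun ξ h => h.2
      · exact Set.finite_empty.subset fun ξ h => h.2.2 rfl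
      · exact (ih β hβ γ h).subset fun ξ h => ⟨h.1, h.2.2.symm⟩
    refine (((Set.finite_le_nat m).subset fun i h => h.1 :
      {i | i ≤ m ∧ a α i < α}.Finite).biUnion fun i hi =>
        ((h1 (a α i) i).union (h2 _ hi.2)).insert (a α i)).subset fun ξ hξ => ?_
    have h3 := hn α ξ (hξ.1.trans hβ)
    refine Set.mem_biUnion (x := n α ξ) ⟨Nat.sInf_le ⟨hm ▸ hξ.1.le, hm ▸ hβ⟩, h3.2⟩
      (h3.1.eq_or_lt.imp_right fun h => ?_)
    rcases lt_or_ge (e (a α (n α ξ)) ξ) (n α ξ) with h4 | h4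
    · exact Or.inl ⟨h, h4⟩
    · exact Or.inr ⟨h, hξ.1, by rw [← max_eq_right h4, ← he α ξ (hξ.1.trans hβ)]; exact hξ.2⟩

/-- The number of odd values below `i`. -/
def cnt (y : ℕ → ℕ) (i : ℕ) : ℕ := ∑ n ∈ Finset.range i, y n % 2

theorem cnt_mono (y : ℕ → ℕ) : Monotone (cnt y) :=
  monotone_nat_of_le_succ fun n => by simp [cnt, Finset.sum_range_succ]

theorem cnt_add {y : ℕ → ℕ} {m k c : ℕ} (h : ∀ n, m ≤ n → n < m + k → y n % 2 = c) :
    cnt y (m + k) = cnt y m + k * c := by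
  induction k with
  | zero => simp
  | succ k ih =>
    rw [← add_assoc, cnt, Finset.sum_range_succ, ← cnt, ih fun n h1 h2 => h n h1 (by omega),
      h (m + k) (by omega) (by omega), add_mul, one_mul, add_assoc]

section
variable {K : Type} [LinearOrder K] [WellFoundedLT K]

/-- The condition decides the number of odd values of the real at `b` below `i`. -/
def Eta (b : K) (i k : ℕ) (q : Set (Atom K)) : Prop := ∀ x ∈ sem q, cnt (x b) i = k

theorem eta_dense (b : K) (i : ℕ) {p : Set (Atom K)} (hp : Cd p) :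
    ∃ q, Cd q ∧ sem q ⊆ sem p ∧ ∃ k, Eta b i k q := by
  obtain ⟨q, s, h1, h2, h3, h4⟩ := long_stem hp b i
  exact ⟨q, h1, h2, cnt (fun n => s.getD n 0) i, fun x hx => Finset.sum_congr rfl fun n hn => by
    rw [h3.eq hx ((Finset.mem_range.1 hn).trans_le h4)]⟩

theorem eta_large (b : K) (k : ℕ) {p : Set (Atom K)} (hp : Cd p) :
    ∃ q, Cd q ∧ sem q ⊆ sem p ∧ ∃ m, ∀ i, m ≤ i → ∀ x ∈ sem q, k < cnt (x b) i := by
  obtain ⟨q, s, h1, h2, h3⟩ := exists_stem hp b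
  obtain ⟨q', s', k1, k2, -, -, k3⟩ := extend_stems (P := fun j => j % 2 = 1)
    (fun m => ⟨2 * m + 1, by omega, by omega⟩) h1 h3 (k + 1)
  refine ⟨q', k1, k2.trans h2, s.length + (k + 1), fun i hi x hx => ?_⟩
  have := cnt_mono (x b) hi
  rw [cnt_add (k3 x hx)] at this
  omega

theorem not_special {Ω : Type} [Coded Set.univ Ω] [LinearOrder Ω] [Om Set.univ Ω] (b : K)
    {e : Ω → Ω → ℕ} (h1 : ∀ α k, {ξ | ξ < α ∧ e α ξ < k}.Finite)
    (h2 : ∀ α β, β < α → {ξ | ξ < β ∧ e β ξ ≠ e α ξ}.Finite) {W : Ω → ℕ → Set (Atom K) → Prop}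
    {p : Set (Atom K)} (hW : ∀ β, ∃ q, Cd q ∧ sem q ⊆ sem p ∧ ∃ c, W β c q) :
    ∃ q q1 q2 β β' c, Cd q ∧ Cd q1 ∧ Cd q2 ∧ sem q ⊆ sem q1 ∧ sem q ⊆ sem q2 ∧ sem q ⊆ sem p ∧
      β < β' ∧ W β c q1 ∧ W β' c q2 ∧
      ∀ ξ, ξ < β → ∀ x ∈ sem q, cnt (x b) (e β ξ) = cnt (x b) (e β' ξ) := by
  have := Om.ne (Ω := Ω) Set.univ
  choose q0 k1 k2 c k3 using hW
  choose q s k4 k5 k6 using fun β => exists_stem (k1 β) b
  have h3 : ∀ β, ∃ l : List (Ω × ℕ), ∀ z, z ∈ l ↔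
      (z.1 < β ∧ e β z.1 < (s β).length) ∧ e β z.1 = z.2 := fun β =>
    ⟨((h1 β (s β).length).image fun ξ => (ξ, e β ξ)).toFinset.toList, fun z => by
      simp only [Finset.mem_toList, Set.Finite.mem_toFinset, Set.mem_image, Set.mem_ofPred_eq]
      exact ⟨fun ⟨ξ, h, h'⟩ => h' ▸ ⟨h, rfl⟩, fun h => ⟨z.1, h.1, Prod.ext rfl h.2⟩⟩⟩
  choose l hl using h3
  obtain ⟨a0⟩ := this
  obtain ⟨⟨c0, s0, l0⟩, hS⟩ := fodor_rel (N := Set.univ)
    (R := fun (y : ℕ × List ℕ × List (Ω × ℕ)) δ => (c δ, s δ, l δ) = y) (defF_univ _)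
    (P := fun γ y => ∀ z ∈ y.2.2, z.1 ≤ γ) (defF_univ _)
    (fun γ => (ctble_nat.prod (ctble_nat.list.prod
      ((Om.ctble (N := Set.univ) γ).prod ctble_nat).list)).mono fun y h =>
        ⟨trivial, fun _ _ => trivial, fun z hz => ⟨h z hz, trivial⟩⟩)
    ((stat_true.inter DefF.id a0).mono fun δ hδ => by
      obtain ⟨γ, h3, h4⟩ : ∃ γ, γ < δ ∧ ∀ z ∈ l δ, z.1 ≤ γ := by
        have h5 : ∀ z ∈ l δ, z.1 < δ := fun z hz => ((hl δ z).1 hz).1.1
        generalize l δ = L at h5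
        induction L with
        | nil => exact ⟨a0, hδ.2.1, fun _ h => by simp at h⟩
        | cons y L ih =>
          obtain ⟨γ, h3, h4⟩ := ih fun z hz => h5 z (List.mem_cons_of_mem _ hz)
          refine ⟨max γ y.1, max_lt h3 (h5 y List.mem_cons_self), fun z hz => ?_⟩
          rcases List.mem_cons.1 hz with rfl | hz
          exacts [le_max_right _ _, (h4 z hz).trans (le_max_left _ _)]
      exact ⟨γ, h3, _, h4, rfl⟩)
  obtain ⟨β, β', h4, h5, h6, h7⟩ : ∃ β β', β < β' ∧ (c β, s β, l β) = (c0, s0, l0) ∧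
      (c β', s β', l β') = (c0, s0, l0) ∧ Cd (q β ∪ q β') := by
    by_contra hcon
    push Not at hcon
    have h4 := countable_of_not_agr (fun β : {β | (c β, s β, l β) = (c0, s0, l0)} => q β)
      (fun β => k4 β) fun β β' h h' => by
        rcases lt_or_gt_of_ne (fun h' => h (Subtype.ext h') : β.1 ≠ β'.1) with h4 | h4
        · exact hcon _ _ h4 β.2 β'.2 ((k4 _).union (k4 _) h')
        · exact hcon _ _ h4 β'.2 β.2 (Set.union_comm _ _ ▸ (k4 _).union (k4 _) h')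
    have : Nonempty Ω := ⟨a0⟩
    obtain ⟨γ, hγ⟩ := (ctble_univ.2 (Set.countable_coe_iff.1 h4)).bdd DefF.id
    obtain ⟨δ, h5, h6, -⟩ := (hS.inter DefF.id γ).exists
    exact lt_asymm h6 (hγ δ h5)
  simp only [Prod.mk.injEq] at h5 h6
  obtain ⟨M, hM⟩ := ((h2 β' β h4).image fun ξ => max (e β ξ) (e β' ξ)).bddAbove
  obtain ⟨r, s', r1, r2, -, -, r3⟩ := extend_stems (P := fun j => j % 2 = 0)
    (fun m => ⟨2 * m, by omega, by omega⟩) h7 ((k6 β).imp fun _ h => Or.inl h) M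
  have r4 := r2.trans ((sem_mono Set.subset_union_left).trans (k5 β))
  refine ⟨r, _, _, β, β', c0, r1, k1 β, k1 β', r4,
    r2.trans ((sem_mono Set.subset_union_right).trans (k5 β')), r4.trans (k2 β), h4,
    h5.1 ▸ k3 β, h6.1 ▸ k3 β', fun ξ hξ x hx => ?_⟩
  by_cases h8 : e β ξ = e β' ξ
  · rw [h8]
  have h9 := hM ⟨ξ, ⟨hξ, h8⟩, rfl⟩
  have h10 : (s β).length ≤ e β ξ := not_lt.1 fun h => h8 ((hl β' (ξ, e β ξ)).1
    (h6.2.2 ▸ h5.2.2 ▸ (hl β _).2 ⟨⟨hξ, h⟩, rfl⟩)).2.symm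
  have h11 : (s β).length ≤ e β' ξ := not_lt.1 fun h => h8 ((hl β (ξ, e β' ξ)).1
    (h5.2.2 ▸ h6.2.2 ▸ (hl β' _).2 ⟨⟨hξ.trans h4, by rwa [h6.2.1, ← h5.2.1]⟩, rfl⟩)).2
  have h12 : ∀ i, (s β).length ≤ i → i ≤ M → cnt (x b) i = cnt (x b) (s β).length := by
    intro i h h'
    obtain ⟨k, rfl⟩ := Nat.exists_eq_add_of_le h
    simpa using cnt_add (c := 0) fun n h1 h2 => r3 x hx n h1 (by omega)
  rw [h12 _ h10 ((le_max_left _ _).trans h9), h12 _ h11 ((le_max_right _ _).trans h9)]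

end

end Pool.Agent.P.MP_f1f3c4_lc
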