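import Mathlib.Order.Interval.Set.Infinite
import Pool.Agent.P.MP_f1f3c4_lc.Ground

/-!
First order form of the facts about the iteration, and their truth in the universe.
-/

set_option synthInstance.maxSize 16384
set_option linter.unusedSectionVars false

namespace Pool.Agent.P.MP_f1f3c4_lc

open ZFSet Pool.Agent.Lib.Forcing Pool.Agent.Lib.Typed Pool.Agent.P.MP_af0a18_lc

def FA (M : Set ZFSet.{0}) (w ν P le : ZFSet.{0}) : Prop :=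
  ∀ W ∈ M, (∀ n ∈ w, ∀ γ ∈ ν, ∀ γ' ∈ ν, ∀ r ∈ P, ∀ r' ∈ P, ∀ s ∈ P, pair (pair n γ) r ∈ W →
    pair (pair n γ') r' ∈ W → pair s r ∈ le → pair s r' ∈ le → γ = γ') →
    ∃ β ∈ ν, ∀ n ∈ w, ∀ γ ∈ ν, ∀ r ∈ P, pair (pair n γ) r ∈ W → γ ∈ β

def FB (M : Set ZFSet.{0}) (w ν P le : ZFSet.{0}) : Prop :=
  ∀ W ∈ M, (∀ α ∈ ν, ∀ n ∈ w, ∀ k ∈ w, ∀ p ∈ P, ∀ q ∈ P, pair (pair (pair α n) k) p ∈ W →
      pair q p ∈ le → pair (pair (pair α n) k) q ∈ W) →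
    (∀ α ∈ ν, ∀ n ∈ w, ∀ p ∈ P, ∃ q ∈ P, pair q p ∈ le ∧ ∃ k ∈ w, pair (pair (pair α n) k) q ∈ W) →
    ∃ Γ ∈ M, (∀ n ∈ w, ∀ p ∈ P, ∃ q ∈ P, pair q p ∈ le ∧ ∃ j ∈ w, pair (pair n j) q ∈ Γ) ∧
      (∀ n ∈ w, ∀ j ∈ w, ∀ p ∈ P, ∀ q ∈ P, pair (pair n j) p ∈ Γ → pair q p ∈ le →
        pair (pair n j) q ∈ Γ) ∧
      ∀ α ∈ ν, ∀ p ∈ P, ∃ q ∈ P, pair q p ∈ le ∧ ∃ m ∈ w, ∀ n ∈ w, ¬ n ∈ m → ∀ j ∈ w, ∀ r ∈ P,
        pair r q ∈ le → pair (pair n j) r ∈ Γ → ∃ s ∈ P, pair s r ∈ le ∧ ∃ k ∈ w, ¬ j ∈ k ∧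
          pair (pair (pair α n) k) s ∈ W

def FC (M : Set ZFSet.{0}) (w ν P le e η : ZFSet.{0}) : Prop :=
  ∀ W ∈ M, (∀ β ∈ ν, ∀ c ∈ w, ∀ p ∈ P, ∀ q ∈ P, pair (pair β c) p ∈ W → pair q p ∈ le →
      pair (pair β c) q ∈ W) →
    (∀ β ∈ ν, ∀ p ∈ P, ∃ q ∈ P, pair q p ∈ le ∧ ∃ c ∈ w, pair (pair β c) q ∈ W) →
    ∀ p ∈ P, ∃ q ∈ P, pair q p ∈ le ∧ ∃ β ∈ ν, ∃ β' ∈ ν, β ∈ β' ∧ ∃ c ∈ w,
      pair (pair β c) q ∈ W ∧ pair (pair β' c) q ∈ W ∧ ∀ ξ ∈ ν, ξ ∈ β → ∀ i ∈ w, ∀ i' ∈ w,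
        pair (pair β ξ) i ∈ e → pair (pair β' ξ) i' ∈ e → ∀ r ∈ P, pair r q ∈ le →
          ∀ k ∈ w, ∀ k' ∈ w, pair (pair i k) r ∈ η → pair (pair i' k') r ∈ η → k = k'

def FD (w P le η : ZFSet.{0}) : Prop :=
  (∀ i ∈ w, ∀ p ∈ P, ∃ q ∈ P, pair q p ∈ le ∧ ∃ k ∈ w, pair (pair i k) q ∈ η) ∧
    (∀ i ∈ w, ∀ k ∈ w, ∀ p ∈ P, ∀ q ∈ P, pair (pair i k) p ∈ η → pair q p ∈ le →
      pair (pair i k) q ∈ η) ∧
    ∀ k ∈ w, ∀ p ∈ P, ∃ q ∈ P, pair q p ∈ le ∧ ∃ m ∈ w, ∀ i ∈ w, ¬ i ∈ m → ∀ r ∈ P,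
      pair r q ∈ le → ∀ k' ∈ w, pair (pair i k') r ∈ η → k ∈ k'

def FE (M : Set ZFSet.{0}) (w ν e : ZFSet.{0}) : Prop :=
  (∀ β ∈ ν, ∀ ξ ∈ ν, ∃ i ∈ w, pair (pair β ξ) i ∈ e) ∧
    (∀ β ∈ ν, ∀ k ∈ w, ∃ f ∈ M, Fn f ∧ ∃ m ∈ w, ∀ ξ ∈ ν, ξ ∈ β → ∀ i ∈ w, i ∈ k →
      pair (pair β ξ) i ∈ e → ∃ n ∈ w, n ∈ m ∧ pair n ξ ∈ f) ∧
    ∃ r ∈ M, Fn r ∧ ∀ a ∈ ν, ∀ b ∈ ν, ∃ c ∈ ν, pair c (pair a b) ∈ r

def FG (P le : ZFSet.{0}) : Prop :=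
  (∃ p ∈ P, p = p) ∧ (∀ z ∈ le, ∃ q ∈ P, ∃ p ∈ P, z = pair q p) ∧ (∀ p ∈ P, pair p p ∈ le) ∧
    ∀ r q, pair r q ∈ le → ∀ p, pair q p ∈ le → pair r p ∈ le

instance (a b c d : ℕ) : UDf (fun M e => FA M (e a) (e b) (e c) (e d)) := by
  unfold FA; infer_instance
instance (a b c d : ℕ) : UDf (fun M e => FB M (e a) (e b) (e c) (e d)) := by
  unfold FB; infer_instance
instance (a b c d f g : ℕ) : UDf (fun M e => FC M (e a) (e b) (e c) (e d) (e f) (e g)) := by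
  unfold FC; infer_instance
instance (a b c d : ℕ) : UDf (fun _ e => FD (e a) (e b) (e c) (e d)) := by
  unfold FD; infer_instance
instance (a b c : ℕ) : UDf (fun M e => FE M (e a) (e b) (e c)) := by unfold FE; infer_instance
instance (a b : ℕ) : UDf (fun _ e => FG (e a) (e b)) := by unfold FG; infer_instance

def Good (M : Set ZFSet.{0}) : Prop :=
  ∃ w ∈ M, ∃ ν ∈ M, ∃ P ∈ M, ∃ le ∈ M, ∃ e ∈ M, ∃ η ∈ M,
    IsOmega w ∧ ν.IsOrdinal ∧ w ∈ ν ∧ G3 M w ν ∧ G4 M ∧ FG P le ∧ FA M w ν P le ∧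
    FB M w ν P le ∧ FC M w ν P le e η ∧ FD w P le η ∧ FE M w ν e

instance : UDf (fun M _ => Good M) := by unfold Good; infer_instance

instance : Fact nu.{0}.IsOrdinal := ⟨isOrdinal_toZFSet _⟩

theorem bdd_nu {S : Set (El nu.{0})} (hS : S.Countable) : ∃ b, ∀ a ∈ S, a < b := by
  obtain ⟨b, hb, H⟩ := exists_bound_nu (hS.image El.val) (by rintro _ ⟨a, -, rfl⟩; exact a.val_mem)
  obtain ⟨c, hc⟩ := El.exists_val (a := nu) (Ordinal.toZFSet_mem_toZFSet_iff.2 hb)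
  exact ⟨c, fun a ha => El.lt_iff.2 (hc ▸ H _ ⟨a, ha, rfl⟩)⟩

instance : Om Set.univ (El nu.{0}) :=
  om_el ((isOrdinal_toZFSet _).mem_trans omega_zero omega_mem_nu) g3 fun s _ =>
    (bdd_nu (Set.countable_range s)).imp fun _ h n => h _ ⟨n, rfl⟩

theorem exists_long (I : Type) [Infinite I] : ∃ (K : Type) (_ : LinearOrder K)
    (_ : WellFoundedLT K), Nonempty K ∧ ∀ g : I → K, ∃ b, ∀ z, g z < b := by
  have h := Cardinal.isRegular_succ (Cardinal.aleph0_le_mk I)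
  refine ⟨(Order.succ (Cardinal.mk I)).ord.ToType, inferInstance, inferInstance,
    Ordinal.nonempty_toType_iff.2 h.ord_pos.ne', fun g => ?_⟩
  obtain ⟨b, hb⟩ := not_isCofinal_iff.1 fun h' : IsCofinal (Set.range g) => by
    have h1 := (Order.cof_le h').trans Cardinal.mk_range_le
    rw [Ordinal.cof_toType, h.cof_ord] at h1
    exact absurd h1 (not_le.2 (Order.lt_succ _))
  exact ⟨b, fun z => hb _ ⟨z, rfl⟩⟩

theorem good_univ : Good Set.univ := by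
  obtain ⟨a0⟩ := Om.ne (Ω := El nu.{0}) Set.univ
  have : Nonempty (El nu.{0}) := ⟨a0⟩
  have : NoMaxOrder (El nu.{0}) := ⟨exists_gt (N := Set.univ)⟩
  obtain ⟨K, _, _, hK0, hK⟩ := exists_long (El nu.{0} × ℕ × ℕ)
  obtain ⟨b0⟩ := id hK0
  obtain ⟨e, he1, he2⟩ := exists_coherent (Ω := El nu.{0}) fun α =>
    (Om.ctble (N := Set.univ) α).imp fun _ h => h.2
  let X := {p : Set (Atom K) // Cd p}
  let : Coded Set.univ X := codeU X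
  let le : DSet Set.univ (X × X) := ⟨fun z => sem z.1.1 ⊆ sem z.2.1, defF_univ _⟩
  let E : DSet Set.univ ((El nu.{0} × El nu.{0}) × ℕ) := ⟨fun z => e z.1.1 z.1.2 = z.2, defF_univ _⟩
  let η : DSet Set.univ ((ℕ × ℕ) × X) := ⟨fun z => Eta b0 z.1.1 z.1.2 z.2.1, defF_univ _⟩
  have h1 : ∀ q p : X, pair (cd Set.univ q) (cd Set.univ p) ∈ cd Set.univ le ↔ sem q.1 ⊆ sem p.1 :=
    fun q p => cd_mem_dset (S := le) (x := (q, p))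
  have h2 : ∀ (β ξ : El nu.{0}) (i : ℕ), pair (pair (cd Set.univ β) (cd Set.univ ξ))
    (cd Set.univ i) ∈ cd Set.univ E ↔ e β ξ = i := fun β ξ i => cd_mem_dset (S := E) (x := ((β, ξ), i))
  have h3 : ∀ (i k : ℕ) (q : X), pair (pair (cd Set.univ i) (cd Set.univ k)) (cd Set.univ q) ∈
    cd Set.univ η ↔ Eta b0 i k q.1 := fun i k q => cd_mem_dset (S := η) (x := ((i, k), q))
  have h4 : ∀ a b : El nu.{0}, cd Set.univ a ∈ cd Set.univ b ↔ a < b := fun _ _ => El.lt_iff.symm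
  refine ⟨car Set.univ ℕ, trivial, car Set.univ (El nu), trivial, car Set.univ X, trivial,
    cd Set.univ le, trivial, cd Set.univ E, trivial, cd Set.univ η, trivial,
    isOmega_iff.2 car_nat, by rw [car_el]; exact isOrdinal_toZFSet _,
    by rw [car_el, car_nat]; exact omega_mem_nu, by rw [car_el, car_nat]; exact g3, g4,
    ⟨⟨_, cd_mem_car (⟨∅, cd_empty⟩ : X), rfl⟩, fun z hz => ?_, ?_, fun r q k1 p k2 => ?_⟩,
    ?_, ?_, ?_, ?_, ?_⟩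
  · obtain ⟨x, -, rfl⟩ := mem_cd_dset.1 hz
    exact ⟨_, cd_mem_car _, _, cd_mem_car _, rfl⟩
  · simp [forall_car, h1]
  · obtain ⟨x, k3, k4⟩ := mem_cd_dset.1 k1
    obtain ⟨y, k5, k6⟩ := mem_cd_dset.1 k2
    rw [cd_prod', pair_inj] at k4 k6
    rw [← k4.1, ← k6.2, h1]
    exact subset_trans k3 (Coded.inj (k6.1.trans k4.2.symm) ▸ k5)
  · simp only [FA, forall_car, exists_car, h1, h4, cd_inj]
    intro W _ hW
    obtain ⟨b, hb⟩ := bdd_nu (Set.countable_iUnion fun n : ℕ => (by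
      have k1 : ∀ γ : {γ : El nu | ∃ r : X, In Set.univ W ((n, γ), r)},
        ∃ r : X, In Set.univ W ((n, γ.1), r) := fun γ => γ.2
      choose f hf using k1
      exact countable_of_not_agr (fun γ => (f γ).1) (fun γ => (f γ).2) fun γ γ' h h' =>
        h (Subtype.ext (hW n _ _ _ _ ⟨_, (f γ).2.union (f γ').2 h'⟩ (hf γ) (hf γ')
          (sem_mono Set.subset_union_left) (sem_mono Set.subset_union_right))) :
      {γ : El nu | ∃ r : X, In Set.univ W ((n, γ), r)}.Countable))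
    exact ⟨b, fun n γ r h => hb γ (Set.mem_iUnion.2 ⟨n, r, h⟩)⟩
  · simp only [FB, forall_car, exists_car, h1, cd_nat_mem, not_lt]
    intro W _ hW hW'
    obtain ⟨b, hb⟩ := dominate hK (W := fun α n k p => ∃ h : Cd p,
      In Set.univ W (((α, n), k), (⟨p, h⟩ : X))) (fun α n p hp => by
        obtain ⟨q, k1, k, k2⟩ := hW' α n ⟨p, hp⟩
        exact ⟨q.1, q.2, ⟨k, q.2, k2⟩, k1⟩)
    let Γ : DSet Set.univ ((ℕ × ℕ) × X) := ⟨fun z => ∀ x ∈ sem z.2.1, x b z.1.1 = z.1.2, defF_univ _⟩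
    have k1 : ∀ (n j : ℕ) (q : X), pair (pair (cd Set.univ n) (cd Set.univ j)) (cd Set.univ q) ∈
      cd Set.univ Γ ↔ ∀ x ∈ sem q.1, x b n = j := fun n j q => cd_mem_dset (S := Γ) (x := ((n, j), q))
    refine ⟨cd Set.univ Γ, trivial, ?_⟩
    simp only [k1]
    refine ⟨fun n p => ?_, fun n j p q h h' x hx => h x (h' hx), fun α p => ?_⟩
    · obtain ⟨q, s, k2, k3, k4, k5⟩ := long_stem p.2 b (n + 1)
      exact ⟨⟨q, k2⟩, k3, _, fun x hx => k4.eq hx k5⟩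
    · obtain ⟨q, m, k2, k3, k4⟩ := hb α p.1 p.2
      refine ⟨⟨q, k2⟩, k3, m, fun n hn j r k5 k6 => ?_⟩
      obtain ⟨r', q', k, k7, -, k8, k9, k10, k11, k12⟩ := k4 n hn j r.1 r.2 k5 k6
      exact ⟨⟨r', k7⟩, k8, k, k10, hW α n k _ _ k12 k9⟩
  · simp only [FC, forall_car, exists_car, h1, h2, h3, h4, cd_inj]
    intro W _ hW hW' p
    obtain ⟨q, q1, q2, β, β', c, k1, -, -, k2, k3, k4, k5, ⟨_, k6⟩, ⟨_, k7⟩, k8⟩ :=
      not_special b0 he1 he2 (W := fun β c p => ∃ h : Cd p, In Set.univ W ((β, c), (⟨p, h⟩ : X)))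
        (p := p.1) (fun β => by
          obtain ⟨q, k1, c, k2⟩ := hW' β p
          exact ⟨q.1, q.2, k1, c, q.2, k2⟩)
    refine ⟨⟨q, k1⟩, k4, β, β', k5, c, hW _ _ _ _ k6 k2, hW _ _ _ _ k7 k3, ?_⟩
    rintro ξ hξ _ _ rfl rfl r hr k k' k9 k10
    obtain ⟨x, hx⟩ := r.2.nonempty
    rw [← k9 x hx, ← k10 x hx, k8 ξ hξ x (hr hx)]
  · simp only [FD, forall_car, exists_car, h1, h3, cd_nat_mem, not_lt]
    refine ⟨fun i p => ?_, fun i k p q h h' x hx => h x (h' hx), fun k p => ?_⟩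
    · obtain ⟨q, k1, k2⟩ := eta_dense b0 i p.2
      exact ⟨⟨q, k1⟩, k2⟩
    · obtain ⟨q, k1, k2, m, k3⟩ := eta_large b0 k p.2
      refine ⟨⟨q, k1⟩, k2, m, fun i hi r hr k' h => ?_⟩
      obtain ⟨x, hx⟩ := r.2.nonempty
      exact h x hx ▸ k3 i hi x (hr hx)
  · simp only [FE, forall_car, exists_car, h2, h4, cd_nat_mem]
    refine ⟨fun β ξ => ⟨_, rfl⟩, fun β k => ?_, ?_⟩
    · let l := (he1 β k).toFinset.toList
      obtain ⟨f, -, k1, k2⟩ := exists_graph (M := Set.univ) (defF_univ fun n => l.getD n a0)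
      refine ⟨f, trivial, k1, l.length, ?_⟩
      rintro ξ hξ _ hi rfl
      obtain ⟨n, hn, k3⟩ := List.getElem_of_mem (by simpa [l] using ⟨hξ, hi⟩ : ξ ∈ l)
      exact ⟨n, hn, by simpa [hn, k3] using k2 n⟩
    · obtain ⟨π⟩ : Nonempty (El nu.{0} ≃ El nu.{0} × El nu.{0}) := by
        rw [← Cardinal.eq]; simp [Cardinal.mul_eq_self (Cardinal.aleph0_le_mk (El nu.{0}))]
      obtain ⟨r, -, k1, k2⟩ := surj_of_fun (M := Set.univ) (defF_univ π)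
        (b := car Set.univ (El nu.{0} × El nu.{0})) (by
          rw [forall_car]
          exact fun x => ⟨π.symm x, by simp⟩)
      refine ⟨r, trivial, k1, fun a b => ?_⟩
      exact exists_car.1 (k2 _ (cd_mem_car (a, b)))

end Pool.Agent.P.MP_f1f3c4_lc
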