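import Pool.Agent.P.MP_f1f3c4_lc.Tree
import Pool.Agent.P.MP_f1f3c4_lc.Good

/-!
The generic extension by the iteration.
-/

set_option synthInstance.maxSize 16384
set_option linter.unusedSectionVars false

namespace Pool.Agent.P.MP_f1f3c4_lc

open ZFSet Pool.Agent.Lib.Forcing Pool.Agent.Lib.Typed Pool.Agent.P.MP_af0a18_lc

section
variable {M N : Set ZFSet.{0}} [ZFC M] [ZFC N] {P le H ν : ZFSet.{0}} [InM M P] [InM M ν] [InM N ν]
  [hν : Fact ν.IsOrdinal] (tf : TF M P le (fun _ : El P => True) fun q p => In M le (q, p))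
  (hH : IsGeneric M P le H) (hN : genericExt M H = N)

include tf hH hN

theorem bdd_ext (fa : FA M (car M ℕ) (car M (El ν)) (car M (El P)) le) (s : ℕ → El ν)
    (hs : DefF N s) : ∃ b, ∀ n, s n < b := by
  simp only [FA, forall_car, exists_car, cd_inj] at fa
  have hL : DefF M (In M le : El P × El P → Prop) := DefF.isIn tf.memL
  obtain ⟨a, ha, h⟩ := hs
  have : Nonempty (El ν) := ⟨s 0⟩
  obtain ⟨W, h1, h2, h3, h4⟩ := tf.nice_total (A := ℕ) (B := El ν) hH (by fun_prop) (hN ▸ ha)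
    fun n => ⟨s n, (h n _).1 rfl⟩
  obtain ⟨c, hc, h5⟩ := DefF.defP (N := M) (p := fun z : (ℕ × El ν) × El P => W z.1.1 z.1.2 z.2 ∧
    ∀ q γ, In M le (q, z.2) → W z.1.1 γ q → γ = z.1.2) (by simp only [all_eq, imp_eq]; fun_prop)
  obtain ⟨β, hβ⟩ := fa c hc fun n γ γ' r r' q k1 k2 k3 k4 =>
    (((h5 ((n, γ), r)).2 k1).2 q γ' k3
      (h2 _ _ _ _ ((h5 ((n, γ'), r')).2 k2).1 trivial trivial k4)).symm
  refine ⟨β, fun n => ?_⟩
  obtain ⟨q, k1, k2⟩ := tf.meets hH (R := fun q => ∃ γ, W n γ q ∧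
    ((∀ q' γ', In M le (q', q) → W n γ' q' → γ' = γ) ∨ ∃ γ', γ' ≠ γ ∧ W n γ' q))
    (by simp only [all_eq, imp_eq]; fun_prop) fun p _ => by
      obtain ⟨q, -, k1, γ, k2⟩ := h3 n p trivial
      by_cases k3 : ∀ q' γ', In M le (q', q) → W n γ' q' → γ' = γ
      · exact ⟨q, trivial, k1, γ, k2, Or.inl k3⟩
      · push Not at k3
        obtain ⟨q', γ', k4, k5, k6⟩ := k3
        exact ⟨q', trivial, tf.trans trivial trivial trivial k4 k1, γ,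
          h2 _ _ _ _ k2 trivial trivial k4, Or.inr ⟨γ', k6, k5⟩⟩
  obtain ⟨γ, k2, k3 | ⟨γ', k3, k4⟩⟩ := k2
  · rw [(h n γ).2 (h4 n γ q k1 k2)]
    exact El.lt_iff.2 (hβ n γ q ((h5 ((n, γ), q)).1 ⟨k2, k3⟩))
  · exact (k3 (((h n γ').2 (h4 n γ' q k1 k4)).symm.trans ((h n γ).2 (h4 n γ q k1 k2)))).elim

omit hν [InM M ν] [InM N ν] in
theorem exists_value {Γ : ZFSet.{0}} (hΓ : Γ ∈ M)
    (h : ∀ (n : ℕ) (p : El P), ∃ q : El P, In M le (q, p) ∧ ∃ j : ℕ, In M Γ ((n, j), q)) :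
    ∃ g : ℕ → ℕ, DefF N g ∧ ∀ n, ∃ p : El P, In M H p ∧ In M Γ ((n, g n), p) := by
  have h1 : DefF M (In M Γ : (ℕ × ℕ) × El P → Prop) := DefF.isIn hΓ
  obtain ⟨Z, hZ, -, h2⟩ := tf.eval hH (R := fun (z : ℕ × ℕ) p => In M Γ (z, p)) (by fun_prop)
  have h3 : DefF N (In N Z : ℕ × ℕ → Prop) := DefF.isIn (hN ▸ hZ)
  obtain ⟨g, hg, H⟩ := choice (N := N) (R := fun n j : ℕ => In N Z (n, j)) h3 fun n => by
    obtain ⟨q, k1, j, k2⟩ := tf.meets hH (R := fun q => ∃ j : ℕ, In M Γ ((n, j), q))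
      (by fun_prop) fun p _ => (h n p).imp fun _ h => ⟨trivial, h⟩
    exact ⟨j, (h2 (n, j)).2 ⟨q, k1, k2⟩⟩
  exact ⟨g, hg, fun n => (h2 (n, g n)).1 (H n)⟩

theorem dom_ext (fb : FB M (car M ℕ) (car M (El ν)) (car M (El P)) le) : Dom N (El ν) := by
  simp only [FB, forall_car, exists_car, cd_nat_mem, not_lt] at fb
  have hL : DefF M (In M le : El P × El P → Prop) := DefF.isIn tf.memL
  rintro φ ⟨a, ha, h⟩
  obtain ⟨W, h1, h2, h3, h4⟩ := tf.nice_total (A := El ν × ℕ) (B := ℕ) hH (by fun_prop) (hN ▸ ha)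
    fun z => ⟨φ z.1 z.2, (h z _).1 rfl⟩
  obtain ⟨c, hc, h5⟩ := DefF.defP (N := M)
    (p := fun z : ((El ν × ℕ) × ℕ) × El P => W z.1.1 z.1.2 z.2) (by fun_prop)
  obtain ⟨Γ, hΓ, k1, k2, k3⟩ := fb c hc (fun α n k p q k1 k2 => (h5 (((α, n), k), q)).1
      (h2 _ _ _ _ ((h5 (((α, n), k), p)).2 k1) trivial trivial k2)) fun α n p => by
    obtain ⟨q, -, k1, k, k2⟩ := h3 (α, n) p trivial
    exact ⟨q, k1, k, (h5 (((α, n), k), q)).1 k2⟩
  obtain ⟨g, hg, Hg⟩ := exists_value tf hH hN hΓ k1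
  have h6 : DefF M (In M Γ : (ℕ × ℕ) × El P → Prop) := DefF.isIn hΓ
  refine ⟨g, hg, fun α => ?_⟩
  obtain ⟨q, k4, m, k5⟩ := tf.meets hH (R := fun q => ∃ m : ℕ, ∀ n, m ≤ n → ∀ (j : ℕ) (r : El P),
    In M le (r, q) → In M Γ ((n, j), r) → ∃ s : El P, In M le (s, r) ∧ ∃ k, k ≤ j ∧ W (α, n) k s)
    (by simp only [all_eq, imp_eq]; fun_prop) fun p _ => by
      obtain ⟨q, k4, m, k5⟩ := k3 α p
      refine ⟨q, trivial, k4, m, fun n hn j r k6 k7 => ?_⟩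
      obtain ⟨s, k8, k, k9, k10⟩ := k5 n hn j r k6 k7
      exact ⟨s, k8, k, k9, (h5 (((α, n), k), s)).2 k10⟩
  refine ⟨m, fun n hn => ?_⟩
  obtain ⟨p, k6, k7⟩ := Hg n
  obtain ⟨r, k8, k9, k10⟩ := tf.directed hH k4 k6
  obtain ⟨s, k11, k, k12, k13⟩ := tf.below hH (R := fun s => ∃ k, k ≤ g n ∧ W (α, n) k s)
    (by fun_prop) k8 fun r' _ hr => by
      obtain ⟨s, k11⟩ := k5 n hn (g n) r' (tf.trans trivial trivial trivial hr k9)
        (k2 _ _ _ _ k7 (tf.trans trivial trivial trivial hr k10))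
      exact ⟨s, trivial, k11⟩
  exact ((h (α, n) k).2 (h4 _ _ _ k11 k13)).le.trans k12

theorem stAt_ext [Om N (El ν)] [Om M (El ν)] {e η : ZFSet.{0}} (he : e ∈ M) (hη : η ∈ M)
    (fc : FC M (car M ℕ) (car M (El ν)) (car M (El P)) le e η)
    (fd : FD (car M ℕ) (car M (El P)) le η) (fe : FE M (car M ℕ) (car M (El ν)) e) :
    StAt N ν ν := by
  simp only [FC, forall_car, exists_car, cd_inj] at fc
  simp only [FD, forall_car, exists_car, cd_nat_mem, not_lt] at fd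
  simp only [FE, forall_car, exists_car, cd_nat_mem] at fe
  have hMN : M ⊆ N := hN ▸ subset_genericExt tf.forcing tf.memP hH
  have hL : DefF M (In M le : El P × El P → Prop) := DefF.isIn tf.memL
  have h1 : DefF M (In M η : (ℕ × ℕ) × El P → Prop) := DefF.isIn hη
  have h2 : DefF M (In M e : (El ν × El ν) × ℕ → Prop) := DefF.isIn he
  obtain ⟨h, hh, Hh⟩ := exists_value tf hH hN hη fd.1
  obtain ⟨f, hf, Hf⟩ := choice (N := M) (R := fun (z : El ν × El ν) (i : ℕ) => In M e (z, i)) h2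
    fun z => fe.1 z.1 z.2
  have hf' : DefF N f := hf.lift hMN (fun _ => rfl) fun _ => rfl
  refine stAt (u := fun β ξ => h (f (β, ξ))) (by fun_prop) (fun β k => ?_) ?_ fun S hS hS' => ?_
  · obtain ⟨q, k1, m, k2⟩ := tf.meets hH (R := fun q => ∃ m : ℕ, ∀ i, m ≤ i → ∀ r : El P,
      In M le (r, q) → ∀ k' : ℕ, In M η ((i, k'), r) → k < k')
      (by simp only [all_eq, imp_eq]; fun_prop) fun p _ => (fd.2.2 k p).imp fun _ h => ⟨trivial, h⟩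
    obtain ⟨F, -, k3, l, k4⟩ := fe.2.1 β m
    refine ((Set.finite_lt_nat l).biUnion fun n _ => Set.Subsingleton.finite
      (s := {ξ : El ν | pair (cd M n) (cd M ξ) ∈ F})
      fun ξ h ξ' h' => Coded.inj (k3 _ _ h _ h')).subset fun ξ hξ => ?_
    obtain ⟨n, k5, k6⟩ := k4 ξ (El.lt_iff.1 hξ.1) (f (β, ξ)) (not_le.1 fun k5 => by
      obtain ⟨p, k6, k7⟩ := Hh (f (β, ξ))
      obtain ⟨r, -, k8, k9⟩ := tf.directed hH k1 k6
      exact (k2 _ k5 r k8 _ (fd.2.1 _ _ _ _ k7 k9)).ne' hξ.2) (Hf (β, ξ))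
    exact Set.mem_biUnion k5 k6
  · obtain ⟨r, k1, k2, k3⟩ := fe.2.2
    refine ⟨r, hMN k1, k2, fun z hz => ?_⟩
    obtain ⟨z, rfl⟩ := mem_car.1 hz
    obtain ⟨c, hc⟩ := k3 z.1 z.2
    exact ⟨_, c.val_mem, hc⟩
  · obtain ⟨a, ha, h3⟩ := hS.defP
    obtain ⟨W, k1, k2, k3, k4⟩ := tf.nice_total (A := El ν) (B := ℕ) hH (by fun_prop) (hN ▸ ha)
      fun β => (hS' β).imp fun c h => (h3 (β, c)).1 h
    obtain ⟨b, hb, h4⟩ := DefF.defP (N := M)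
      (p := fun z : (El ν × ℕ) × El P => W z.1.1 z.1.2 z.2) (by fun_prop)
    obtain ⟨q, k5, β, β', k6, c, k7, k8, k9⟩ := tf.meets hH (R := fun q => ∃ β β' : El ν,
      β < β' ∧ ∃ c, W β c q ∧ W β' c q ∧ ∀ ξ, ξ < β → ∀ r : El P, In M le (r, q) → ∀ k k' : ℕ,
        In M η ((f (β, ξ), k), r) → In M η ((f (β', ξ), k'), r) → k = k')
      (by simp only [all_eq, imp_eq]; fun_prop) fun p _ => by
        obtain ⟨q, k5, β, β', k6, c, k7, k8, k9⟩ := fc b hb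
          (fun β c p q k5 k6 => (h4 ((β, c), q)).1
            (k2 _ _ _ _ ((h4 ((β, c), p)).2 k5) trivial trivial k6))
          (fun β p => by
            obtain ⟨q, -, k5, c, k6⟩ := k3 β p trivial
            exact ⟨q, k5, c, (h4 ((β, c), q)).1 k6⟩) p
        exact ⟨q, trivial, k5, β, β', El.lt_iff.2 k6, c, (h4 ((β, c), q)).2 k7,
          (h4 ((β', c), q)).2 k8,
          fun ξ hξ => k9 ξ (El.lt_iff.1 hξ) (f (β, ξ)) (f (β', ξ)) (Hf (β, ξ)) (Hf (β', ξ))⟩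
    refine ⟨β, β', c, k6, (h3 (β, c)).2 (k4 _ _ _ k5 k7), (h3 (β', c)).2 (k4 _ _ _ k5 k8),
      fun ξ hξ => ?_⟩
    obtain ⟨p, l1, l2⟩ := Hh (f (β, ξ))
    obtain ⟨p', l3, l4⟩ := Hh (f (β', ξ))
    obtain ⟨r, l5, l6, l7⟩ := tf.directed hH l1 l3
    obtain ⟨s, -, l8, l9⟩ := tf.directed hH k5 l5
    exact k9 ξ hξ s l8 _ _ (fd.2.1 _ _ _ _ l2 (tf.trans trivial trivial trivial l9 l6))
      (fd.2.1 _ _ _ _ l4 (tf.trans trivial trivial trivial l9 l7))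

end

theorem enum_ext {M : Set ZFSet.{0}} (hM : IsZFModel M) {P le H : ZFSet.{0}} (hP : IsForcing P le)
    (hPM : P ∈ M) (hle : le ∈ M) (hH : IsGeneric M P le H)
    (h : ∀ x ∈ M, ∃ α ∈ M, α.IsOrdinal ∧ Surj M α x) :
    ∀ x ∈ genericExt M H, ∃ α ∈ genericExt M H, α.IsOrdinal ∧ Surj (genericExt M H) α x := by
  have := hM.zfm
  have := (hM.genericExt hP hPM hle hH).zfm
  have hMN := subset_genericExt hP hPM hH
  intro x hx
  obtain ⟨T, hT, v, hv, h2, h3⟩ := exists_cover hP hPM hH hx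
  obtain ⟨α, hα, ho, r, hr, h4, h5⟩ := h T hT
  exact ⟨α, hMN hα, ho, Surj.trans (hMN hα) hx ⟨r, hMN hr, h4, h5⟩
    ⟨v, hv, fun a b h c h' => h2 a b c h h', h3⟩⟩

theorem exists_noAt {N : Set ZFSet.{0}} [ZFC N] (hN : IsZFModel N) (hc : N.Countable)
    (enum : ∀ x ∈ N, ∃ α ∈ N, α.IsOrdinal ∧ Surj N α x) {ν : ZFSet.{0}} [InM N ν]
    [Fact ν.IsOrdinal] [Om N (El ν)] : ∃ κ, NoAt N ν κ := by
  have hT := cd_mem (N := N) (injT N ν)
  obtain ⟨α, hα, ho, h1⟩ := enum _ hT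
  obtain ⟨μ, h2, h3, -, h4⟩ := h1.hasCard hα ho hT
  obtain ⟨κ, ⟨k1, k2, k3⟩, k4⟩ := mem_wf.has_min
    {κ | κ ∈ N ∧ κ.IsOrdinal ∧ HasCard N (cd N (injT N ν)) κ} ⟨μ, h2, h3, h4⟩
  refine ⟨κ, k1, ⟨k2, ?_⟩, _, hT, _, cd_mem _, aronszajn_injT k1 k2 k3.surj, k3, ?_⟩
  · rintro ⟨μ, k5, k6⟩
    obtain ⟨μ', k7, k8, k9, k10⟩ := (k6.surj.trans (mem_of_mem k1 k5) hT k3.surj).hasCard
      (mem_of_mem k1 k5) (k2.mem k5) hT
    exact k4 μ' ⟨k7, k8, k10⟩ (k8.mem_of_subset_of_mem k2 k9 k5)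
  · rintro ⟨P, hPM, le, hle, hP, ⟨p, hp⟩, h⟩
    obtain ⟨H, -, hH⟩ := exists_generic hc hP hp
    have hN' := hN.genericExt hP hPM hle hH
    have := hN'.zfm
    have := zfc_of hN' (choice_of_enum (enum_ext hN hP hPM hle hH enum))
    exact not_special_injT (subset_genericExt hP hPM hH) (h H hH).1 (h H hH).2

theorem exists_model : ∃ N : Set ZFSet.{0}, N.Countable ∧ IsZFModel N ∧ Choice N ∧ ∃ ν ∈ N,
    IsCardinalIn N ν ∧ omega ∈ ν ∧ (∀ μ ∈ ν, IsCardinalIn N μ → μ ⊆ omega) ∧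
    ∃ st no, IsLeastOrd (StAt N ν) st ∧ IsLeastOrd (NoAt N ν) no ∧ st ∈ no := by
  obtain ⟨M, j, hMc, hj⟩ := exists_countable_isElem.{0}
  have hM := hj.isZFModel
  have := hM.zfm
  obtain ⟨w, -, ν, hν, P, hPM, le, hle, e, he, η, hη, h1, hνo, hων, g3, g4,
    ⟨⟨p0, hP0, -⟩, g5a, g5b, g5c⟩, fa, fb, fc, fd, fe⟩ := hj.sentence Good good_univ
  obtain rfl := isOmega_iff.1 h1
  have hP : IsForcing P le := ⟨fun z hz => mem_prod.2 (g5a z hz), g5b,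
    fun p q r h h' => g5c r q h p h'⟩
  obtain ⟨H, -, hH⟩ := exists_generic hMc hP hP0
  have hN := hM.genericExt hP hPM hle hH
  have hNc : (genericExt M H).Countable := hMc.image _
  have hMN := subset_genericExt hP hPM hH
  have enum := enum_ext hM hP hPM hle hH g4
  obtain ⟨N, hNe⟩ : ∃ N, genericExt M H = N := ⟨_, rfl⟩
  rw [hNe] at hN hNc hMN enum
  have := hN.zfm
  have hC : Choice N := choice_of_enum enum
  have := zfc_of hM (choice_of_enum g4)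
  have := zfc_of hN hC
  have := InM.mk hν
  have := InM.mk hPM
  have := InM.mk (hMN hν)
  have := Fact.mk hνo
  have tf : TF M P le (fun _ : El P => True) fun q p => In M le (q, p) :=
    ⟨hPM, hle, hP, fun z => ⟨fun h => (El.exists_val h).imp fun _ h => ⟨trivial, h⟩,
      fun ⟨x, _, h⟩ => h ▸ x.val_mem⟩, fun _ _ => ⟨fun h => ⟨trivial, trivial, h⟩, fun h => h.2.2⟩⟩
  have : Om N (El ν) := om_el (hνo.mem_trans omega_zero hων)
    (fun μ hμ => (g3 μ hμ).imp fun _ h => ⟨hMN h.1, h.2⟩)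
    (bdd_ext tf hH hNe (by rwa [car_nat, car_el, car_el]))
  have : Om M (El ν) := om_el (hνo.mem_trans omega_zero hων) g3 fun s hs =>
    Om.bdd (N := N) s (hs.lift hMN (fun _ => rfl) fun _ => rfl)
  refine ⟨N, hNc, hN, hC, ν, hMN hν, isCardinalIn_nu, hων, fun μ hμ hc => ?_, ?_⟩
  · obtain ⟨μ', -, ho, h2, h3⟩ :=
      (surj_omega (N := N) hμ).hasCard omega_mem isOrdinal_omega (mem_of_mem (hMN hν) hμ)
    by_contra h4
    exact hc.2 ⟨μ', ho.mem_of_subset_of_mem hc.1 h2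
      ((hc.1.not_subset_iff_mem isOrdinal_omega).1 h4), h3⟩
  have h2 : StAt N ν ν := stAt_ext tf hH hNe he hη (by rwa [car_nat, car_el, car_el])
    (by rwa [car_nat, car_el]) (by rwa [car_nat, car_el])
  obtain ⟨st, k1, k2⟩ := mem_wf.has_min {κ | StAt N ν κ} ⟨ν, h2⟩
  obtain ⟨no, k3, k4⟩ := mem_wf.has_min {κ | NoAt N ν κ} (exists_noAt hN hNc enum)
  refine ⟨st, no, ⟨k1, fun μ h h' => k2 μ h' h⟩, ⟨k3, fun μ h h' => k4 μ h' h⟩,
    k1.2.1.1.mem_of_subset_of_mem k3.2.1.1 ((hνo.notMem_iff_subset k1.2.1.1).1 (k2 ν h2)) ?_⟩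
  obtain ⟨-, h3, T, hT, lt, hlt, h4, h5, h6⟩ := k3
  by_contra h7
  exact h6 (specialisable (dom_ext tf hH hNe (by rwa [car_nat, car_el, car_el])) hT hlt h4
    (h5.surj.mono ((hνo.notMem_iff_subset h3.1).1 h7) subset_rfl))

end Pool.Agent.P.MP_f1f3c4_lc
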