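import Pool.Agent.P.MP_f1f3c4_lc.Extend

/-!
The step lemma: below a condition, countably many members of a dense set suffice to respect
every requirement that the condition respects.
-/

set_option synthInstance.maxSize 16384
set_option linter.unusedSectionVars false

namespace Pool.Agent.P.MP_f1f3c4_lc

open Pool.Agent.Lib.Typed

variable {N : Set ZFSet.{0}} [ZFC N]
variable {Ω T : Type} [Coded N Ω] [LinearOrder Ω] [Om N Ω] [Coded N T] [PartialOrder T] [DefLe N T]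
variable {r : T → Ω}

/-- `ex γ t` is the node at which the path to `t` leaves the initial part of level `γ`. -/
structure Ex (N : Set ZFSet.{0}) [ZFC N] {Ω T : Type} [Coded N Ω] [LinearOrder Ω] [Coded N T]
    [PartialOrder T] (r : T → Ω) (ex : Ω → T → T) : Prop where
  def_ex : DefF N (fun z : Ω × T => ex z.1 z.2)
  le : ∀ γ t, ex γ t ≤ t
  ge : ∀ γ t, γ ≤ r t → γ ≤ r (ex γ t)
  min : ∀ γ t s, s ≤ t → γ ≤ r s → ex γ t ≤ s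
  self : ∀ γ t, r t < γ → ex γ t = t

theorem exists_ex (hT : Tr N r) : ∃ ex, Ex N r ex := by
  have hr := hT.def_r
  have := hT.wf
  obtain ⟨f, hf, H⟩ := choice (N := N) (R := fun (z : Ω × T) (u : T) => u ≤ z.2 ∧
    (z.1 ≤ r z.2 → z.1 ≤ r u) ∧ (∀ s, s ≤ z.2 → z.1 ≤ r s → u ≤ s) ∧ (r z.2 < z.1 → u = z.2))
    (by simp only [all_eq, imp_eq]; fun_prop) (by
      rintro ⟨γ, t⟩
      rcases lt_or_ge (r t) γ with h | h
      · exact ⟨t, le_rfl, fun h => h, fun s hs h' => absurd (h'.trans (hT.mono hs)) (not_le.2 h),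
          fun _ => rfl⟩
      · obtain ⟨u, ⟨h1, h2⟩, h3⟩ := (wellFounded_lt (α := T)).has_min {s | s ≤ t ∧ γ ≤ r s}
          ⟨t, le_rfl, h⟩
        refine ⟨u, h1, fun _ => h2, fun s hs h' => ?_, fun h' => absurd h (not_le.2 h')⟩
        rcases hT.lin u s t h1 hs with h4 | h4
        · exact h4
        · exact (h4.eq_or_lt.resolve_right (h3 s ⟨hs, h'⟩)).ge)
  exact ⟨fun γ t => f (γ, t), hf, fun γ t => (H (γ, t)).1, fun γ t => (H (γ, t)).2.1,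
    fun γ t => (H (γ, t)).2.2.1, fun γ t => (H (γ, t)).2.2.2⟩

/-- The path to `u` is unbounded in the initial part of level `δ`. -/
def Unb (r : T → Ω) (δ : Ω) (u : T) : Prop := ∀ γ, γ < δ → ∃ s, s ≤ u ∧ γ ≤ r s ∧ r s < δ

@[fun_prop] theorem defF_unb {W : Type} [Coded N W] (hr : DefF N r) {γ : W → Ω} {t : W → T}
    (h1 : DefF N γ) (h2 : DefF N t) : DefF N (fun w => Unb r (γ w) (t w)) := by
  unfold Unb; simp only [all_eq, imp_eq]; fun_prop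

@[fun_prop] theorem defF_getD {W X : Type} [Coded N W] [Coded N X] {l : W → List X} {i : W → ℕ}
    (d : X) (h1 : DefF N l) (h2 : DefF N i) : DefF N (fun w => (l w).getD (i w) d) :=
  DefF.of_rel (fun w y => At (l w) (i w) y ∨ ((¬ ∃ x, At (l w) (i w) x) ∧ d = y)) (by fun_prop)
    fun w y => by
      rw [List.getD_eq_getElem?_getD, At]
      cases h : (l w)[i w]? <;> simp [At, h]

theorem exists_list_bound {X : Type} (l : List X) (P : X → Ω → Prop) {a δ : Ω} (ha : a < δ)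
    (hP : ∀ x γ γ', γ ≤ γ' → P x γ → P x γ') (h : ∀ x ∈ l, ∃ γ, γ < δ ∧ P x γ) :
    ∃ γ, γ < δ ∧ a ≤ γ ∧ ∀ x ∈ l, P x γ := by
  induction l with
  | nil => exact ⟨a, ha, le_rfl, fun _ h => by simp at h⟩
  | cons y l ih =>
    obtain ⟨γ, h1, h2, h3⟩ := ih fun x hx => h x (List.mem_cons_of_mem _ hx)
    obtain ⟨γ', h4, h5⟩ := h y List.mem_cons_self
    refine ⟨max γ γ', max_lt h1 h4, h2.trans (le_max_left _ _), fun x hx => ?_⟩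
    rcases List.mem_cons.1 hx with rfl | hx
    exacts [hP _ _ _ (le_max_right _ _) h5, hP _ _ _ (le_max_left _ _) (h3 x hx)]

variable {ex : Ω → T → T}

theorem Ex.of_unb (hT : Tr N r) (hex : Ex N r ex) {γ δ : Ω} {u : T} (h : Unb r δ u) (hγ : γ < δ) :
    γ ≤ r (ex γ u) ∧ r (ex γ u) < δ := by
  obtain ⟨s, h1, h2, h3⟩ := h γ hγ
  exact ⟨hex.ge _ _ (h2.trans (hT.mono h1)), (hT.mono (hex.min _ _ _ h1 h2)).trans_lt h3⟩

theorem Ex.eq_of_same (hT : Tr N r) (hex : Ex N r ex) {γ : Ω} {t t' : T} (h : Same r γ t t') :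
    ex γ t = ex γ t' := by
  obtain ⟨s, h1, h2, h3⟩ := h
  exact le_antisymm
    (hex.min _ _ _ ((hex.min _ _ _ h2 h3).trans h1) (hex.ge _ _ (h3.trans (hT.mono h2))))
    (hex.min _ _ _ ((hex.min _ _ _ h1 h3).trans h2) (hex.ge _ _ (h3.trans (hT.mono h1))))

theorem Ex.free (hT : Tr N r) (hex : Ex N r ex) {p : Cn N Ω T} {γ : Ω} {t : T} {c : ℕ}
    (hγ : p.1 ≤ γ) (h : Free r p (ex γ t) c) : Free r p t c := by
  rcases lt_or_ge (r t) γ with h1 | h1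
  · rwa [hex.self _ _ h1] at h
  · exact h.of_same hT ⟨_, le_rfl, hex.le _ _, hex.ge _ _ h1⟩ hγ

theorem Free.of_node_le {p : Cn N Ω T} {s t : T} {c : ℕ} (h : Free r p t c) (hs : s ≤ t) :
    Free r p s c := fun u hu => h u (hu.trans hs)

theorem stat_gt {S : Ω → Prop} (h : Stat N S) (γ : Ω) : Stat N (fun δ => S δ ∧ γ < δ) :=
  (h.inter DefF.id γ).mono fun _ h => ⟨h.1, h.2.1⟩

theorem fix_node (hT : Tr N r) (hex : Ex N r ex) {S : Ω → Prop} (hS : DefF N S) (h : Stat N S)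
    {u : Ω → T} (hu : DefF N u) (H : ∀ δ, S δ → Unb r δ (u δ)) (γ : Ω) :
    ∃ t, Stat N (fun δ => (S δ ∧ γ < δ) ∧ ex γ (u δ) = t) := by
  have := hex.def_ex
  exact fodor (by fun_prop) (stat_gt h γ) hT.def_r hT.ctble (by fun_prop)
    fun δ hδ => (hex.of_unb hT (H δ hδ.1) hδ.2).2

theorem split_node (hT : Tr N r) (hex : Ex N r ex) {S S' : DSet N Ω} (h : Stat N S.Mem)
    (h' : Stat N S'.Mem) {u u' : Ω → T} (hu : DefF N u) (hu' : DefF N u')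
    (H : ∀ δ, S.Mem δ → Unb r δ (u δ)) (H' : ∀ δ, S'.Mem δ → Unb r δ (u' δ)) :
    ∃ γ, ∃ A A' : DSet N Ω, Stat N A.Mem ∧ Stat N A'.Mem ∧ (∀ δ, A.Mem δ → S.Mem δ) ∧
      (∀ δ, A'.Mem δ → S'.Mem δ) ∧ ∀ δ δ', A.Mem δ → A'.Mem δ' → ¬ Same r γ (u δ) (u' δ') := by
  have := hex.def_ex
  have h1 : ∃ γ t t', t ≠ t' ∧ Stat N (fun δ => (S.Mem δ ∧ γ < δ) ∧ ex γ (u δ) = t) ∧
      Stat N (fun δ => (S.Mem δ ∧ γ < δ) ∧ ex γ (u δ) = t') := by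
    by_contra hcon
    push Not at hcon
    have h2 : ∀ γ γ' t t', γ ≤ γ' → Stat N (fun δ => (S.Mem δ ∧ γ < δ) ∧ ex γ (u δ) = t) →
        Stat N (fun δ => (S.Mem δ ∧ γ' < δ) ∧ ex γ' (u δ) = t') → t ≤ t' ∨ t' ≤ t := by
      intro γ γ' t t' _ h1 h2
      obtain ⟨t1, h3⟩ := fix_node hT hex (by fun_prop) h2 hu (fun δ hδ => H δ hδ.1.1) γ
      obtain rfl : t = t1 := by
        by_contra h4
        exact hcon γ t t1 h4 h1 (h3.mono fun δ h => ⟨⟨h.1.1.1.1, h.1.2⟩, h.2⟩)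
      obtain ⟨δ, ⟨⟨-, rfl⟩, -⟩, rfl⟩ := h3.exists
      exact hT.lin _ _ _ (hex.le _ _) (hex.le _ _)
    obtain ⟨γ, hγ⟩ := hT.nobranch
      (fun t => ∃ γ, Stat N (fun δ => (S.Mem δ ∧ γ < δ) ∧ ex γ (u δ) = t)) (by fun_prop) (by
        rintro t t' ⟨γ, h3⟩ ⟨γ', h4⟩
        rcases le_total γ γ' with h5 | h5
        exacts [h2 _ _ _ _ h5 h3 h4, (h2 _ _ _ _ h5 h4 h3).symm])
    obtain ⟨t, ht⟩ := fix_node hT hex S.def_mem h hu H γ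
    have h3 := hγ t ⟨γ, ht⟩
    obtain ⟨δ, ⟨h4, h5⟩, rfl⟩ := ht.exists
    exact absurd (hex.of_unb hT (H δ h4) h5).1 (not_le.2 h3)
  obtain ⟨γ, t1, t2, h2, h3, h4⟩ := h1
  obtain ⟨t', h5⟩ := fix_node hT hex S'.def_mem h' hu' H' γ
  obtain ⟨t, h6, h7⟩ : ∃ t, t ≠ t' ∧ Stat N (fun δ => (S.Mem δ ∧ γ < δ) ∧ ex γ (u δ) = t) := by
    by_cases h6 : t1 = t'
    exacts [⟨t2, fun h => h2 (h6.trans h.symm), h4⟩, ⟨t1, h6, h3⟩]
  refine ⟨γ, ⟨fun δ => (S.Mem δ ∧ γ < δ) ∧ ex γ (u δ) = t, by fun_prop⟩,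
    ⟨fun δ => (S'.Mem δ ∧ γ < δ) ∧ ex γ (u' δ) = t', by fun_prop⟩, h7, h5, fun δ h => h.1.1,
    fun δ h => h.1.1, fun δ δ' h8 h9 h10 => h6 ?_⟩
  exact h8.2.symm.trans ((hex.eq_of_same hT h10).trans h9.2)

theorem split_list (hT : Tr N r) (hex : Ex N r ex) {u : Ω → ℕ → T}
    (hu : DefF N (fun z : Ω × ℕ => u z.1 z.2)) (L : List (ℕ × ℕ)) {S S' : DSet N Ω}
    (h : Stat N S.Mem) (h' : Stat N S'.Mem)
    (H : ∀ z ∈ L, ∀ δ, S.Mem δ → Unb r δ (u δ z.1))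
    (H' : ∀ z ∈ L, ∀ δ, S'.Mem δ → Unb r δ (u δ z.2)) :
    ∃ γ, ∃ A A' : DSet N Ω, Stat N A.Mem ∧ Stat N A'.Mem ∧ (∀ δ, A.Mem δ → S.Mem δ) ∧
      (∀ δ, A'.Mem δ → S'.Mem δ) ∧
      ∀ δ δ', A.Mem δ → A'.Mem δ' → ∀ z ∈ L, ¬ Same r γ (u δ z.1) (u δ' z.2) := by
  induction L with
  | nil =>
    obtain ⟨γ, -⟩ := h.exists
    exact ⟨γ, S, S', h, h', fun _ h => h, fun _ h => h, fun _ _ _ _ _ h => by simp at h⟩
  | cons y L ih =>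
    obtain ⟨γ, A, A', h1, h2, h3, h4, h5⟩ := ih (fun z hz => H z (List.mem_cons_of_mem _ hz))
      (fun z hz => H' z (List.mem_cons_of_mem _ hz))
    obtain ⟨γ', B, B', k1, k2, k3, k4, k5⟩ := split_node hT hex h1 h2 (u := fun δ => u δ y.1)
      (u' := fun δ => u δ y.2) (by fun_prop) (by fun_prop)
      (fun δ hδ => H y List.mem_cons_self δ (h3 δ hδ))
      (fun δ hδ => H' y List.mem_cons_self δ (h4 δ hδ))
    refine ⟨max γ γ', B, B', k1, k2, fun δ h => h3 δ (k3 δ h), fun δ h => h4 δ (k4 δ h),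
      fun δ δ' h6 h7 z hz h8 => ?_⟩
    rcases List.mem_cons.1 hz with rfl | hz
    · exact k5 δ δ' h6 h7 (h8.mono (le_max_right _ _))
    · exact h5 δ δ' (k3 δ h6) (k4 δ' h7) z hz (h8.mono (le_max_left _ _))

/-- The projection of a requirement to level `γ`. -/
def prj (ex : Ω → T → T) (γ : Ω) (ρ : Req T) : Req T := ρ.map fun z => (ex γ z.1, z.2)

@[fun_prop] theorem defF_prj {W : Type} [Coded N W] (hex : DefF N (fun z : Ω × T => ex z.1 z.2))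
    {γ : W → Ω} {ρ : W → Req T} (h1 : DefF N γ) (h2 : DefF N ρ) :
    DefF N (fun w => prj ex (γ w) (ρ w)) := by
  unfold prj; fun_prop

theorem ctble_req (hT : Tr N r) (γ : Ω) : Ctble N (fun ρ : Req T => ∀ z ∈ ρ, r z.1 ≤ γ) :=
  ((hT.ctble γ).prod ctble_nat).list.mono fun _ h z hz => ⟨h z hz, trivial⟩

theorem prj_bound (hT : Tr N r) (hex : Ex N r ex) {σ : Req T} {β δ : Ω} (hβ : β < δ)
    (H : ∀ z ∈ σ, Unb r δ z.1) : ∃ γ, γ < δ ∧ β ≤ γ ∧ ∀ z ∈ prj ex β σ, r z.1 ≤ γ := by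
  refine exists_list_bound _ (fun (z : T × ℕ) γ => r z.1 ≤ γ) hβ (fun _ _ _ h h' => h'.trans h) ?_
  intro z hz
  obtain ⟨y, hy, rfl⟩ := List.mem_map.1 hz
  exact ⟨_, (hex.of_unb hT (H y hy) hβ).2, le_rfl⟩

theorem fix_req (hT : Tr N r) (hex : Ex N r ex) {S : Ω → Prop} (hS : DefF N S) (h : Stat N S)
    {σ : Ω → Req T} (hσ : DefF N σ) (H : ∀ δ, S δ → ∀ z ∈ σ δ, Unb r δ z.1) (β : Ω) :
    ∃ ρ, Stat N (fun δ => S δ ∧ β < δ ∧ prj ex β (σ δ) = ρ) := by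
  have := hex.def_ex
  have := hT.def_r
  refine fodor_rel (by fun_prop) (P := fun γ (ρ : Req T) => ∀ z, z ∈ ρ → r z.1 ≤ γ)
    (by simp only [all_eq, imp_eq]; fun_prop) (ctble_req hT) ((stat_gt h β).mono fun δ hδ => ?_)
  obtain ⟨γ, h1, -, h2⟩ := prj_bound hT hex hδ.2 (H δ hδ.1)
  exact ⟨γ, h1, _, h2, hδ.1, hδ.2, rfl⟩

theorem disperse (hT : Tr N r) (hex : Ex N r ex) {S : Ω → Prop} (hS : DefF N S) (h : Stat N S)
    {σ : Ω → Req T} (hσ : DefF N σ) {k : ℕ} (hk : ∀ δ, S δ → (σ δ).length = k)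
    (H : ∀ δ, S δ → ∀ z ∈ σ δ, Unb r δ z.1) (γ0 : Ω) :
    ∃ β, γ0 < β ∧ ∀ E, ∃ ρ, Stat N (fun δ => S δ ∧ β < δ ∧ prj ex β (σ δ) = ρ) ∧
      Avoid r β ρ E := by
  have := hex.def_ex
  have hr := hT.def_r
  obtain ⟨g, -⟩ := hT.ctble γ0
  have h1 : ∀ δ, S δ → ∀ i, i < k → (σ δ).getD i (g 0, 0) ∈ σ δ := fun δ hδ i hi => by
    rw [List.getD_eq_getElem?_getD, List.getElem?_eq_getElem (hk δ hδ ▸ hi)]
    exact List.getElem_mem _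
  have h2 : ∀ δ, S δ → ∀ z ∈ σ δ, ∃ i, i < k ∧ (σ δ).getD i (g 0, 0) = z := fun δ hδ z hz => by
    obtain ⟨i, hi, rfl⟩ := List.getElem_of_mem hz
    exact ⟨i, hk δ hδ ▸ hi, by rw [List.getD_eq_getElem?_getD, List.getElem?_eq_getElem hi]; rfl⟩
  obtain ⟨s, hs, -, h3, h4⟩ := dc (N := N)
    (I := fun _ (x : Ω × DSet N Ω × DSet N Ω) => Stat N x.2.1.Mem ∧ ∀ δ, x.2.1.Mem δ → S δ)
    (R := fun _ x y => (∀ δ, y.2.1.Mem δ → x.2.1.Mem δ) ∧ (∀ δ, y.2.2.Mem δ → x.2.1.Mem δ) ∧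
      Stat N y.2.2.Mem ∧ ∀ δ δ', y.2.2.Mem δ → y.2.1.Mem δ' → ∀ z z', z ∈ σ δ → z' ∈ σ δ' →
        ¬ Same r y.1 z.1 z'.1)
    (by simp only [all_eq, imp_eq]; fun_prop) (by simp only [all_eq, imp_eq]; fun_prop)
    (fun n x hx => by
      obtain ⟨γ, A, A', k1, k2, k3, k4, k5⟩ := split_list hT hex
        (u := fun δ i => ((σ δ).getD i (g 0, 0)).1) (by fun_prop)
        (List.range k ×ˢ List.range k) hx.1 hx.1
        (fun z hz δ hδ => H δ (hx.2 δ hδ) _ (h1 δ (hx.2 δ hδ) _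
          (List.mem_range.1 (List.pair_mem_product.1 hz).1)))
        (fun z hz δ hδ => H δ (hx.2 δ hδ) _ (h1 δ (hx.2 δ hδ) _
          (List.mem_range.1 (List.pair_mem_product.1 hz).2)))
      refine ⟨(γ, A', A), ⟨k2, fun δ h => hx.2 δ (k4 δ h)⟩, k4, k3, k1,
        fun δ δ' h5 h6 z z' hz hz' => ?_⟩
      obtain ⟨i, hi, rfl⟩ := h2 δ (hx.2 δ (k3 δ h5)) z hz
      obtain ⟨j, hj, rfl⟩ := h2 δ' (hx.2 δ' (k4 δ' h6)) z' hz'
      exact k5 δ δ' h5 h6 (i, j)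
        (List.pair_mem_product.2 ⟨List.mem_range.2 hi, List.mem_range.2 hj⟩))
    (x0 := (γ0, ⟨S, hS⟩, ⟨S, hS⟩)) ⟨h, fun _ h => h⟩
  obtain ⟨β, hβ⟩ := Om.bdd (N := N) (fun n => max γ0 (s n).1) (by fun_prop)
  simp only [max_lt_iff] at hβ
  have h5 : ∀ n n', n ≤ n' → ∀ δ, (s n').2.1.Mem δ → (s n).2.1.Mem δ := by
    intro n n' h
    induction h with
    | refl => exact fun _ h => h
    | step _ ih => exact fun δ hδ => ih δ ((h4 _).1 δ hδ)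
  choose ρ hρ using fun n => fix_req hT hex (s (n + 1)).2.2.def_mem (h4 n).2.2.1 hσ
    (fun δ hδ => H δ ((h3 n).2 δ ((h4 n).2.1 δ hδ))) β
  refine ⟨β, (hβ 0).1, fun E => ?_⟩
  obtain ⟨m, hm⟩ := exists_avoid hT (γ := β) (ρ := ρ) (by
    intro n n' hn z hz z' hz' h6
    obtain ⟨δ, h7, -, h8⟩ := (hρ n).exists
    obtain ⟨δ', h9, -, h10⟩ := (hρ n').exists
    rw [← h8] at hz
    rw [← h10] at hz'
    obtain ⟨y, hy, rfl⟩ := List.mem_map.1 hz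
    obtain ⟨y', hy', rfl⟩ := List.mem_map.1 hz'
    obtain ⟨t, h11, h12, h13⟩ := h6
    exact (h4 n).2.2.2 δ δ' h7 (h5 _ _ hn δ' ((h4 n').2.1 δ' h9)) y y' hy hy'
      ⟨t, h12.trans (hex.le _ _), h11.trans (hex.le _ _), (hβ _).2.le.trans h13⟩) E
  exact ⟨ρ m, (hρ m).mono fun δ h => ⟨(h3 m).2 δ ((h4 m).2.1 δ h.1), h.2⟩, hm m le_rfl⟩

/-- The step lemma. -/
theorem step (hT : Tr N r) {p : Cn N Ω T} (hp : Valid r p) {D : Cn N Ω T → Prop} (hD : DefF N D)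
    (hd : ∀ q, Valid r q → ∃ q', Valid r q' ∧ Le r q' q ∧ D q') :
    ∃ a : DFun N ℕ (Cn N Ω T), ∀ σ, Resp r p σ →
      ∃ n, Valid r (a.app n) ∧ Le r (a.app n) p ∧ D (a.app n) ∧ Resp r (a.app n) σ := by
  classical
  obtain ⟨ex, hex⟩ := exists_ex hT
  have := hex.def_ex
  have hr := hT.def_r
  obtain ⟨e, he, He⟩ := choice (N := N) (R := fun (z : Ω × ℕ) (q : Cn N Ω T) => p.1 ≤ z.1 →
    Valid r q ∧ q.1 = z.1 ∧ Le r q p ∧ ∀ s, p.1 ≤ r s → z.2 ≤ q.2.1.app s)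
    (by simp only [all_eq, imp_eq]; fun_prop) (fun z => by
      by_cases h : p.1 ≤ z.1
      · exact (extend' hT hp h z.2).imp fun _ h _ => h
      · exact ⟨p, fun h' => (h h').elim⟩)
  obtain ⟨w, hw, Hw⟩ := choice (N := N) (R := fun (z : (Ω × ℕ) × Ω × Req T) (q : Cn N Ω T) =>
    (∃ q, Valid r q ∧ Le r q (e z.1) ∧ D q ∧ q.1 ≤ z.2.1 ∧ Resp r q z.2.2) →
      Valid r q ∧ Le r q (e z.1) ∧ D q ∧ q.1 ≤ z.2.1 ∧ Resp r q z.2.2)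
    (by simp only [imp_eq]; fun_prop) (fun z => by
      by_cases h : ∃ q, Valid r q ∧ Le r q (e z.1) ∧ D q ∧ q.1 ≤ z.2.1 ∧ Resp r q z.2.2
      · exact h.imp fun _ h _ => h
      · exact ⟨p, fun h' => (h h').elim⟩)
  by_contra hcon
  push Not at hcon
  have key : ∀ δ, ∃ τ : (Ω × ℕ × ℕ) × Req T, p.1 < δ → τ.1.1 < δ ∧ p.1 ≤ τ.1.1 ∧
      τ.2.length = τ.1.2.2 ∧ (∀ z, z ∈ τ.2 → Unb r δ z.1 ∧ z.2 < τ.1.2.1) ∧ Resp r p τ.2 ∧
      ∀ γ, γ < δ → ¬ ∃ q, Valid r q ∧ Le r q (e (τ.1.1, τ.1.2.1)) ∧ D q ∧ q.1 ≤ γ ∧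
        Resp r q (prj ex γ τ.2) := by
    intro δ
    by_cases hδ : p.1 < δ
    swap
    · exact ⟨((δ, 0, 0), []), fun h => (hδ h).elim⟩
    obtain ⟨g, hg, Hg⟩ := ((((Om.ctble (N := N) δ).prod ctble_nat).prod
      ((Om.ctble (N := N) δ).prod (ctble_req hT δ)))).image hw
    obtain ⟨σ, h1, h2⟩ := hcon ⟨g, hg⟩
    obtain ⟨m, hm⟩ := exists_colour_bound σ
    obtain ⟨γ0, h3, h4, h5⟩ := exists_list_bound σ
      (fun z γ => ¬ Unb r δ z.1 → ∀ s, s ≤ z.1 → r s < δ → r s < γ) hδ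
      (fun z γ γ' h h' h1 s h2 h3 => (h' h1 s h2 h3).trans_le h) (fun z _ => by
        by_cases h : Unb r δ z.1
        · exact ⟨_, hδ, fun h' => (h' h).elim⟩
        · unfold Unb at h
          push Not at h
          obtain ⟨γ, h1, h2⟩ := h
          exact ⟨γ, h1, fun _ s h3 h4 => not_le.1 fun h5 => absurd (h2 s h3 h5) (not_le.2 h4)⟩)
    refine ⟨((γ0, m, (σ.filter fun z => Unb r δ z.1).length), σ.filter fun z => Unb r δ z.1),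
      fun _ => ⟨h3, h4, rfl, fun z hz => ?_,
      fun z hz => h1 z (List.mem_filter.1 hz).1, fun γ hγ h6 => ?_⟩⟩
    · rw [List.mem_filter] at hz
      exact ⟨by simpa using hz.2, hm z hz.1⟩
    obtain ⟨k1, k2, k3, k4, k5⟩ := Hw ((γ0, m), γ, prj ex γ (σ.filter fun z => Unb r δ z.1)) h6
    obtain ⟨e1, e2, e3, e4⟩ := He (γ0, m) h4
    obtain ⟨n, hn⟩ := Hg _ ⟨((γ0, m), γ, prj ex γ (σ.filter fun z => Unb r δ z.1)),
      ⟨⟨h3.le, trivial⟩, hγ.le, fun z hz => by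
        obtain ⟨y, hy, rfl⟩ := List.mem_map.1 hz
        exact (hex.of_unb hT (by simpa using (List.mem_filter.1 hy).2) hγ).2.le⟩, rfl⟩
    rw [← hn] at k1 k2 k3 k4 k5
    refine h2 n k1 (k2.trans e3) k3 fun z hz => ?_
    by_cases h7 : Unb r δ z.1
    · exact hex.free hT k4 (k5 (ex γ z.1, z.2)
        (List.mem_map.2 ⟨z, List.mem_filter.2 ⟨hz, by simpa using h7⟩, rfl⟩))
    · intro s hs h8
      have h9 : r s < (e (γ0, m)).1 := e2 ▸ h5 z hz h7 s hs ((h8.trans_le k4).trans hγ)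
      rw [show (DFun.app ⟨g, hg⟩ n : Cn N Ω T) = g n from rfl, k2.2.1 s h9]
      exact Free.of_large e3 e4 (h1 z hz) (hm z hz) s hs h9
  obtain ⟨τ, hτ, Hτ⟩ := choice (N := N) (by simp only [all_eq, imp_eq]; fun_prop) key
  obtain ⟨⟨γ0, m, k⟩, hS⟩ := fodor (N := N) (S := fun δ => True ∧ p.1 < δ) (by fun_prop)
    (stat_gt stat_true p.1) (rk := (Prod.fst : Ω × ℕ × ℕ → Ω)) (by fun_prop)
    (fun γ => ((Om.ctble (N := N) γ).prod (ctble_nat.prod ctble_nat)).mono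
      fun z h => ⟨h, trivial, trivial⟩) (φ := fun δ => (τ δ).1) (by fun_prop)
    fun δ hδ => (Hτ δ hδ.2).1
  have H : ∀ δ, (True ∧ p.1 < δ) ∧ (τ δ).1 = (γ0, m, k) → p.1 ≤ γ0 ∧
      (τ δ).2.length = k ∧ (∀ z, z ∈ (τ δ).2 → Unb r δ z.1 ∧ z.2 < m) ∧ Resp r p (τ δ).2 ∧
      ∀ γ, γ < δ → ¬ ∃ q, Valid r q ∧ Le r q (e (γ0, m)) ∧ D q ∧ q.1 ≤ γ ∧
        Resp r q (prj ex γ (τ δ).2) := fun δ hδ => by
    have := (Hτ δ hδ.1.2).2
    rwa [hδ.2] at this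
  obtain ⟨S, hS', hS, H⟩ : ∃ S : Ω → Prop, DefF N S ∧ Stat N S ∧ ∀ δ, S δ → p.1 ≤ γ0 ∧
      (τ δ).2.length = k ∧ (∀ z, z ∈ (τ δ).2 → Unb r δ z.1 ∧ z.2 < m) ∧ Resp r p (τ δ).2 ∧
      ∀ γ, γ < δ → ¬ ∃ q, Valid r q ∧ Le r q (e (γ0, m)) ∧ D q ∧ q.1 ≤ γ ∧
        Resp r q (prj ex γ (τ δ).2) := ⟨_, by fun_prop, hS, H⟩
  obtain ⟨δ0, hδ0⟩ := hS.exists
  obtain ⟨e1, e2, e3, e4⟩ := He (γ0, m) (H δ0 hδ0).1
  obtain ⟨β, hβ, Hβ⟩ := disperse hT hex hS' hS (σ := fun δ => (τ δ).2) (by fun_prop)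
    (fun δ hδ => (H δ hδ).2.1) (fun δ hδ z hz => ((H δ hδ).2.2.1 z hz).1) γ0
  obtain ⟨q, q1, q2, q3, -, q4⟩ := extend hT e1 (β := β) (e2 ▸ hβ.le) m
    (K := ⟨fun z => Stat N (fun δ => S δ ∧ z.1 < δ ∧ prj ex z.1 (τ δ).2 = z.2), by fun_prop⟩)
    (fun γ ρ h β' _ => by
      dsimp only at h
      obtain ⟨ρ', h1⟩ := fix_req hT hex (by fun_prop) h (σ := fun δ => (τ δ).2) (by fun_prop)
        (fun δ hδ z hz => ((H δ hδ.1).2.2.1 z hz).1) β'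
      refine ⟨ρ', h1.mono fun δ h => ⟨h.1.1, h.2⟩, fun z' hz' => ?_⟩
      obtain ⟨δ, ⟨h2, h3, rfl⟩, h4, rfl⟩ := h1.exists
      obtain ⟨y, hy, rfl⟩ := List.mem_map.1 hz'
      have h5 := ((H δ h2).2.2.1 y hy).1
      refine ⟨_, List.mem_map.2 ⟨y, hy, rfl⟩, rfl, _, le_rfl, ?_, (hex.of_unb hT h5 h3).1⟩
      exact hex.min _ _ _ (hex.le _ _) (le_trans ‹_› (hex.of_unb hT h5 h4).1))
    (fun E => by
      obtain ⟨ρ, h1, h2⟩ := Hβ E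
      obtain ⟨δ, h3, h4, h5⟩ := h1.exists
      have h6 : ∀ z ∈ ρ, Free r p z.1 z.2 ∧ z.2 < m := fun z hz => by
        rw [← h5] at hz
        obtain ⟨y, hy, rfl⟩ := List.mem_map.1 hz
        exact ⟨((H δ h3).2.2.2.1 y hy).of_node_le (hex.le _ _), ((H δ h3).2.2.1 y hy).2⟩
      exact ⟨ρ, h1, fun z hz => Free.of_large e3 e4 (h6 z hz).1 (h6 z hz).2, h2,
        fun z hz => (h6 z hz).2⟩)
  obtain ⟨q', k1, k2, k3⟩ := hd q q1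
  have h1 : γ0 < q.1 := q2 ▸ hβ
  obtain ⟨ρ, h2, h3, -⟩ := (k1.2.2 γ0 (h1.trans_le k2.1)).2 []
  rw [k2.2.2 γ0 h1, q4 γ0 e2.le] at h2
  obtain ⟨δ, h4, h5, h6⟩ := Stat.exists h2
  exact (H δ h4).2.2.2.2 _ h5 ⟨q', k1, k2.trans q3, k3, le_rfl, h6 ▸ h3⟩

end Pool.Agent.P.MP_f1f3c4_lc
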