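import Pool.Agent.P.MP_f1f3c4_lc.Bridge

/-!
A tree of restrictions of finite-to-one functions is an Aronszajn tree of size `ℵ₁`.
-/

set_option synthInstance.maxSize 16384
set_option linter.unusedSectionVars false

namespace Pool.Agent.P.MP_f1f3c4_lc

open ZFSet Pool.Agent.Lib.Forcing Pool.Agent.Lib.Typed Pool.Agent.P.MP_af0a18_lc

variable {N : Set ZFSet.{0}} [ZFC N]

theorem pair_mem_cd {X Y : Type} [Coded N X] [Coded N Y] {S : DSet N (X × Y)} {a b : ZFSet.{0}} :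
    pair a b ∈ cd N S ↔ ∃ x y, S.Mem (x, y) ∧ cd N x = a ∧ cd N y = b := by
  simp only [mem_cd_dset, cd_prod', pair_inj, Prod.exists]

theorem not_finite_to_one {Ω : Type} [Coded N Ω] [LinearOrder Ω] [Om N Ω] {F : Ω → ℕ}
    (hF : DefF N F) (h : ∀ α k, {ξ | ξ < α ∧ F ξ = k}.Finite) : False := by
  obtain ⟨a⟩ := Om.ne (Ω := Ω) N
  obtain ⟨s, hs, H⟩ := choice (N := N) (R := fun (k : ℕ) (b : Ω) => ∀ ξ, b ≤ ξ → F ξ ≠ k)
    (by simp only [all_eq, imp_eq]; fun_prop) (fun k => by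
      by_contra hcon
      push Not at hcon
      refine not_always_lt (N := N) (R := fun b b' => ∃ ξ, b ≤ ξ ∧ ξ < b' ∧ F ξ = k) (by fun_prop) a
        (fun b _ => ?_) (fun α => {ξ | ξ < α ∧ F ξ = k}.ncard)
        (fun b b' _ hb => Set.ncard_le_ncard (fun ξ h => ⟨h.1.trans_le hb, h.2⟩) (h _ _))
        fun b b' _ hb ⟨ξ, h1, h2, h3⟩ => Set.ncard_lt_ncard
          ⟨fun ξ h => ⟨h.1.trans_le hb, h.2⟩, fun h => absurd (h ⟨h2, h3⟩).1 (not_lt.2 h1)⟩ (h _ _)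
      obtain ⟨ξ, h1, h2⟩ := hcon b
      obtain ⟨b', hb'⟩ := exists_gt (N := N) ξ
      exact ⟨b', h1.trans hb'.le, ξ, h1, hb', h2⟩)
  obtain ⟨b, hb⟩ := Om.bdd (N := N) s hs
  exact H (F b) b (hb _).le rfl

theorem cardLe_of_surj {A κ : ZFSet.{0}} (hκ : κ ∈ N) (ho : κ.IsOrdinal) (hA : A ∈ N)
    (h : Surj N κ A) : CardLe N A κ := by
  obtain ⟨μ, -, h1, h2, h3⟩ := h.hasCard hκ ho hA
  rcases (h1.subset_iff_eq_or_mem ho).1 h2 with rfl | h4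
  exacts [Or.inr h3, Or.inl ⟨μ, h4, h3⟩]

variable {ν : ZFSet.{0}} [InM N ν] [hν : Fact ν.IsOrdinal] [Om N (El ν)]

theorem surj_omega {μ : ZFSet.{0}} (h : μ ∈ ν) : Surj N omega μ := by
  obtain ⟨a, rfl⟩ := El.exists_val h
  obtain ⟨g, hg, H⟩ := ctble_lt (N := N) a
  refine car_nat (N := N) ▸ surj_of_fun hg fun z hz => ?_
  obtain ⟨b, rfl⟩ := El.exists_val (hν.out.mem_trans hz h)
  exact (H b (El.lt_iff.2 hz)).imp fun _ h => congrArg El.val h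

theorem bdd_of_cardLt {X : Type} [Coded N X] [Nonempty X] {A : ZFSet.{0}} (hA : A ∈ N)
    (h : CardLt N A ν) {f : X → El ν} (hf : DefF N f) : ∃ b, ∀ x, cd N x ∈ A → f x < b := by
  obtain ⟨μ, h1, h2⟩ := h
  obtain ⟨g, hg, H⟩ := exists_fun_of_surj (M := N) (A := ℕ) (B := X) car_nat.ge
    ((surj_omega h1).trans omega_mem hA h2.surj)
  exact Ctble.bdd ⟨g, hg, fun x hx => (H x hx).imp fun _ h => h.2⟩ hf

theorem isCardinalIn_nu : IsCardinalIn N ν := by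
  have := Om.ne (Ω := El ν) N
  refine ⟨hν.out, fun h => ?_⟩
  obtain ⟨b, hb⟩ := bdd_of_cardLt (X := El ν) InM.out h DefF.id
  exact lt_irrefl _ (hb b b.val_mem)

/-- Nodes: a level and a function that vanishes from the level on. -/
abbrev Nd (N : Set ZFSet.{0}) [ZFC N] (ν : ZFSet.{0}) [InM N ν] := El ν × DFun N (El ν) ℕ

/-- End extension. -/
def ltT (T : DSet N (Nd N ν)) : DSet N (Nd N ν × Nd N ν) :=
  ⟨fun z => T.Mem z.1 ∧ T.Mem z.2 ∧ z.1.1 < z.2.1 ∧ ∀ ξ, ξ < z.1.1 → z.1.2.app ξ = z.2.2.app ξ,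
    by simp only [all_eq, imp_eq]; fun_prop⟩

theorem node_ext {s t : Nd N ν} (hs : ∀ ξ, s.1 ≤ ξ → s.2.app ξ = 0)
    (ht : ∀ ξ, t.1 ≤ ξ → t.2.app ξ = 0) (h : s.1 = t.1) (h' : ∀ ξ, ξ < s.1 → s.2.app ξ = t.2.app ξ) :
    s = t :=
  Prod.ext h (DFun.ext (funext fun ξ => (lt_or_ge ξ s.1).elim (h' ξ)
    fun h'' => (hs ξ h'').trans (ht ξ (h ▸ h'')).symm))

theorem aronszajn {T : DSet N (Nd N ν)} (norm : ∀ t, T.Mem t → ∀ ξ, t.1 ≤ ξ → t.2.app ξ = 0)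
    (restr : ∀ t a, T.Mem t → a < t.1 → ∃ s, T.Mem s ∧ s.1 = a ∧
      ∀ ξ, ξ < a → s.2.app ξ = t.2.app ξ)
    (onto : ∀ a, ∃ t, T.Mem t ∧ t.1 = a)
    (fin : ∀ t k, T.Mem t → {ξ | ξ < t.1 ∧ t.2.app ξ = k}.Finite) {κ : ZFSet.{0}} (hκ : κ ∈ N)
    (ho : κ.IsOrdinal) (hs : Surj N κ (cd N T)) : Aronszajn N ν κ (cd N T) (cd N (ltT T)) := by
  let ht : DSet N (Nd N ν × El ν) := ⟨fun z => T.Mem z.1 ∧ z.1.1 = z.2, by fun_prop⟩
  have hht : ∀ {a b}, pair a b ∈ cd N ht ↔ ∃ t, T.Mem t ∧ cd N t = a ∧ t.1.val = b :=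
    pair_mem_cd.trans ⟨fun ⟨t, _, h, h'⟩ => ⟨t, h.1, h'.1, (congrArg El.val h.2).trans h'.2⟩,
      fun ⟨t, h, h'⟩ => ⟨t, t.1, ⟨h, rfl⟩, h'⟩⟩
  have := InM.mk (cd_mem (N := N) ht)
  refine ⟨cd N ht, cd_mem _, ⟨fun z hz => ?_, fun r s t k1 k2 => ?_, ⟨fun z hz => ?_, fun z hz => ?_⟩,
      fun s t a b k1 k2 k3 => ?_, fun t b k1 a k2 => ?_, fun a ha => ?_⟩, fun a ha => ?_, ?_⟩
  · obtain ⟨x, h, rfl⟩ := mem_cd_dset.1 hz
    exact pair_mem_prod.2 ⟨cd_mem_dset.2 h.1, cd_mem_dset.2 h.2.1⟩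
  · obtain ⟨r, s, k3, rfl, rfl⟩ := pair_mem_cd.1 k1
    obtain ⟨s', t, k4, k5, rfl⟩ := pair_mem_cd.1 k2
    obtain rfl := Coded.inj k5
    exact pair_mem_cd.2 ⟨r, t, ⟨k3.1, k4.2.1, k3.2.2.1.trans k4.2.2.1, fun ξ h =>
      (k3.2.2.2 ξ h).trans (k4.2.2.2 ξ (h.trans k3.2.2.1))⟩, rfl, rfl⟩
  · obtain ⟨x, h, rfl⟩ := mem_cd_dset.1 hz
    exact pair_mem_prod.2 ⟨cd_mem_dset.2 h.1, x.2.val_mem⟩
  · obtain ⟨t, h, rfl⟩ := mem_cd_dset.1 hz
    refine ⟨_, pair_mem_cd.2 ⟨t, t.1, ⟨h, rfl⟩, rfl, rfl⟩, fun b hb => ?_⟩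
    obtain ⟨t', -, k1, rfl⟩ := hht.1 hb
    rw [Coded.inj k1]
    rfl
  · obtain ⟨s, t, k4, rfl, rfl⟩ := pair_mem_cd.1 k1
    obtain ⟨s', -, k5, rfl⟩ := hht.1 k2
    obtain ⟨t', -, k6, rfl⟩ := hht.1 k3
    rw [Coded.inj k5, Coded.inj k6]
    exact El.lt_iff.1 k4.2.2.1
  · obtain ⟨t, k0, rfl, rfl⟩ := hht.1 k1
    obtain ⟨a, rfl⟩ := El.exists_val (hν.out.mem_trans k2 t.1.val_mem)
    have k4 : a < t.1 := El.lt_iff.2 k2
    obtain ⟨u, k5, rfl, k3⟩ := restr t a k0 k4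
    refine ⟨cd N u, ⟨pair_mem_cd.2 ⟨_, _, ⟨k5, k0, k4, k3⟩, rfl, rfl⟩,
      hht.2 ⟨_, k5, rfl, rfl⟩⟩, ?_⟩
    rintro s ⟨k6, k7⟩
    obtain ⟨s, t, k8, rfl, k9⟩ := pair_mem_cd.1 k6
    obtain ⟨s', -, k10, k11⟩ := hht.1 k7
    obtain rfl := Coded.inj k9
    obtain rfl := Coded.inj k10
    have k12 := El.val_inj k11
    exact congrArg _ (node_ext (norm _ k8.1) (norm _ k5) k12
      fun ξ h => (k8.2.2.2 ξ h).trans (k3 ξ (k12 ▸ h)).symm)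
  · obtain ⟨a, rfl⟩ := El.exists_val ha
    obtain ⟨t, k1, rfl⟩ := onto a
    exact ⟨_, hht.2 ⟨t, k1, rfl, rfl⟩⟩
  · have := InM.mk (mem_of_mem (InM.out : ν ∈ N) ha)
    exact cardLe_of_surj hκ ho (sep_mem _ (cd_mem T)) (hs.mono subset_rfl sep_subset)
  · rintro ⟨B, hB, k1, k2, k3⟩
    have k4 : DefF N (In N B : Nd N ν → Prop) := DefF.isIn hB
    obtain ⟨f, hf, Hf⟩ := choice (N := N) (R := fun (a : El ν) (t : Nd N ν) =>
      In N B t ∧ a < t.1) (by fun_prop) (fun a => by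
        obtain ⟨b, hb⟩ := exists_gt (N := N) a
        obtain ⟨t, k5, k6⟩ := k3 _ b.val_mem
        obtain ⟨t, -, rfl, k7⟩ := hht.1 k6
        exact ⟨t, k5, El.val_inj k7 ▸ hb⟩)
    refine not_finite_to_one (N := N) (F := fun ξ => (f ξ).2.app ξ) (by fun_prop) fun α k => ?_
    refine (fin _ k (cd_mem_dset.1 (k1 (Hf α).1))).subset fun ξ hξ => ⟨hξ.1.trans (Hf α).2, ?_⟩
    rw [← hξ.2]
    rcases k2 _ (Hf ξ).1 _ (Hf α).1 with h | h | h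
    · exact (((cd_mem_dset (S := ltT T) (x := (f ξ, f α))).1 h).2.2.2 ξ (Hf ξ).2).symm
    · rw [Coded.inj h]
    · exact ((cd_mem_dset (S := ltT T) (x := (f α, f ξ))).1 h).2.2.2 ξ (hξ.1.trans (Hf α).2)

theorem stAt {u : El ν → El ν → ℕ} (hu : DefF N (fun z : El ν × El ν => u z.1 z.2))
    (fin : ∀ β k, {ξ | ξ < β ∧ u β ξ = k}.Finite)
    (hs : Surj N ν (car N (El ν × El ν)))
    (hc : ∀ S : El ν → ℕ → Prop, DefF N (fun z : El ν × ℕ => S z.1 z.2) → (∀ β, ∃ c, S β c) →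
      ∃ β β' c, β < β' ∧ S β c ∧ S β' c ∧ ∀ ξ, ξ < β → u β ξ = u β' ξ) : StAt N ν ν := by
  obtain ⟨F, hF, HF⟩ := exists_dfun (N := N)
    (F := fun (z : El ν × El ν) ξ => if ξ < z.1 then u z.2 ξ else 0) (by fun_prop)
  let T : DSet N (Nd N ν) := ⟨fun t => ∃ β, t.1 ≤ β ∧ F (t.1, β) = t.2, by fun_prop⟩
  have h1 : ∀ α β, α ≤ β → T.Mem (α, F (α, β)) := fun α β h => ⟨β, h, rfl⟩
  have hT : ∀ t, T.Mem t → ∃ α β, α ≤ β ∧ t = (α, F (α, β)) := fun t ⟨β, h, h'⟩ =>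
    ⟨t.1, β, h, Prod.ext rfl h'.symm⟩
  have h3 : Surj N ν (cd N T) := hs.trans InM.out (cd_mem T)
    (surj_of_fun (e := fun z : El ν × El ν => (z.1, F z)) (by fun_prop) fun z hz => by
      obtain ⟨t, h, rfl⟩ := mem_cd_dset.1 hz
      obtain ⟨α, β, -, rfl⟩ := hT t h
      exact ⟨(α, β), rfl⟩)
  obtain ⟨a0⟩ := Om.ne (Ω := El ν) N
  have : Nonempty (Nd N ν) := ⟨(a0, F (a0, a0))⟩
  refine ⟨InM.out, isCardinalIn_nu, cd N T, cd_mem _, cd N (ltT T), cd_mem _,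
    aronszajn (fun t h ξ h' => ?_) (fun t a h h' => ?_) (fun a => ⟨_, h1 a a le_rfl, rfl⟩)
      (fun t k h => ?_) InM.out hν.out h3,
    (cardLe_of_surj InM.out hν.out (cd_mem T) h3).resolve_left fun h => ?_, ?_⟩
  · obtain ⟨α, β, -, rfl⟩ := hT t h
    simp [HF, not_lt.2 h']
  · obtain ⟨α, β, k, rfl⟩ := hT t h
    exact ⟨_, h1 a β (h'.le.trans k), rfl, fun ξ h => by simp [HF, h, h.trans h']⟩
  · obtain ⟨α, β, k, rfl⟩ := hT t h
    exact (fin β _).subset fun ξ h => ⟨h.1.trans_le k, by simpa [HF, h.1] using h.2⟩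
  · obtain ⟨b, hb⟩ := bdd_of_cardLt (X := Nd N ν) (cd_mem T) h DefF.fst
    exact lt_irrefl _ (hb _ (cd_mem_dset.2 (h1 b b le_rfl)))
  · rintro ⟨S, hS, k1, k2⟩
    have k3 : DefF N (In N S : ℕ × Nd N ν → Prop) := DefF.isIn hS
    obtain ⟨β, β', c, k4, k5, k6, k7⟩ := hc (fun β c => In N S (c, β, F (β, β))) (by fun_prop)
      (fun β => by
        obtain ⟨n, k4, k5⟩ := k1 _ (cd_mem_dset.2 (h1 β β le_rfl))
        obtain ⟨n, rfl⟩ := mem_car.1 ((car_nat (N := N)).ge k4)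
        exact ⟨n, k5⟩)
    exact k2 _ (car_nat (N := N) ▸ cd_mem_car c) _ _ k5 k6 (pair_mem_cd.2 ⟨_, _,
      ⟨h1 β β le_rfl, h1 β' β' le_rfl, k4, fun ξ h => by simp [HF, h, h.trans k4, k7 ξ h]⟩,
      rfl, rfl⟩)

/-- The tree of injective sequences of natural numbers. -/
def injT (N : Set ZFSet.{0}) [ZFC N] (ν : ZFSet.{0}) [InM N ν] [Fact ν.IsOrdinal] [Om N (El ν)] :
    DSet N (Nd N ν) :=
  ⟨fun t => (∀ ξ, t.1 ≤ ξ → t.2.app ξ = 0) ∧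
    ∀ ξ ξ', ξ < t.1 → ξ' < t.1 → t.2.app ξ = t.2.app ξ' → ξ = ξ',
    by simp only [all_eq, imp_eq]; fun_prop⟩

/-- Restriction of a node. -/
noncomputable def cut (t : Nd N ν) (a : El ν) : Nd N ν :=
  (a, ⟨fun ξ => if ξ < a then t.2.app ξ else 0, by fun_prop⟩)

theorem cut_mem {t : Nd N ν} (h : (injT N ν).Mem t) {a : El ν} (ha : a ≤ t.1) :
    (injT N ν).Mem (cut t a) :=
  ⟨fun _ h => if_neg (not_lt.2 h), fun ξ ξ' h1 h2 h3 => h.2 ξ ξ' (h1.trans_le ha) (h2.trans_le ha)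
    ((if_pos h1).symm.trans (h3.trans (if_pos h2)))⟩

theorem aronszajn_injT {κ : ZFSet.{0}} (hκ : κ ∈ N) (ho : κ.IsOrdinal)
    (hs : Surj N κ (cd N (injT N ν))) :
    Aronszajn N ν κ (cd N (injT N ν)) (cd N (ltT (injT N ν))) := by
  refine aronszajn (T := injT N ν) (fun t h => h.1) (fun t a h h' => ⟨_, cut_mem h h'.le, rfl,
    fun ξ h => if_pos h⟩) (fun a => ?_) (fun t k h => Set.Subsingleton.finite
      fun ξ h1 ξ' h2 => h.2 ξ ξ' h1.1 h2.1 (h1.2.trans h2.2.symm)) hκ ho hs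
  obtain ⟨j, hj, H⟩ := (ctble_lt (N := N) a).exists_inj
  exact ⟨(a, ⟨fun ξ => if ξ < a then j ξ else 0, by fun_prop⟩), ⟨fun _ h => if_neg (not_lt.2 h),
    fun ξ ξ' h1 h2 h3 => H ξ ξ' h1 h2 ((if_pos h1).symm.trans (h3.trans (if_pos h2)))⟩, rfl⟩

/-- The tree of injective sequences is not special in an extension without new reals. -/
theorem not_special_injT {N' : Set ZFSet.{0}} [ZFC N'] (hN : N ⊆ N')
    (hω : ∀ x ∈ N', x ⊆ omega → x ∈ N) :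
    ¬ Special N' (cd N (injT N ν)) (cd N (ltT (injT N ν))) := by
  classical
  rintro ⟨S, hS, k1, k2⟩
  have := InM.mk (hN (InM.out : ν ∈ N))
  let : Coded N' (DFun N (El ν) ℕ) := ⟨cd N, Coded.inj, hN (car_mem _)⟩
  have real : ∀ p : ℕ → Prop, DefF N' p → DefF N p := fun p hp =>
    (defF_mem (hω (cd N' (⟨p, hp⟩ : DSet N' ℕ)) (cd_mem _)
      ((cd_dset_subset _).trans car_nat.le))).congr_iff fun n =>
        cd_mem_dset (N := N') (S := ⟨p, hp⟩) (x := n)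
  have real2 : ∀ p : ℕ → ℕ → Prop, DefF N' (fun z : ℕ × ℕ => p z.1 z.2) →
      DefF N (fun z : ℕ × ℕ => p z.1 z.2) := fun p hp =>
    ((real (fun n => p n.unpair.1 n.unpair.2) (by fun_prop)).comp
      (f := fun z : ℕ × ℕ => Nat.pair z.1 z.2) (by fun_prop)).congr_iff fun z => by simp
  have h1 : DefF N' (In N' S : ℕ × Nd N ν → Prop) := DefF.isIn hS
  have h2 : DefF N' (injT N ν).Mem := (injT N ν).def_mem.lift hN (fun _ => rfl) fun _ => rfl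
  obtain ⟨c, hc, Hc⟩ := choice (N := N') (R := fun (t : Nd N ν) (n : ℕ) =>
    (injT N ν).Mem t → In N' S (n, t)) (DefF.imp (h2.comp DefF.fst) (by fun_prop)) (fun t => by
      by_cases h : (injT N ν).Mem t
      · obtain ⟨n, k4, k5⟩ := k1 _ (cd_mem_dset.2 h)
        obtain ⟨n, rfl⟩ := mem_car.1 ((car_nat (N := N)).ge k4)
        exact ⟨n, fun _ => k5⟩
      · exact ⟨0, fun h' => (h h').elim⟩)
  have h3 : ∀ t a, (injT N ν).Mem t → a < t.1 → c (cut t a) ≠ c t := fun t a h h' h'' =>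
    k2 _ (car_nat (N := N) ▸ cd_mem_car (c t)) _ _ (h'' ▸ Hc _ (cut_mem h h'.le)) (Hc t h)
      (pair_mem_cd.2 ⟨_, _, ⟨cut_mem h h'.le, h, h', fun ξ h => if_pos h⟩, rfl, rfl⟩)
  have h4 : ∀ (t : Nd N ν) a b, a ≤ b → cut (cut t b) a = cut t a := fun t a b h =>
    node_ext (fun _ h => if_neg (not_lt.2 h)) (fun _ h => if_neg (not_lt.2 h)) rfl fun ξ h' =>
      (if_pos h').trans ((if_pos (lt_of_lt_of_le h' h)).trans (if_pos h').symm)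
  let G : Nd N ν → Prop := fun t => (injT N ν).Mem t ∧ ∀ a, a < t.1 → t.2.app a = c (cut t a)
  have g1 : ∀ t a, G t → a ≤ t.1 → G (cut t a) := fun t a h h' => ⟨cut_mem h.1 h', fun b hb => by
    rw [h4 t b a hb.le, ← h.2 b (lt_of_lt_of_le hb h')]
    exact if_pos hb⟩
  have g2 : ∀ a s t, G s → G t → s.1 = a → t.1 = a → s = t := by
    intro a
    induction a using WellFoundedLT.induction with
    | ind a ih =>
      intro s t hs ht h h'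
      refine node_ext hs.1.1 ht.1.1 (h.trans h'.symm) fun ξ hξ => ?_
      rw [hs.2 ξ hξ, ht.2 ξ (h' ▸ h ▸ hξ), ih ξ (h ▸ hξ) _ _ (g1 s ξ hs hξ.le)
        (g1 t ξ ht (h' ▸ h ▸ hξ.le)) rfl rfl]
  have h5 : DefF N (fun z : Nd N ν × El ν => cut z.1 z.2) :=
    DefF.prodMk DefF.snd (DefF.of_app (by dsimp only [cut]; fun_prop))
  have h6 := h5.lift hN (fun _ => rfl) fun _ => rfl
  have h7 := (by fun_prop : DefF N fun z : DFun N (El ν) ℕ × El ν => z.1.app z.2).lift hN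
    (fun _ => rfl) fun _ => rfl
  have h8 := (Om.def_lt (N := N) (Ω := El ν)).lift hN (fun _ => rfl) fun _ => rfl
  have hG : DefF N' G := by
    refine h2.and ?_
    simp only [all_eq, imp_eq]
    exact DefF.all (DefF.imp (h8.comp (f := fun z : Nd N ν × El ν => (z.2, z.1.1)) (by fun_prop))
      (DefF.eq (h7.comp (f := fun z : Nd N ν × El ν => (z.1.2, z.2)) (by fun_prop)) (hc.comp h6)))
  have g3 : ∀ s t, G s → G t → s.1 < t.1 → t.2.app s.1 = c s ∧ c s ≠ c t := fun s t hs ht h => by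
    rw [ht.2 _ h, g2 _ _ _ hs (g1 t _ ht h.le) rfl rfl]
    exact ⟨rfl, h3 t _ ht.1 h⟩
  have g4 : ∀ s t, G s → G t → c s = c t → s.1 = t.1 := fun s t hs ht h => by
    rcases lt_trichotomy s.1 t.1 with h' | h' | h'
    exacts [((g3 s t hs ht h').2 h).elim, h', ((g3 t s ht hs h').2 h.symm).elim]
  have g5 : ∀ a, ∃ t, G t ∧ t.1 = a := by
    intro a
    induction a using WellFoundedLT.induction with
    | ind a ih =>
      choose g hg hg' using ih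
      obtain ⟨e, he, He⟩ := ctble_lt (N := N) a
      have he' := he.lift hN (fun _ => rfl) fun _ => rfl
      obtain ⟨p, hp, h9⟩ : ∃ p : ℕ → ℕ → Prop, p = (fun n k => ∃ t, G t ∧ t.1 = e n ∧ c t = k) ∧
        DefF N (fun z : ℕ × ℕ => p z.1 z.2) :=
        ⟨_, rfl, real2 (fun n k => ∃ t, G t ∧ t.1 = e n ∧ c t = k) (by fun_prop)⟩
      have hF : DefF N (fun ξ => if h : ξ < a then c (g ξ h) else 0) :=
        DefF.of_rel (fun ξ k => (ξ < a ∧ ∃ n, e n = ξ ∧ p n k) ∨ (¬ ξ < a ∧ k = 0)) (by fun_prop)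
          fun ξ k => by
            subst hp
            by_cases h : ξ < a
            · obtain ⟨n, rfl⟩ := He ξ h
              simp only [h, dif_pos, true_and, not_true, false_and, or_false]
              refine ⟨fun h' => ⟨n, rfl, _, hg _ h, hg' _ h, h'⟩, ?_⟩
              rintro ⟨m, h1, t, h2, h3, rfl⟩
              rw [g2 _ _ _ h2 (hg _ h) (h3.trans h1) (hg' _ h)]
            · simp [h, eq_comm]
      refine ⟨(a, ⟨_, hF⟩), ⟨⟨fun ξ h => dif_neg (not_lt.2 h), fun ξ ξ' h h' h'' => ?_⟩,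
        fun b hb => (dif_pos hb).trans (congrArg c (node_ext (hg b hb).1.1
          (fun _ h => if_neg (not_lt.2 h)) (hg' b hb) fun ξ hξ => ?_))⟩, rfl⟩
      · rw [← hg' ξ h, ← hg' ξ' h']
        exact g4 _ _ (hg ξ h) (hg ξ' h') ((dif_pos h).symm.trans (h''.trans (dif_pos h')))
      · rw [hg' b hb] at hξ
        have h10 := (g3 _ _ (hg ξ (hξ.trans hb)) (hg b hb) (by rwa [hg', hg'])).1
        rw [hg'] at h10
        simp [cut, h10, hξ, hξ.trans hb]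
  choose g hg hg' using g5
  have g6 : ∀ a b, c (g a) = c (g b) → a = b := fun a b h => by
    rw [← hg' a, g4 _ _ (hg a) (hg b) h, hg']
  have g7 : ∀ t, G t → g t.1 = t := fun t h => g2 _ _ _ (hg _) h (hg' _) rfl
  have h9 := real (fun k => ∃ t, G t ∧ c t = k) (by fun_prop)
  have h10 := real2 (fun m k => ∃ z : Nd N ν × Nd N ν, G z.1 ∧ G z.2 ∧
    (fun z : El ν × El ν => z.1 < z.2) (z.1.1, z.2.1) ∧ c z.1 = m ∧ c z.2 = k) (by
      generalize (fun z : El ν × El ν => z.1 < z.2) = R at h8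
      fun_prop)
  obtain ⟨D, h9, hD⟩ : ∃ D : ℕ → Prop, DefF N D ∧ ∀ k, D k ↔ ∃ a, c (g a) = k :=
    ⟨_, h9, fun k => ⟨fun ⟨t, h, h'⟩ => ⟨t.1, by rwa [g7 t h]⟩, fun ⟨a, h⟩ => ⟨_, hg a, h⟩⟩⟩
  obtain ⟨R, h10, hR⟩ : ∃ R : ℕ → ℕ → Prop, DefF N (fun z : ℕ × ℕ => R z.1 z.2) ∧
      ∀ m b, R m (c (g b)) ↔ ∃ a, a < b ∧ c (g a) = m :=
    ⟨fun m k => ∃ z : Nd N ν × Nd N ν, G z.1 ∧ G z.2 ∧ z.1.1 < z.2.1 ∧ c z.1 = m ∧ c z.2 = k,
      h10, fun m b => ⟨fun ⟨z, h1, h2, h3, h4, h5⟩ => ⟨z.1.1,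
      g6 z.2.1 b (by rwa [g7 _ h2]) ▸ h3, by rwa [g7 _ h1]⟩,
      fun ⟨a, h, h'⟩ => ⟨(g a, g b), hg a, hg b, by simpa [hg'] using h, h', rfl⟩⟩⟩
  refine not_finite_to_one (N := N) (F := fun a => c (g a)) (DefF.of_rel (fun a k =>
    ∃ t : Nd N ν, a < t.1 ∧ t.2.app a = k ∧ ∀ ξ, ξ < t.1 → D (t.2.app ξ) ∧
      ∀ m, R m (t.2.app ξ) ↔ ∃ ξ', ξ' < ξ ∧ t.2.app ξ' = m)
    (by simp only [all_eq, imp_eq]; fun_prop) fun a k => ⟨?_, ?_⟩) fun a k =>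
      Set.Subsingleton.finite fun ξ h ξ' h' => g6 _ _ (h.2.trans h'.2.symm)
  · rintro rfl
    obtain ⟨b, hb⟩ := exists_gt (N := N) a
    have h11 : ∀ ξ, ξ < b → (g b).2.app ξ = c (g ξ) := fun ξ h => by
      simpa [hg'] using (g3 _ _ (hg ξ) (hg b) (by rwa [hg', hg'])).1
    refine ⟨g b, by rwa [hg'], h11 a hb, fun ξ hξ => ?_⟩
    rw [hg'] at hξ
    rw [h11 ξ hξ, hD]
    exact ⟨⟨ξ, rfl⟩, fun m => (hR m ξ).trans (exists_congr fun ξ' => and_congr_right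
      fun h => by rw [h11 ξ' (h.trans hξ)])⟩
  · rintro ⟨t, h11, rfl, h12⟩
    have h13 : ∀ ξ, ξ < t.1 → c (g ξ) = t.2.app ξ := by
      intro ξ
      induction ξ using WellFoundedLT.induction with
      | ind ξ ih =>
        intro hξ
        obtain ⟨b, hb⟩ := (hD _).1 (h12 ξ hξ).1
        have h14 := (h12 ξ hξ).2
        rw [← hb] at h14 ⊢
        rcases lt_trichotomy ξ b with h | rfl | h
        · obtain ⟨ξ', h15, h16⟩ := (h14 _).1 ((hR _ b).2 ⟨ξ, h, rfl⟩)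
          exact absurd (g6 _ _ ((ih ξ' h15 (h15.trans hξ)).trans h16)) h15.ne
        · rfl
        · obtain ⟨ξ', h15, h16⟩ := (hR _ b).1 ((h14 _).2 ⟨b, h, (ih b h (h.trans hξ)).symm⟩)
          exact absurd (g6 _ _ h16) h15.ne
    exact h13 a h11

end Pool.Agent.P.MP_f1f3c4_lc
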